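import Mathlib

/-! Graph knots and their coloured Jones polynomials. -/

namespace Pool.Agent.H765.GK

noncomputable section

/-- Graph knots: the knots obtained from the unknot by cabling and connected sum. Here
`cable p q K` is the `(p, q)`-cable of `K` (winding number `p ≥ 2`, `q` coprime to `p`), so that
`cable p q unknot` is the torus knot `T(p, q)`. -/
inductive GraphKnot : Type
  | unknot : GraphKnot
  | cable (p : ℕ) (q : ℤ) (hp : 2 ≤ p) (hq : IsCoprime (p : ℤ) q) (K : GraphKnot) : GraphKnot
  | sum (K L : GraphKnot) : GraphKnot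

open GraphKnot

/-- Isotopies between graph knots: connected sum is commutative and associative with the unknot
as unit, `T(p, q) = T(q, p)`, `T(p, ± 1)` is the unknot; closed under cabling and sums. -/
inductive Isotopic : GraphKnot → GraphKnot → Prop
  | refl (K : GraphKnot) : Isotopic K K
  | symm {K L : GraphKnot} : Isotopic K L → Isotopic L K
  | trans {K L M : GraphKnot} : Isotopic K L → Isotopic L M → Isotopic K M
  | cable_congr (p : ℕ) (q : ℤ) (hp : 2 ≤ p) (hq : IsCoprime (p : ℤ) q) {K L : GraphKnot} :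
      Isotopic K L → Isotopic (cable p q hp hq K) (cable p q hp hq L)
  | sum_congr {K K' L L' : GraphKnot} : Isotopic K K' → Isotopic L L' →
      Isotopic (sum K L) (sum K' L')
  | sum_comm (K L : GraphKnot) : Isotopic (sum K L) (sum L K)
  | sum_assoc (K L M : GraphKnot) : Isotopic (sum (sum K L) M) (sum K (sum L M))
  | sum_unknot (K : GraphKnot) : Isotopic (sum K unknot) K
  | torus_swap (p r : ℕ) (ε : ℤ) (hε : ε = 1 ∨ ε = -1) (hp : 2 ≤ p) (hr : 2 ≤ r)
      (hpr : IsCoprime (p : ℤ) (ε * r)) (hrp : IsCoprime (r : ℤ) (ε * p)) :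
      Isotopic (cable p (ε * r) hp hpr unknot) (cable r (ε * p) hr hrp unknot)
  | torus_one (p : ℕ) (ε : ℤ) (hε : ε = 1 ∨ ε = -1) (hp : 2 ≤ p) (hpε : IsCoprime (p : ℤ) ε) :
      Isotopic (cable p ε hp hpε unknot) unknot

/-- `e^{bh}` as a power series in `h` -/
def hexp (b : ℚ) : PowerSeries ℚ := PowerSeries.rescale b (PowerSeries.exp ℚ)

/-- The sum of `f j` over `j = -(n-1), -(n-3), ..., n-3, n-1` (`n` terms). -/
def symSum {R : Type*} [AddCommMonoid R] (f : ℤ → R) (n : ℕ) : R :=
  ∑ i ∈ Finset.range n, f (2 * i - (n - 1))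

/-- The quantum integer `[N] = (v^{2N} - v^{-2N})/(v^2 - v^{-2})` at `v = e^{h/2}`: the
unnormalised `N`-coloured Jones polynomial of the unknot (odd in `N`). -/
def unknotJ (N : ℤ) : PowerSeries ℚ := N.sign • symSum (fun j => hexp j) N.natAbs

/-- The cabling formula
`v^{-pq(N^2-1)} ∑_{j=-(N-1), step 2}^{N-1} v^{qj(pj+2)} J(pj+1)` at `v = e^{h/2}`. -/
def cableJ (p : ℕ) (q : ℤ) (J : ℤ → PowerSeries ℚ) (N : ℤ) : PowerSeries ℚ :=
  N.sign • (hexp (-(p * q * (N ^ 2 - 1)) / 2) *
    symSum (fun j => hexp (q * j * (p * j + 2) / 2) * J (p * j + 1)) N.natAbs)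

/-- The unnormalised `N`-coloured Jones polynomial of a graph knot, at `v = e^{h/2}`, as a power
series in `h`. The coefficient of `h^n` is a Vassiliev invariant of order at most `n`. -/
def colouredJones : GraphKnot → ℤ → PowerSeries ℚ
  | unknot => unknotJ
  | cable p q _ _ K => cableJ p q (colouredJones K)
  | sum K L => fun N => colouredJones K N * colouredJones L N * (unknotJ N)⁻¹

end

end Pool.Agent.H765.GK
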