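import Mathlib

/-! Arithmetic of exponents. -/

namespace Pool.Agent.H765.GK

theorem mul_gt_add {p : ℤ} {b : ℤ} (hp : 2 ≤ p) (hb : p < |b|) : p + |b| < p * |b| := by
  nlinarith

theorem small_dvd {m x : ℤ} (h : m ∣ x) (hx : |x| < |m|) : x = 0 := by
  exact Int.eq_zero_of_abs_lt_dvd ((abs_dvd _ _).mpr h) hx

theorem abs_comb (b p e1 e2 : ℤ) (h1 : e1 = 1 ∨ e1 = -1) (h2 : e2 = 1 ∨ e2 = -1) (hp : 0 ≤ p) :
    e1 * b + e2 * p ≤ p + |b| ∧ -(p + |b|) ≤ e1 * b + e2 * p := by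
  have := le_abs_self b
  have := neg_abs_le b
  rcases h1 with rfl | rfl <;> rcases h2 with rfl | rfl <;> constructor <;> linarith

theorem coprime_comb {p b : ℤ} (h : IsCoprime p b) (t e1 e2 : ℤ) (h1 : e1 = 1 ∨ e1 = -1)
    (h2 : e2 = 1 ∨ e2 = -1) : IsCoprime ((b * (2 * p * t + e1) + e2 * p) ^ 2) (p * b) := by
  have ue1 : IsUnit e1 := by rcases h1 with rfl | rfl <;> simp
  have ue2 : IsUnit e2 := by rcases h2 with rfl | rfl <;> simp
  apply IsCoprime.pow_left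
  refine IsCoprime.mul_right ?_ ?_
  · have : b * (2 * p * t + e1) + e2 * p = e1 * b + p * (2 * b * t + e2) := by ring
    rw [this]
    apply IsCoprime.add_mul_left_left
    exact (isCoprime_mul_unit_left_left ue1 b p).mpr h.symm
  · have : b * (2 * p * t + e1) + e2 * p = e2 * p + b * (2 * p * t + e1) := by ring
    rw [this]
    apply IsCoprime.add_mul_left_left
    exact (isCoprime_mul_unit_left_left ue2 p b).mpr h

/-- the winding number is determined by the exponent -/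
theorem dvd_of_sq {P P' u u' a a' δ : ℤ} (hδ : P ^ 2 * a = δ) (hδ' : P' ^ 2 * a' = δ)
    (hco : IsCoprime (u' ^ 2) a') (h : 2 * δ ∣ P' * u' - P * u) : P ∣ P' := by
  have h1 : δ ∣ (P' * u') ^ 2 - (P * u) ^ 2 := by
    have : (P' * u') ^ 2 - (P * u) ^ 2 = (P' * u' - P * u) * (P' * u' + P * u) := by ring
    rw [this]
    exact ((Dvd.intro_left _ rfl).trans h).mul_right _
  have h2 : P ^ 2 ∣ (P' * u') ^ 2 := by
    have e : (P' * u') ^ 2 = ((P' * u') ^ 2 - (P * u) ^ 2) + P ^ 2 * u ^ 2 := by ring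
    rw [e]
    exact dvd_add ((Dvd.intro _ hδ).trans h1) (dvd_mul_right _ _)
  have h3 : P ^ 2 ∣ P' ^ 2 := by
    obtain ⟨x, y, hxy⟩ := hco
    have e : P' ^ 2 = x * (P' * u') ^ 2 + y * (P' ^ 2 * a') := by
      linear_combination (-P' ^ 2) * hxy
    rw [e, hδ']
    exact dvd_add (h2.mul_left _) ((Dvd.intro _ hδ).mul_left _)
  exact (Int.pow_dvd_pow_iff two_ne_zero).mp h3

theorem torus_arith_aux {p b P : ℤ} (hp : 2 ≤ p) (hb : p < |b|)
    (hP : 1 ≤ P) {p' b' : ℤ} (hp' : 2 ≤ p') (hpb : p * b = p' * b') {t e1 e2 : ℤ}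
    (h1 : e1 = 1 ∨ e1 = -1) (h2 : e2 = 1 ∨ e2 = -1) (hle : p' + |b'| ≤ p + |b|)
    (h : 2 * (P ^ 2 * (p * b)) ∣ P * (b' * (2 * p' * t + e1) + e2 * p') - P * (p + |b|)) :
    e1 * b' + e2 * p' = p + |b| ∧ P ∣ t := by
  have hP0 : P ≠ 0 := by omega
  have hb0 : b ≠ 0 := by rintro rfl; simp at hb; omega
  have hpb0 : p * b ≠ 0 := mul_ne_zero (by omega) hb0
  have h3 : 2 * (P * (p * b)) ∣ (b' * (2 * p' * t + e1) + e2 * p') - (p + |b|) := by
    have e : 2 * (P ^ 2 * (p * b)) = P * (2 * (P * (p * b))) := by ring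
    rw [e, ← mul_sub] at h
    exact (mul_dvd_mul_iff_left hP0).mp h
  have h4 : 2 * (p * b) ∣ (e1 * b' + e2 * p') - (p + |b|) := by
    have h5 : 2 * (p * b) ∣ (b' * (2 * p' * t + e1) + e2 * p') - (p + |b|) :=
      (Dvd.intro_left P (by ring)).trans h3
    have e : (e1 * b' + e2 * p') - (p + |b|) =
        ((b' * (2 * p' * t + e1) + e2 * p') - (p + |b|)) - 2 * (p * b) * t := by
      rw [hpb]; ring
    rw [e]
    exact dvd_sub h5 (dvd_mul_right _ _)
  have h5 : (e1 * b' + e2 * p') - (p + |b|) = 0 := by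
    apply small_dvd h4
    have h6 := mul_gt_add hp hb
    have h7 := abs_comb b' p' e1 e2 h1 h2 (by omega)
    have h8 : |2 * (p * b)| = 2 * (p * |b|) := by
      rw [abs_mul, abs_mul, abs_of_nonneg (by omega : (0 : ℤ) ≤ p)]
      norm_num
    rw [h8, abs_lt]
    have := abs_nonneg b
    constructor <;> linarith [h7.1, h7.2]
  refine ⟨by linarith, ?_⟩
  have h6 : 2 * (P * (p * b)) ∣ 2 * (p * b) * t := by
    have e : 2 * (p * b) * t = ((b' * (2 * p' * t + e1) + e2 * p') - (p + |b|)) := by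
      rw [hpb]; linear_combination -h5
    rw [e]
    exact h3
  have e : 2 * (P * (p * b)) = 2 * (p * b) * P := by ring
  rw [e] at h6
  exact (mul_dvd_mul_iff_left (mul_ne_zero two_ne_zero hpb0)).mp h6

theorem torus_arith {p b P : ℤ} (hp : 2 ≤ p) (hb : p < |b|) (hco : IsCoprime p b)
    (hP : 1 ≤ P) {p' b' P' : ℤ} (hp' : 2 ≤ p') (hb' : p' < |b'|) (hco' : IsCoprime p' b')
    (hP' : 1 ≤ P') (hδ : P ^ 2 * (p * b) = P' ^ 2 * (p' * b')) {t e1 e2 : ℤ}
    (h1 : e1 = 1 ∨ e1 = -1) (h2 : e2 = 1 ∨ e2 = -1) (hle : p' + |b'| ≤ p + |b|)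
    (h : 2 * (P ^ 2 * (p * b)) ∣ P' * (b' * (2 * p' * t + e1) + e2 * p') - P * (p + |b|)) :
    P' = P ∧ p' = p ∧ b' = b := by
  have d1 : P ∣ P' := dvd_of_sq (P := P) (P' := P') rfl hδ.symm
    (coprime_comb hco' t e1 e2 h1 h2) h
  have d2 : P' ∣ P := by
    have hc : IsCoprime ((p + |b|) ^ 2) (p * b) := by
      rcases le_or_gt 0 b with h0 | h0
      · have := coprime_comb hco 0 1 1 (Or.inl rfl) (Or.inl rfl)
        rw [abs_of_nonneg h0]
        convert this using 2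
        ring
      · have := coprime_comb hco 0 (-1) 1 (Or.inr rfl) (Or.inl rfl)
        rw [abs_of_neg h0]
        convert this using 2
        ring
    apply dvd_of_sq (P := P') (P' := P) (δ := P ^ 2 * (p * b)) hδ.symm rfl hc
      (u := b' * (2 * p' * t + e1) + e2 * p')
    have := dvd_neg.mpr h
    rwa [neg_sub] at this
  have hPP : P' = P := Int.dvd_antisymm (by omega) (by omega) d2 d1
  subst hPP
  have hpb : p * b = p' * b' := mul_left_cancel₀ (pow_ne_zero 2 (by omega)) hδ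
  obtain ⟨h3, -⟩ := torus_arith_aux hp hb hP' hp' hpb h1 h2 hle h
  have h4 := (abs_comb b' p' e1 e2 h1 h2 (by omega)).1
  have h5 : p + |b| = p' + |b'| := by linarith
  have h6 : p * |b| = p' * |b'| := by
    have := congrArg abs hpb
    rwa [abs_mul, abs_mul, abs_of_nonneg (by omega : (0 : ℤ) ≤ p),
      abs_of_nonneg (by omega : (0 : ℤ) ≤ p')] at this
  have h7 : (p - p') * (p' - |b|) = 0 := by
    have e : |b'| = p + |b| - p' := by linarith
    rw [e] at h6
    linear_combination -h6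
  have h8 : p = p' := by
    rcases mul_eq_zero.mp h7 with h8 | h8
    · linarith
    · exfalso
      have : |b'| = p := by linarith
      linarith
  subst h8
  exact ⟨rfl, rfl, (mul_left_cancel₀ (by omega : p ≠ 0) hpb).symm⟩

/-- exponents of the torus node itself -/
theorem torus_self {p b P : ℤ} (hp : 2 ≤ p) (hb : p < |b|) (hP : 1 ≤ P) {t : ℤ} (ht : 0 ≤ t)
    (htP : t < P) {e1 e2 : ℤ} (h1 : e1 = 1 ∨ e1 = -1) (h2 : e2 = 1 ∨ e2 = -1) :
    2 * (P ^ 2 * (p * b)) ∣ P * (b * (2 * p * t + e1) + e2 * p) - P * (p + |b|) ↔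
      (e2 = 1 ∧ e1 * b = |b| ∧ t = 0) := by
  constructor
  · intro h
    obtain ⟨h3, h4⟩ := torus_arith_aux hp hb hP hp rfl h1 h2 le_rfl h
    have h5 : t = 0 := Int.eq_zero_of_dvd_of_nonneg_of_lt ht htP h4
    have h6 : e1 * b ≤ |b| := by
      rcases h1 with rfl | rfl
      · rw [one_mul]; exact le_abs_self b
      · rw [neg_one_mul]; exact neg_le_abs b
    rcases h2 with rfl | rfl
    · exact ⟨rfl, by linarith, h5⟩
    · exfalso; linarith
  · rintro ⟨rfl, h3, rfl⟩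
    have : P * (b * (2 * p * 0 + e1) + 1 * p) - P * (p + |b|) = 0 := by
      rw [← h3]; ring
    rw [this]
    exact dvd_zero _

theorem sum_neg_periodic {M : Type*} [AddCommGroup M] (P : ℕ) (g : ℤ → M)
    (hg : ∀ t, g (t + P) = g t) :
    ∑ t ∈ Finset.range P, g (-t) = ∑ t ∈ Finset.range P, g t := by
  rw [← Finset.sum_range_reflect]
  have h1 : ∀ t ∈ Finset.range P, g (-((P - 1 - t : ℕ) : ℤ)) = g (t + 1) := by
    intro t ht
    rw [Finset.mem_range] at ht
    rw [← hg]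
    congr 1
    omega
  rw [Finset.sum_congr rfl h1]
  have h2 := Finset.sum_range_succ (fun t : ℕ => g t) P
  have h3 := Finset.sum_range_succ' (fun t : ℕ => g t) P
  rw [h2] at h3
  have h4 : g (P : ℤ) = g 0 := by
    have := hg 0
    rwa [zero_add] at this
  have h5 : g ((0 : ℕ) : ℤ) = g 0 := by rfl
  rw [h4, h5] at h3
  have h6 := add_right_cancel h3
  rw [h6]
  refine Finset.sum_congr rfl fun t _ => ?_
  push_cast
  rfl

/-- exponents for nodes with one inner node -/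
theorem one_self {p bh P : ℤ} (hp : 2 ≤ p) (hb : bh ≠ 0) (hP : 1 ≤ P) (x : ℤ) :
    2 * (P ^ 2 * (p * bh)) ∣ P * bh * x ↔ 2 * (P * p) ∣ x := by
  have e : 2 * (P ^ 2 * (p * bh)) = P * bh * (2 * (P * p)) := by ring
  rw [e]
  exact mul_dvd_mul_iff_left (mul_ne_zero (by omega) hb)

theorem one_self_zero {p P : ℤ} (hp : 2 ≤ p) (hP : 1 ≤ P) {t : ℤ} (ht : 0 ≤ t) (htP : t < P) :
    2 * (P * p) ∣ 2 * p * t ↔ t = 0 := by
  constructor
  · intro h
    have e : 2 * (P * p) = 2 * p * P := by ring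
    rw [e] at h
    exact Int.eq_zero_of_dvd_of_nonneg_of_lt ht htP
      ((mul_dvd_mul_iff_left (by omega : 2 * p ≠ 0)).mp h)
  · rintro rfl
    simp

theorem one_self_ne {p P : ℤ} (hp : 2 ≤ p) (t e : ℤ) (he : e = 1 ∨ e = -1) :
    ¬ 2 * (P * p) ∣ 2 * p * t + 2 * e := by
  intro h
  have h1 : 2 * p ∣ 2 * p * t + 2 * e := (Dvd.intro_left P (by ring)).trans h
  have h2 : 2 * p ∣ 2 * e := (dvd_add_right (dvd_mul_right _ _)).mp h1
  have h3 : p ∣ e := (mul_dvd_mul_iff_left two_ne_zero).mp h2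
  have h4 : IsUnit e := by rcases he with rfl | rfl <;> simp
  have h5 := isUnit_of_dvd_unit h3 h4
  rw [Int.isUnit_iff] at h5
  omega

end Pool.Agent.H765.GK
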