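import Mathlib

/-! Rational functions and the scaling automorphism `X ↦ c X`. -/

namespace Pool.Agent.H765.GK

open Polynomial

noncomputable section

variable {F : Type*} [Field F]

/-- scaling of polynomials -/
def scp (c : F) : F[X] →+* F[X] := compRingHom (C c * X)

theorem scp_apply (c : F) (p : F[X]) : scp c p = p.comp (C c * X) := rfl

theorem coeff_scp (c : F) (p : F[X]) (n : ℕ) : (scp c p).coeff n = p.coeff n * c ^ n :=
  comp_C_mul_X_coeff

theorem scp_C (c a : F) : scp c (C a) = C a := by simp [scp_apply]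

theorem scp_X (c : F) : scp c (X : F[X]) = C c * X := by simp [scp_apply]

theorem scp_inj {c : F} (hc : c ≠ 0) : Function.Injective (scp c) := by
  rw [injective_iff_map_eq_zero]
  intro p hp
  ext n
  have := congrArg (fun p => coeff p n) hp
  simp only [coeff_scp, coeff_zero] at this
  rw [coeff_zero]
  rcases mul_eq_zero.mp this with h | h
  · exact h
  · exact absurd h (pow_ne_zero _ hc)

theorem eval_scp (c a : F) (p : F[X]) : (scp c p).eval a = p.eval (c * a) := by
  rw [scp_apply, eval_comp]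
  simp

/-- scaling of rational functions -/
def sc (c : F) (hc : c ≠ 0) : RatFunc F →+* RatFunc F :=
  IsFractionRing.lift (A := F[X]) (g := (algebraMap F[X] (RatFunc F)).comp (scp c))
    ((RatFunc.algebraMap_injective F).comp (scp_inj hc))

theorem sc_algebraMap (c : F) (hc : c ≠ 0) (p : F[X]) :
    sc c hc (algebraMap F[X] (RatFunc F) p) = algebraMap F[X] (RatFunc F) (scp c p) := by
  rw [sc, IsFractionRing.lift_algebraMap]
  rfl

theorem sc_C (c : F) (hc : c ≠ 0) (a : F) : sc c hc (RatFunc.C a) = RatFunc.C a := by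
  rw [← RatFunc.algebraMap_C, sc_algebraMap, scp_C]

theorem sc_X (c : F) (hc : c ≠ 0) : sc c hc RatFunc.X = RatFunc.C c * RatFunc.X := by
  rw [← RatFunc.algebraMap_X, sc_algebraMap, scp_X, map_mul, RatFunc.algebraMap_C]

theorem sc_zpow (c : F) (hc : c ≠ 0) (n : ℤ) :
    sc c hc (RatFunc.X ^ n) = RatFunc.C (c ^ n) * RatFunc.X ^ n := by
  rw [map_zpow₀, sc_X, mul_zpow, map_zpow₀]

theorem exists_div (f : RatFunc F) : ∃ N D : F[X], D ≠ 0 ∧ IsCoprime N D ∧
    f = algebraMap F[X] (RatFunc F) N / algebraMap F[X] (RatFunc F) D :=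
  ⟨f.num, f.denom, f.denom_ne_zero, f.isCoprime_num_denom, (RatFunc.num_div_denom f).symm⟩

theorem aM_inj {p q : F[X]} (h : algebraMap F[X] (RatFunc F) p = algebraMap F[X] (RatFunc F) q) :
    p = q := RatFunc.algebraMap_injective F h

theorem aM_ne {p : F[X]} (h : p ≠ 0) : algebraMap F[X] (RatFunc F) p ≠ 0 := by
  intro h0
  rw [← map_zero (algebraMap F[X] (RatFunc F))] at h0
  exact h (aM_inj h0)

theorem natDegree_scp {c : F} (hc : c ≠ 0) (p : F[X]) : (scp c p).natDegree = p.natDegree := by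
  rw [scp_apply, natDegree_comp, natDegree_C_mul_X _ hc, mul_one]

/-- a polynomial associated to its scaling is constant -/
theorem const_of_dvd {c : F} (hc : c ≠ 0) (hroot : ∀ n : ℕ, c ^ n = 1 → n = 0) {p : F[X]}
    (h0 : p.coeff 0 ≠ 0) (h : scp c p ∣ p ∨ p ∣ scp c p) : ∃ a, p = C a := by
  have hp : p ≠ 0 := by rintro rfl; simp at h0
  have hp' : scp c p ≠ 0 := fun h => hp (scp_inj hc (by rw [h, map_zero]))
  obtain ⟨u, hu⟩ : ∃ u : F, scp c p = C u * p := by
    rcases h with ⟨r, hr⟩ | ⟨r, hr⟩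
    · have hr0 : r ≠ 0 := by rintro rfl; rw [mul_zero] at hr; exact hp hr
      have hd : r.natDegree = 0 := by
        have := congrArg natDegree hr
        rw [natDegree_mul hp' hr0, natDegree_scp hc] at this
        omega
      obtain ⟨a, ha⟩ := natDegree_eq_zero.mp hd
      have ha0 : a ≠ 0 := by rintro rfl; rw [C_0] at ha; exact hr0 ha.symm
      refine ⟨a⁻¹, ?_⟩
      conv_rhs => rw [hr, ← ha]
      rw [mul_comm (scp c p), ← mul_assoc, ← C_mul, inv_mul_cancel₀ ha0, C_1, one_mul]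
    · have hr0 : r ≠ 0 := by rintro rfl; rw [mul_zero] at hr; exact hp' hr
      have hd : r.natDegree = 0 := by
        have := congrArg natDegree hr
        rw [natDegree_mul hp hr0, natDegree_scp hc] at this
        omega
      obtain ⟨a, ha⟩ := natDegree_eq_zero.mp hd
      exact ⟨a, by rw [hr, ← ha, mul_comm]⟩
  have hcoef : ∀ n, p.coeff n * c ^ n = u * p.coeff n := by
    intro n
    rw [← coeff_scp, hu, coeff_C_mul]
  have hu1 : u = 1 := by
    have := hcoef 0
    rw [pow_zero, mul_one] at this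
    exact (mul_right_cancel₀ h0 (by rw [one_mul]; exact this)).symm
  have hdeg : p.natDegree = 0 := by
    have := hcoef p.natDegree
    rw [hu1, one_mul] at this
    apply hroot
    have hl : p.coeff p.natDegree ≠ 0 := by
      rw [coeff_natDegree]; exact leadingCoeff_ne_zero.mpr hp
    exact mul_left_cancel₀ hl (by rw [mul_one]; exact this)
  exact ⟨p.coeff 0, eq_C_of_natDegree_eq_zero hdeg⟩

theorem exists_X_pow (p : F[X]) (hp : p ≠ 0) : ∃ (i : ℕ) (p0 : F[X]), p = X ^ i * p0 ∧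
    p0.coeff 0 ≠ 0 := by
  obtain ⟨p0, h1, h2⟩ := exists_eq_pow_rootMultiplicity_mul_and_not_dvd p hp 0
  rw [C_0, sub_zero] at h1 h2
  exact ⟨_, p0, h1, by rwa [X_dvd_iff] at h2⟩

theorem isCoprime_C {a : F} (ha : a ≠ 0) (p : F[X]) : IsCoprime p (C a) :=
  ⟨0, C a⁻¹, by rw [zero_mul, zero_add, ← C_mul, inv_mul_cancel₀ ha, C_1]⟩

theorem isCoprime_X_of_coeff {p : F[X]} (h : p.coeff 0 ≠ 0) : IsCoprime p X := by
  rw [isCoprime_comm]
  refine (Irreducible.coprime_iff_not_dvd irreducible_X).mpr ?_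
  rwa [X_dvd_iff]

theorem coeff_zero_scp (c : F) (p : F[X]) : (scp c p).coeff 0 = p.coeff 0 := by
  rw [coeff_scp, pow_zero, mul_one]

theorem zpow_eq_div (n : ℤ) : ∃ a b : ℕ, n = a - b ∧ (RatFunc.X ^ n : RatFunc F) =
    algebraMap F[X] (RatFunc F) (X ^ a) / algebraMap F[X] (RatFunc F) (X ^ b) := by
  obtain ⟨k, rfl | rfl⟩ := n.eq_nat_or_neg
  · exact ⟨k, 0, by simp, by simp⟩
  · exact ⟨0, k, by simp, by simp [zpow_neg]⟩

/-- homogeneous solutions are monomials -/
theorem hom_sol {c : F} (hc : c ≠ 0) (hroot : ∀ n : ℕ, c ^ n = 1 → n = 0) {f : RatFunc F}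
    (hf : f ≠ 0) {a : F} (ha : a ≠ 0) {n : ℤ}
    (h : sc c hc f = RatFunc.C a * RatFunc.X ^ n * f) :
    n = 0 ∧ ∃ (b : F) (j : ℤ), f = RatFunc.C b * RatFunc.X ^ j ∧ a = c ^ j := by
  obtain ⟨N, D, hD, hcop, rfl⟩ := exists_div f
  have hN : N ≠ 0 := by rintro rfl; simp at hf
  obtain ⟨x, y, hn, hxy⟩ := zpow_eq_div (F := F) n
  have hDs : scp c D ≠ 0 := fun h => hD (scp_inj hc (by rw [h, map_zero]))
  have e0 : RatFunc.C a * RatFunc.X ^ n * (algebraMap F[X] (RatFunc F) N /
      algebraMap F[X] (RatFunc F) D) = algebraMap F[X] (RatFunc F) (C a * X ^ x * N) /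
      algebraMap F[X] (RatFunc F) (X ^ y * D) := by
    rw [hxy, ← RatFunc.algebraMap_C, map_mul, map_mul, map_mul]
    ring
  have hXD : X ^ y * D ≠ 0 := mul_ne_zero (pow_ne_zero _ X_ne_zero) hD
  rw [map_div₀, sc_algebraMap, sc_algebraMap, e0, div_eq_div_iff (aM_ne hDs) (aM_ne hXD),
    ← map_mul, ← map_mul] at h
  have e := aM_inj h
  obtain ⟨i, N0, hN0, hN0'⟩ := exists_X_pow N hN
  obtain ⟨j, D0, hD0, hD0'⟩ := exists_X_pow D hD
  have c1 : IsCoprime N0 D := by
    rw [hN0] at hcop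
    exact hcop.of_mul_left_right
  have c2 : IsCoprime D0 N := by
    rw [hD0] at hcop
    exact hcop.of_mul_right_right.symm
  have n1 : ∃ u, N0 = C u := by
    apply const_of_dvd hc hroot hN0'
    right
    have h1 : N0 ∣ scp c N * (X ^ y * D) := by
      rw [e, hN0]
      exact ⟨C a * X ^ x * X ^ i * scp c D, by ring⟩
    have h2 : N0 ∣ scp c N := (IsCoprime.mul_right
      ((isCoprime_X_of_coeff hN0').pow_right) c1).dvd_of_dvd_mul_right h1
    rw [hN0, map_mul, map_pow, scp_X] at h2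
    have h3 : IsCoprime N0 ((C c * X) ^ i) := by
      apply IsCoprime.pow_right
      refine IsCoprime.mul_right ?_ (isCoprime_X_of_coeff hN0')
      exact isCoprime_C hc _
    exact h3.dvd_of_dvd_mul_left h2
  have n2 : ∃ u, D0 = C u := by
    apply const_of_dvd hc hroot hD0'
    right
    have h1 : D0 ∣ (C a * X ^ x * N) * scp c D := by
      rw [← e, hD0]
      exact ⟨scp c N * (X ^ y * X ^ j), by ring⟩
    have h2 : D0 ∣ scp c D := by
      refine (IsCoprime.mul_right (IsCoprime.mul_right ?_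
        ((isCoprime_X_of_coeff hD0').pow_right)) c2).dvd_of_dvd_mul_left h1
      exact isCoprime_C ha _
    rw [hD0, map_mul, map_pow, scp_X] at h2
    have h3 : IsCoprime D0 ((C c * X) ^ j) := by
      apply IsCoprime.pow_right
      refine IsCoprime.mul_right ?_ (isCoprime_X_of_coeff hD0')
      exact isCoprime_C hc _
    exact h3.dvd_of_dvd_mul_left h2
  obtain ⟨u, hu⟩ := n1
  obtain ⟨w, hw⟩ := n2
  have hu0 : u ≠ 0 := by
    rintro rfl
    rw [hu, C_0, coeff_zero] at hN0'
    exact hN0' rfl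
  have hw0 : w ≠ 0 := by
    rintro rfl
    rw [hw, C_0, coeff_zero] at hD0'
    exact hD0' rfl
  have e1 : C (c ^ i * u * w) * X ^ (i + y + j) = C (a * u * c ^ j * w) * X ^ (x + i + j) := by
    have := e
    rw [hN0, hD0, hu, hw, map_mul, map_mul, map_pow, map_pow, scp_X, scp_C, scp_C] at this
    simp only [map_mul, map_pow]
    linear_combination this
  have e2 : x = y := by
    have := congrArg natDegree e1
    rw [natDegree_C_mul_X_pow _ _ (mul_ne_zero (mul_ne_zero (pow_ne_zero _ hc) hu0) hw0),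
      natDegree_C_mul_X_pow _ _ (mul_ne_zero (mul_ne_zero (mul_ne_zero ha hu0)
        (pow_ne_zero _ hc)) hw0)] at this
    omega
  have e3 : c ^ i = a * c ^ j := by
    rw [e2, show i + y + j = y + i + j by ring] at e1
    have := congrArg (fun p => coeff p (y + i + j)) e1
    simp only [coeff_C_mul_X_pow, if_true] at this
    have h1 : (c ^ i - a * c ^ j) * (u * w) = 0 := by linear_combination this
    rcases mul_eq_zero.mp h1 with h2 | h2
    · exact sub_eq_zero.mp h2
    · exact absurd h2 (mul_ne_zero hu0 hw0)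
  refine ⟨by rw [hn, e2, sub_self], u / w, (i : ℤ) - j, ?_, ?_⟩
  · rw [hN0, hD0, hu, hw, map_mul, map_mul, map_pow, map_pow, RatFunc.algebraMap_X,
      RatFunc.algebraMap_C, RatFunc.algebraMap_C, zpow_sub₀ RatFunc.X_ne_zero, zpow_natCast,
      zpow_natCast, map_div₀]
    ring
  · rw [zpow_sub₀ hc, zpow_natCast, zpow_natCast, e3, mul_div_cancel_right₀ _ (pow_ne_zero _ hc)]

/-- rational functions without poles outside `0` -/
def IsLaurent (f : RatFunc F) : Prop := ∃ (p : F[X]) (e : ℕ),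
  f = algebraMap F[X] (RatFunc F) p / algebraMap F[X] (RatFunc F) (X ^ e)

theorem scp_coprime {c : F} {p r : F[X]} (h : IsCoprime p r) :
    IsCoprime (scp c p) (scp c r) := h.map (scp c)

/-- a rational solution of a first order equation with Laurent polynomial right hand side is a
Laurent polynomial -/
theorem laurent_sol {c : F} (hc : c ≠ 0) (hroot : ∀ n : ℕ, c ^ n = 1 → n = 0) {f R : RatFunc F}
    {a : F} (ha : a ≠ 0) {n : ℤ} (hR : IsLaurent R)
    (h : RatFunc.C a * RatFunc.X ^ n * sc c hc f - f = R) : IsLaurent f := by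
  obtain ⟨N, D, hD, hcop, rfl⟩ := exists_div f
  obtain ⟨x, y, hn, hxy⟩ := zpow_eq_div (F := F) n
  obtain ⟨r, e, rfl⟩ := hR
  have hDs : scp c D ≠ 0 := fun h => hD (scp_inj hc (by rw [h, map_zero]))
  obtain ⟨j, D0, hD0, hD0'⟩ := exists_X_pow D hD
  have key : C a * X ^ x * X ^ e * scp c N * D =
      X ^ y * scp c D * (N * X ^ e + r * D) := by
    apply aM_inj
    rw [map_div₀, sc_algebraMap, sc_algebraMap, hxy, ← RatFunc.algebraMap_C] at h
    have h1 : algebraMap F[X] (RatFunc F) (X ^ y) ≠ 0 := aM_ne (pow_ne_zero _ X_ne_zero)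
    have h2 : algebraMap F[X] (RatFunc F) (X ^ e) ≠ 0 := aM_ne (pow_ne_zero _ X_ne_zero)
    have h3 := aM_ne hD
    have h4 := aM_ne hDs
    field_simp at h
    simp only [map_mul, map_add]
    linear_combination h
  have c1 : IsCoprime N D0 := by
    rw [hD0] at hcop
    exact hcop.of_mul_right_right
  have hs0 : (scp c D0).coeff 0 ≠ 0 := by rwa [coeff_zero_scp]
  have d1 : scp c D0 ∣ D0 := by
    have h1 : scp c D0 ∣ (C a * X ^ x * X ^ e * scp c N * X ^ j) * D0 := by
      have : C a * X ^ x * X ^ e * scp c N * X ^ j * D0 = C a * X ^ x * X ^ e * scp c N * D := by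
        rw [hD0]; ring
      rw [this, key]
      conv_rhs => rw [hD0, map_mul]
      exact ⟨X ^ y * scp c (X ^ j) * (N * X ^ e + r * (X ^ j * D0)), by ring⟩
    refine (IsCoprime.mul_right (IsCoprime.mul_right (IsCoprime.mul_right (IsCoprime.mul_right ?_
      ?_) ?_) ?_) ?_).dvd_of_dvd_mul_left h1
    · exact isCoprime_C ha _
    · exact (isCoprime_X_of_coeff hs0).pow_right
    · exact (isCoprime_X_of_coeff hs0).pow_right
    · exact (scp_coprime c1).symm
    · exact (isCoprime_X_of_coeff hs0).pow_right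
  obtain ⟨w, hw⟩ := const_of_dvd hc hroot hD0' (Or.inl d1)
  have hw0 : w ≠ 0 := by
    rintro rfl
    rw [hw, C_0, coeff_zero] at hD0'
    exact hD0' rfl
  refine ⟨C w⁻¹ * N, j, ?_⟩
  have hCw : algebraMap F[X] (RatFunc F) (C w) ≠ 0 := aM_ne (by rwa [Ne, C_eq_zero])
  have hXj : algebraMap F[X] (RatFunc F) (X ^ j) ≠ 0 := aM_ne (pow_ne_zero _ X_ne_zero)
  rw [hD0, hw, map_mul, map_mul, div_eq_div_iff (mul_ne_zero hXj hCw) hXj]
  have : algebraMap F[X] (RatFunc F) (C w⁻¹) * algebraMap F[X] (RatFunc F) (C w) = 1 := by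
    rw [← map_mul, ← C_mul, inv_mul_cancel₀ hw0, C_1, map_one]
  linear_combination (-algebraMap F[X] (RatFunc F) N * algebraMap F[X] (RatFunc F) (X ^ j)) * this

/-- `f` has a pole of order at most `n` at `α` -/
def Reg (n : ℕ) (α : F) (f : RatFunc F) : Prop := ∃ N D : F[X], D.eval α ≠ 0 ∧
  f * algebraMap F[X] (RatFunc F) ((X - C α) ^ n) =
    algebraMap F[X] (RatFunc F) N / algebraMap F[X] (RatFunc F) D

theorem ne_of_eval {D : F[X]} {α : F} (h : D.eval α ≠ 0) : D ≠ 0 := by
  rintro rfl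
  simp at h

theorem Reg.add {n : ℕ} {α : F} {f g : RatFunc F} (hf : Reg n α f) (hg : Reg n α g) :
    Reg n α (f + g) := by
  obtain ⟨N, D, h1, h2⟩ := hf
  obtain ⟨N', D', h1', h2'⟩ := hg
  refine ⟨N * D' + N' * D, D * D', by rw [eval_mul]; exact mul_ne_zero h1 h1', ?_⟩
  have h3 := aM_ne (ne_of_eval h1)
  have h4 := aM_ne (ne_of_eval h1')
  rw [add_mul, h2, h2', map_add, map_mul, map_mul, map_mul]
  field_simp

theorem Reg.mul {n m : ℕ} {α : F} {f g : RatFunc F} (hf : Reg n α f) (hg : Reg m α g) :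
    Reg (n + m) α (f * g) := by
  obtain ⟨N, D, h1, h2⟩ := hf
  obtain ⟨N', D', h1', h2'⟩ := hg
  refine ⟨N * N', D * D', by rw [eval_mul]; exact mul_ne_zero h1 h1', ?_⟩
  rw [pow_add, map_mul, map_mul, map_mul, ← div_mul_div_comm, ← h2, ← h2']
  ring

theorem reg_poly (α : F) (p : F[X]) : Reg 0 α (algebraMap F[X] (RatFunc F) p) :=
  ⟨p, 1, by simp, by simp⟩

theorem reg_C (α a : F) : Reg 0 α (RatFunc.C a) := by
  rw [← RatFunc.algebraMap_C]
  exact reg_poly _ _

theorem reg_zpow {α : F} (hα : α ≠ 0) (n : ℤ) : Reg 0 α (RatFunc.X ^ n) := by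
  obtain ⟨x, y, hn, hxy⟩ := zpow_eq_div (F := F) n
  refine ⟨X ^ x, X ^ y, by simpa using fun h => absurd h hα, ?_⟩
  rw [hxy, pow_zero, map_one, mul_one]

theorem Reg.C_mul {n : ℕ} {α : F} {f : RatFunc F} (a : F) (hf : Reg n α f) :
    Reg n α (RatFunc.C a * f) := by
  have := (reg_C α a).mul hf
  rwa [zero_add] at this

theorem Reg.zpow_mul {n : ℕ} {α : F} (hα : α ≠ 0) {f : RatFunc F} (m : ℤ) (hf : Reg n α f) :
    Reg n α (RatFunc.X ^ m * f) := by
  have := (reg_zpow hα m).mul hf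
  rwa [zero_add] at this

theorem Reg.neg {n : ℕ} {α : F} {f : RatFunc F} (hf : Reg n α f) : Reg n α (-f) := by
  have := hf.C_mul (-1)
  rwa [map_neg, map_one, neg_one_mul] at this

theorem Reg.mono {n m : ℕ} {α : F} {f : RatFunc F} (hf : Reg n α f) (h : n ≤ m) :
    Reg m α f := by
  obtain ⟨N, D, h1, h2⟩ := hf
  refine ⟨N * (X - C α) ^ (m - n), D, h1, ?_⟩
  have : (X - C α) ^ m = (X - C α) ^ n * (X - C α) ^ (m - n) := by
    rw [← pow_add]; congr 1; omega
  rw [this, map_mul, ← mul_assoc, h2, map_mul]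
  ring

theorem reg_zero (n : ℕ) (α : F) : Reg n α (0 : RatFunc F) := ⟨0, 1, by simp, by simp⟩

theorem Reg.sum {ι : Type*} {n : ℕ} {α : F} (s : Finset ι) (f : ι → RatFunc F)
    (h : ∀ i ∈ s, Reg n α (f i)) : Reg n α (∑ i ∈ s, f i) := by
  classical
  induction s using Finset.induction_on with
  | empty => simpa using reg_zero n α
  | insert i s hi ih =>
    rw [Finset.sum_insert hi]
    exact (h i (by simp)).add (ih fun j hj => h j (by simp [hj]))

theorem Reg.pow {α : F} {f : RatFunc F} {n : ℕ} (hf : Reg n α f) (m : ℕ) :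
    Reg (m * n) α (f ^ m) := by
  induction m with
  | zero =>
    rw [pow_zero, zero_mul]
    have := reg_poly α (1 : F[X])
    rwa [map_one] at this
  | succ m ih =>
    have := ih.mul hf
    rw [pow_succ, Nat.succ_mul]
    exact this

theorem Reg.sc {n : ℕ} {α c : F} (hc : c ≠ 0) {f : RatFunc F} (hf : Reg n (c * α) f) :
    Reg n α (GK.sc c hc f) := by
  obtain ⟨N, D, h1, h2⟩ := hf
  have h3 := congrArg (GK.sc c hc) h2
  rw [map_mul, map_div₀, sc_algebraMap, sc_algebraMap, sc_algebraMap, map_pow, map_sub, scp_X,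
    scp_C, Polynomial.C_mul] at h3
  have h4 : (C c * X - C c * C α : F[X]) ^ n = C (c ^ n) * (X - C α) ^ n := by
    rw [← mul_sub, mul_pow, C_pow]
  rw [h4, map_mul] at h3
  have hcn : (c ^ n) ≠ 0 := pow_ne_zero _ hc
  refine ⟨C (c ^ n)⁻¹ * scp c N, scp c D, by rwa [eval_scp], ?_⟩
  have h5 : algebraMap F[X] (RatFunc F) (C (c ^ n)⁻¹) * algebraMap F[X] (RatFunc F) (C (c ^ n))
      = 1 := by
    rw [← map_mul, ← Polynomial.C_mul, inv_mul_cancel₀ hcn, C_1, map_one]
  rw [map_mul, mul_div_assoc, ← h3]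
  linear_combination (-(GK.sc c hc f) * algebraMap F[X] (RatFunc F) ((X - C α) ^ n)) * h5

theorem sc_sc (c e : F) (hc : c ≠ 0) (he : e ≠ 0) (h : c * e = 1) (f : RatFunc F) :
    GK.sc c hc (GK.sc e he f) = f := by
  have : (GK.sc c hc).comp (GK.sc e he) = RingHom.id _ := by
    apply IsLocalization.ringHom_ext (nonZeroDivisors F[X])
    apply Polynomial.ringHom_ext
    · intro x
      simp only [RingHom.comp_apply, sc_algebraMap, scp_C, RingHom.id_apply]
    · simp only [RingHom.comp_apply, sc_algebraMap, scp_X, map_mul, scp_C, RingHom.id_apply]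
      rw [← mul_assoc, ← map_mul, ← Polynomial.C_mul, mul_comm e c, h, C_1, map_one, one_mul]
  exact RingHom.congr_fun this f

theorem reg_sc_iff {n : ℕ} {α c : F} (hc : c ≠ 0) {f : RatFunc F} :
    Reg n α (GK.sc c hc f) ↔ Reg n (c * α) f := by
  constructor
  · intro h
    have h1 : Reg n (c⁻¹ * (c * α)) (GK.sc c hc f) := by
      rwa [inv_mul_cancel_left₀ hc]
    have h2 := Reg.sc (inv_ne_zero hc) h1
    rwa [sc_sc _ _ _ _ (inv_mul_cancel₀ hc)] at h2
  · exact fun h => h.sc hc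

/-- pole lemma -/
theorem reg_of_orbit {c : F} (hc : c ≠ 0) (hroot : ∀ n : ℕ, c ^ n = 1 → n = 0)
    {f R : RatFunc F} {a : F} {m : ℤ} {n : ℕ} {α : F} (hα : α ≠ 0) (ha : a ≠ 0)
    (h : RatFunc.C a * RatFunc.X ^ m * GK.sc c hc f - f = R)
    (hR : ∀ j : ℤ, j ≠ 0 → Reg n (c ^ j * α) R) : Reg n α R := by
  classical
  have hne : ∀ j : ℤ, c ^ j * α ≠ 0 := fun j => mul_ne_zero (zpow_ne_zero _ hc) hα
  -- one step
  have step : ∀ j : ℤ, j ≠ 0 → (Reg n (c ^ j * α) f ↔ Reg n (c ^ (j + 1) * α) f) := by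
    intro j hj
    have e1 : c ^ (j + 1) * α = c * (c ^ j * α) := by
      rw [zpow_add_one₀ hc]; ring
    rw [e1, ← reg_sc_iff hc]
    constructor
    · intro h1
      have h2 : GK.sc c hc f = RatFunc.C a⁻¹ * (RatFunc.X ^ (-m) * (f + R)) := by
        rw [← h, map_inv₀, zpow_neg]
        have x1 : (RatFunc.X : RatFunc F) ^ m ≠ 0 := zpow_ne_zero _ RatFunc.X_ne_zero
        have x2 : RatFunc.C a ≠ 0 := by rwa [Ne, map_eq_zero]
        field_simp
        ring
      rw [h2]
      exact ((h1.add (hR j hj)).zpow_mul (hne j) _).C_mul _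
    · intro h1
      have h2 : f = RatFunc.C a * (RatFunc.X ^ m * GK.sc c hc f) + -R := by
        rw [← h]; ring
      rw [h2]
      exact ((h1.zpow_mul (hne j) _).C_mul _).add (hR j hj).neg
  -- finiteness
  obtain ⟨N, D, hD, -, hf⟩ := exists_div f
  have hfin : {j : ℤ | ¬ Reg n (c ^ j * α) f}.Finite := by
    have hinj : Function.Injective fun j : ℤ => c ^ j * α := by
      intro i j hij
      have h1 : c ^ i = c ^ j := mul_right_cancel₀ hα hij
      have h2 : c ^ (i - j) = 1 := by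
        rw [zpow_sub₀ hc, h1, div_self (zpow_ne_zero _ hc)]
      obtain ⟨k, hk | hk⟩ := (i - j).eq_nat_or_neg
      · rw [hk, zpow_natCast] at h2
        have := hroot k h2
        omega
      · rw [hk, zpow_neg, zpow_natCast, inv_eq_one] at h2
        have := hroot k h2
        omega
    have h1 : (D.roots.toFinset : Set F).Finite := Finset.finite_toSet _
    refine (h1.preimage (hinj.injOn)).subset ?_
    intro j hj
    rw [Set.mem_preimage, Finset.mem_coe, Multiset.mem_toFinset, mem_roots hD, IsRoot.def]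
    by_contra h2
    apply hj
    refine Reg.mono (n := 0) ⟨N, D, h2, ?_⟩ (Nat.zero_le _)
    rw [hf, pow_zero, map_one, mul_one]
  have hex : ∀ S : Set ℤ, S.Infinite → ∃ j ∈ S, Reg n (c ^ j * α) f := by
    intro S hS
    by_contra hcon
    push Not at hcon
    exact hS (hfin.subset hcon)
  have hpos : Reg n (c ^ (1 : ℤ) * α) f := by
    obtain ⟨j, hj, hreg⟩ := hex (Set.Ici 1) (Set.Ici_infinite 1)
    obtain ⟨k, rfl⟩ : ∃ k : ℕ, j = 1 + k := ⟨(j - 1).toNat, by rw [Set.mem_Ici] at hj; omega⟩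
    clear hj
    induction k with
    | zero => simpa using hreg
    | succ k ih =>
      apply ih
      rw [step (1 + k) (by omega)]
      rw [add_assoc]
      exact_mod_cast hreg
  have hneg : Reg n (c ^ (0 : ℤ) * α) f := by
    obtain ⟨j, hj, hreg⟩ := hex (Set.Iic 0) (Set.Iic_infinite 0)
    obtain ⟨k, rfl⟩ : ∃ k : ℕ, j = -k := ⟨(-j).toNat, by rw [Set.mem_Iic] at hj; omega⟩
    clear hj
    induction k with
    | zero => simpa using hreg
    | succ k ih =>
      apply ih
      have := (step (-((k + 1 : ℕ) : ℤ)) (by omega)).mp hreg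
      have e : -((k + 1 : ℕ) : ℤ) + 1 = -(k : ℤ) := by push_cast; ring
      rwa [e] at this
  rw [zpow_zero, one_mul] at hneg
  rw [zpow_one] at hpos
  rw [← h]
  have h1 : Reg n α (GK.sc c hc f) := hpos.sc hc
  have h2 := ((h1.zpow_mul hα m).C_mul a).add hneg.neg
  rwa [← sub_eq_add_neg, ← mul_assoc] at h2

end

end Pool.Agent.H765.GK
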