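import Mathlib
import Pool.Agent.H765.GK.Rat

/-! Obstruction functionals on Laurent polynomials. -/

namespace Pool.Agent.H765.GK

open Polynomial

noncomputable section

variable {F : Type*} [Field F]

/-- Laurent polynomials as rational functions -/
def toR : (ℤ →₀ F) →+ RatFunc F :=
  Finsupp.liftAddHom fun m => (AddMonoidHom.mulRight (RatFunc.X ^ m)).comp
    (RatFunc.C : F →+* RatFunc F).toAddMonoidHom

theorem toR_single (m : ℤ) (a : F) :
    toR (Finsupp.single m a) = RatFunc.C a * RatFunc.X ^ m := by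
  rw [toR, Finsupp.liftAddHom_apply_single]
  rfl

theorem toR_inj : Function.Injective (toR : (ℤ →₀ F) →+ RatFunc F) := by
  rw [injective_iff_map_eq_zero]
  intro φ hφ
  obtain ⟨e, he⟩ : ∃ e : ℕ, ∀ m ∈ φ.support, 0 ≤ m + e := by
    refine ⟨φ.support.sup fun m => m.natAbs, fun m hm => ?_⟩
    have := Finset.le_sup (f := fun m : ℤ => m.natAbs) hm
    omega
  have h1 : algebraMap F[X] (RatFunc F) (∑ m ∈ φ.support, monomial (m + e).toNat (φ m)) =
      toR φ * RatFunc.X ^ (e : ℤ) := by
    conv_rhs => rw [← Finsupp.sum_single φ, Finsupp.sum, map_sum, Finset.sum_mul]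
    rw [map_sum]
    refine Finset.sum_congr rfl fun m hm => ?_
    rw [toR_single, mul_assoc, ← zpow_add₀ RatFunc.X_ne_zero, ← C_mul_X_pow_eq_monomial, map_mul,
      map_pow, RatFunc.algebraMap_C, RatFunc.algebraMap_X, ← zpow_natCast,
      Int.toNat_of_nonneg (he m hm)]
  rw [hφ, zero_mul, ← map_zero (algebraMap F[X] (RatFunc F))] at h1
  have h2 := aM_inj h1
  ext m
  by_contra hm
  have hm' : m ∈ φ.support := Finsupp.mem_support_iff.mpr hm
  have h3 := congrArg (fun p => coeff p (m + e).toNat) h2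
  simp only [finsetSum_coeff, coeff_monomial, coeff_zero] at h3
  rw [Finset.sum_eq_single m] at h3
  · rw [if_pos rfl] at h3
    exact hm h3
  · intro j hj hjm
    rw [if_neg]
    have := he j hj
    have := he m hm'
    omega
  · intro h4
    exact absurd hm' h4

theorem IsLaurent.exists_toR {f : RatFunc F} (hf : IsLaurent f) : ∃ φ, toR φ = f := by
  obtain ⟨p, e, rfl⟩ := hf
  induction p using Polynomial.induction_on' with
  | add p r hp hr =>
    obtain ⟨φ, h1⟩ := hp
    obtain ⟨ψ, h2⟩ := hr
    exact ⟨φ + ψ, by rw [map_add, map_add, h1, h2, add_div]⟩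
  | monomial n a =>
    refine ⟨Finsupp.single ((n : ℤ) - e) a, ?_⟩
    rw [toR_single, ← C_mul_X_pow_eq_monomial, map_mul, map_pow, map_pow, RatFunc.algebraMap_C,
      RatFunc.algebraMap_X, zpow_sub₀ RatFunc.X_ne_zero, zpow_natCast, zpow_natCast]
    ring

theorem isLaurent_toR (φ : ℤ →₀ F) : IsLaurent (toR φ) := by
  induction φ using Finsupp.induction_linear with
  | zero => exact ⟨0, 0, by simp⟩
  | add f g hf hg =>
    obtain ⟨p, e, h1⟩ := hf
    obtain ⟨p', e', h2⟩ := hg
    refine ⟨p * X ^ e' + p' * X ^ e, e + e', ?_⟩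
    have x1 : algebraMap F[X] (RatFunc F) (X ^ e) ≠ 0 := aM_ne (pow_ne_zero _ X_ne_zero)
    have x2 : algebraMap F[X] (RatFunc F) (X ^ e') ≠ 0 := aM_ne (pow_ne_zero _ X_ne_zero)
    rw [map_add, h1, h2, pow_add, map_mul, map_add, map_mul, map_mul]
    field_simp
  | single m a =>
    obtain ⟨x, y, hn, hxy⟩ := zpow_eq_div (F := F) m
    refine ⟨C a * X ^ x, y, ?_⟩
    rw [toR_single, hxy, map_mul, RatFunc.algebraMap_C]
    ring

/-- a weighted sum of coefficients -/
def lam (w : ℤ → F) : (ℤ →₀ F) →+ F :=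
  Finsupp.liftAddHom fun m => AddMonoidHom.mulRight (w m)

theorem lam_single (w : ℤ → F) (m : ℤ) (a : F) : lam w (Finsupp.single m a) = a * w m := by
  rw [lam, Finsupp.liftAddHom_apply_single]
  rfl

/-- weighted sums with Gaussian weights vanish on the image of the difference operator -/
theorem lam_eq_zero {c : F} (hc : c ≠ 0) (hroot : ∀ n : ℕ, c ^ n = 1 → n = 0) {f : RatFunc F}
    {a : F} (ha : a ≠ 0) {k : ℤ} {r : ℤ →₀ F}
    (h : RatFunc.C a * RatFunc.X ^ k * sc c hc f - f = toR r) (w : ℤ → F)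
    (hw : ∀ m, a * c ^ m * w (m + k) = w m) : lam w r = 0 := by
  obtain ⟨φ, rfl⟩ := (laurent_sol hc hroot ha (isLaurent_toR r) h).exists_toR
  let E : (ℤ →₀ F) →+ (ℤ →₀ F) := Finsupp.liftAddHom fun m =>
    (Finsupp.singleAddHom (m + k)).comp (AddMonoidHom.mulRight (a * c ^ m)) -
      Finsupp.singleAddHom m
  have hE : ∀ m b, E (Finsupp.single m b) =
      Finsupp.single (m + k) (b * (a * c ^ m)) - Finsupp.single m b := by
    intro m b
    simp only [E, Finsupp.liftAddHom_apply_single]
    rfl
  have h1 : ∀ φ, toR (E φ) = RatFunc.C a * RatFunc.X ^ k * sc c hc (toR φ) - toR φ := by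
    intro φ
    induction φ using Finsupp.induction_linear with
    | zero => simp
    | add f g hf hg => rw [map_add, map_add, hf, hg, map_add, map_add]; ring
    | single m b =>
      rw [hE, map_sub, toR_single, toR_single, zpow_add₀ RatFunc.X_ne_zero]
      simp only [map_mul, sc_C, sc_zpow]
      ring
  have h2 : r = E φ := by
    apply toR_inj
    rw [h1, h]
  rw [h2]
  clear h2 h
  induction φ using Finsupp.induction_linear with
  | zero => simp
  | add f g hf hg => rw [map_add, map_add, hf, hg, add_zero]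
  | single m b =>
    rw [hE, map_sub, lam_single, lam_single, ← hw m]
    ring

end

end Pool.Agent.H765.GK
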