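import Mathlib
import Pool.Agent.H765.GK.Lam
import Pool.Agent.H765.GK.Arith

/-! The right hand sides of the reduced equations and their obstruction classes. -/

namespace Pool.Agent.H765.GK

open Polynomial

noncomputable section

/-- exponentials in a field -/
structure QF (F : Type*) [Field F] where
  Q : ℚ → F
  zero : Q 0 = 1
  add : ∀ a b, Q (a + b) = Q a * Q b
  inj : ∀ a, Q a = 1 → a = 0

variable {F : Type*} [Field F]

namespace QF

variable (q : QF F)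

theorem ne (a : ℚ) : q.Q a ≠ 0 := by
  intro h
  have := q.add a (-a)
  rw [h, zero_mul, add_neg_cancel, q.zero] at this
  exact one_ne_zero this

theorem neg (a : ℚ) : q.Q (-a) = (q.Q a)⁻¹ := by
  apply eq_inv_of_mul_eq_one_left
  rw [← q.add, neg_add_cancel, q.zero]

theorem pow (a : ℚ) (n : ℕ) : q.Q a ^ n = q.Q (n * a) := by
  induction n with
  | zero => simp [q.zero]
  | succ n ih =>
    rw [pow_succ, ih, ← q.add]
    congr 1
    push_cast
    ring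

theorem zpow (a : ℚ) (n : ℤ) : q.Q a ^ n = q.Q (n * a) := by
  obtain ⟨k, rfl | rfl⟩ := n.eq_nat_or_neg
  · rw [zpow_natCast, q.pow]; simp
  · rw [zpow_neg, zpow_natCast, q.pow, ← q.neg]; congr 1; push_cast; ring

theorem root (n : ℕ) (h : q.Q 2 ^ n = 1) : n = 0 := by
  rw [q.pow] at h
  have := q.inj _ h
  have h2 : (n : ℚ) = 0 := by linarith
  exact_mod_cast h2

theorem eq_iff (a b : ℚ) : q.Q a = q.Q b ↔ a = b := by
  constructor
  · intro h
    have h1 : q.Q (a - b) = 1 := by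
      rw [sub_eq_add_neg, q.add, q.neg, h, mul_inv_cancel₀ (q.ne b)]
    linarith [q.inj _ h1]
  · rintro rfl; rfl

end QF

variable (q : QF F)

/-- `Q(2r-1) X^{P'} - Q(1-2r) X^{-P'}` -/
def Sf (P' r : ℤ) : RatFunc F :=
  RatFunc.C (q.Q (2 * r - 1)) * RatFunc.X ^ P' - RatFunc.C (q.Q (1 - 2 * r)) * RatFunc.X ^ (-P')

/-- right hand side -/
def rho (p : ℕ) (bh : ℤ) (P s : ℕ) : RatFunc F :=
  ∑ t ∈ Finset.range P,
    (RatFunc.C (q.Q (2 * bh * t * (p * t + 1))) * RatFunc.X ^ ((P : ℤ) * bh * (2 * p * t + 1)) *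
      Sf q (p * P) (p * t + 1) ^ (1 - (s : ℤ)) -
     RatFunc.C (q.Q (2 * bh * t * (p * t - 1))) * RatFunc.X ^ ((P : ℤ) * bh * (2 * p * t - 1)) *
      Sf q (p * P) (p * t) ^ (1 - (s : ℤ)))

/-- Gaussian weight -/
def gw (δ n m : ℤ) : F := by
  classical
  exact if 2 * δ ∣ m - n then q.Q (-(m ^ 2 / (2 * δ))) else 0

theorem gw_rec {δ : ℤ} (hδ : δ ≠ 0) (n m : ℤ) :
    q.Q (2 * δ) * q.Q 2 ^ m * gw q δ n (m + 2 * δ) = gw q δ n m := by
  have hδ' : (δ : ℚ) ≠ 0 := by exact_mod_cast hδ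
  have h1 : 2 * δ ∣ m + 2 * δ - n ↔ 2 * δ ∣ m - n := by
    have : m + 2 * δ - n = (m - n) + 2 * δ := by ring
    rw [this]
    exact dvd_add_self_right
  rw [gw, gw]
  by_cases h : 2 * δ ∣ m - n
  · rw [if_pos h, if_pos (h1.mpr h), q.zpow, ← q.add, ← q.add]
    congr 1
    push_cast
    field_simp
    ring
  · rw [if_neg h, if_neg (fun h2 => h (h1.mp h2)), mul_zero]

open Classical in
/-- indicator -/
def ind (δ x : ℤ) : F := if 2 * δ ∣ x then 1 else 0

theorem gw_mul {δ n m : ℤ} {e e' : ℚ} (h : e - m ^ 2 / (2 * δ) = e') :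
    q.Q e * gw q δ n m = q.Q e' * ind δ (m - n) := by
  rw [gw, ind]
  split_ifs
  · rw [← q.add, mul_one]
    congr 1
    linarith
  · rw [mul_zero, mul_zero]

/-- right hand side for torus nodes -/
def rr0 (p : ℕ) (b : ℤ) (P : ℕ) : ℤ →₀ F :=
  ∑ t ∈ Finset.range P,
    (Finsupp.single ((P : ℤ) * (b * (2 * p * t + 1) + 1 * p)) (q.Q (2 * b * t * (p * t + 1) + (2 * p * t + 1))) -
     Finsupp.single ((P : ℤ) * (b * (2 * p * t + 1) + -1 * p)) (q.Q (2 * b * t * (p * t + 1) - (2 * p * t + 1))) -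
     (Finsupp.single ((P : ℤ) * (b * (2 * p * t + -1) + 1 * p)) (q.Q (2 * b * t * (p * t - 1) + (2 * p * t - 1))) -
     Finsupp.single ((P : ℤ) * (b * (2 * p * t + -1) + -1 * p)) (q.Q (2 * b * t * (p * t - 1) - (2 * p * t - 1)))))

/-- right hand side for nodes with one inner node -/
def rr1 (p : ℕ) (b : ℤ) (P : ℕ) : ℤ →₀ F :=
  ∑ t ∈ Finset.range P,
    (Finsupp.single ((P : ℤ) * b * (2 * p * t + 1)) (q.Q (2 * b * t * (p * t + 1))) -
     Finsupp.single ((P : ℤ) * b * (2 * p * t - 1)) (q.Q (2 * b * t * (p * t - 1))))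

theorem rho_zero (p : ℕ) (b : ℤ) (P : ℕ) : rho q p b P 0 = toR (rr0 q p b P) := by
  rw [rho, rr0, map_sum]
  refine Finset.sum_congr rfl fun t _ => ?_
  simp only [map_sub, toR_single, Nat.cast_zero, sub_zero, zpow_one, Sf]
  have X0 := RatFunc.X_ne_zero (K := F)
  have e1 : (P : ℤ) * (b * (2 * p * t + 1) + 1 * p) = (P : ℤ) * b * (2 * p * t + 1) + p * P := by ring
  have e2 : (P : ℤ) * (b * (2 * p * t + 1) + -1 * p) = (P : ℤ) * b * (2 * p * t + 1) + -(p * P) := by ring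
  have e3 : (P : ℤ) * (b * (2 * p * t + -1) + 1 * p) = (P : ℤ) * b * (2 * p * t - 1) + p * P := by ring
  have e4 : (P : ℤ) * (b * (2 * p * t + -1) + -1 * p) = (P : ℤ) * b * (2 * p * t - 1) + -(p * P) := by ring
  have q1 := q.add (2 * b * t * (p * t + 1)) (2 * p * t + 1)
  have q2 : q.Q (2 * b * t * (p * t + 1) - (2 * p * t + 1)) =
      q.Q (2 * b * t * (p * t + 1)) * q.Q (-(2 * p * t + 1)) := by
    rw [← q.add, sub_eq_add_neg]
  have q3 := q.add (2 * b * t * (p * t - 1)) (2 * p * t - 1)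
  have q4 : q.Q (2 * b * t * (p * t - 1) - (2 * p * t - 1)) =
      q.Q (2 * b * t * (p * t - 1)) * q.Q (-(2 * p * t - 1)) := by
    rw [← q.add, sub_eq_add_neg]
  rw [e1, e2, e3, e4, zpow_add₀ X0, zpow_add₀ X0, zpow_add₀ X0, zpow_add₀ X0, q1, q2, q3, q4]
  have f1 : (2 * ((p * t + 1 : ℤ) : ℚ) - 1) = 2 * p * t + 1 := by push_cast; ring
  have f2 : (1 - 2 * ((p * t + 1 : ℤ) : ℚ)) = -(2 * p * t + 1) := by push_cast; ring
  have f3 : (2 * ((p * t : ℤ) : ℚ) - 1) = 2 * p * t - 1 := by push_cast; ring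
  have f4 : (1 - 2 * ((p * t : ℤ) : ℚ)) = -(2 * p * t - 1) := by push_cast; ring
  rw [f1, f2, f3, f4]
  simp only [map_mul]
  ring

theorem rho_one (p : ℕ) (b : ℤ) (P : ℕ) : rho q p b P 1 = toR (rr1 q p b P) := by
  rw [rho, rr1, map_sum]
  refine Finset.sum_congr rfl fun t _ => ?_
  simp only [map_sub, toR_single, Nat.cast_one, sub_self, zpow_zero, mul_one]

theorem lam_rr0 {p : ℕ} (hp : p ≠ 0) {b : ℤ} (hb : b ≠ 0) {P : ℕ} (hP : P ≠ 0) {δ : ℤ}
    (hδ : (P : ℤ) ^ 2 * (p * b) = δ) (n : ℤ) :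
    lam (gw q δ n) (rr0 q p b P) = q.Q (-(b / (2 * p)) - p / (2 * b)) *
      ∑ t ∈ Finset.range P, (ind δ ((P : ℤ) * (b * (2 * p * t + 1) + 1 * p) - n) -
        ind δ ((P : ℤ) * (b * (2 * p * t + 1) + -1 * p) - n) -
        (ind δ ((P : ℤ) * (b * (2 * p * t + -1) + 1 * p) - n) -
        ind δ ((P : ℤ) * (b * (2 * p * t + -1) + -1 * p) - n))) := by
  have hp' : (p : ℚ) ≠ 0 := by exact_mod_cast hp
  have hb' : (b : ℚ) ≠ 0 := by exact_mod_cast hb
  have hP' : (P : ℚ) ≠ 0 := by exact_mod_cast hP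
  rw [rr0, map_sum, Finset.mul_sum]
  refine Finset.sum_congr rfl fun t _ => ?_
  simp only [map_sub, lam_single]
  subst hδ
  rw [gw_mul q (e' := -(b / (2 * p)) - p / (2 * b)) (by push_cast; field_simp; ring),
    gw_mul q (e' := -(b / (2 * p)) - p / (2 * b)) (by push_cast; field_simp; ring),
    gw_mul q (e' := -(b / (2 * p)) - p / (2 * b)) (by push_cast; field_simp; ring),
    gw_mul q (e' := -(b / (2 * p)) - p / (2 * b)) (by push_cast; field_simp; ring)]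
  ring

theorem lam_rr1 {p : ℕ} (hp : p ≠ 0) {b : ℤ} (hb : b ≠ 0) {P : ℕ} (hP : P ≠ 0) {δ : ℤ}
    (hδ : (P : ℤ) ^ 2 * (p * b) = δ) (n : ℤ) :
    lam (gw q δ n) (rr1 q p b P) = q.Q (-(b / (2 * p))) *
      ∑ t ∈ Finset.range P, (ind δ ((P : ℤ) * b * (2 * p * t + 1) - n) -
        ind δ ((P : ℤ) * b * (2 * p * t - 1) - n)) := by
  have hp' : (p : ℚ) ≠ 0 := by exact_mod_cast hp
  have hb' : (b : ℚ) ≠ 0 := by exact_mod_cast hb
  have hP' : (P : ℚ) ≠ 0 := by exact_mod_cast hP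
  rw [rr1, map_sum, Finset.mul_sum]
  refine Finset.sum_congr rfl fun t _ => ?_
  simp only [map_sub, lam_single]
  subst hδ
  rw [gw_mul q (e' := -(b / (2 * p))) (by push_cast; field_simp; ring),
    gw_mul q (e' := -(b / (2 * p))) (by push_cast; field_simp; ring)]
  ring

theorem ind_neg (δ x : ℤ) : (ind δ (-x) : F) = ind δ x := by
  rw [ind, ind]
  simp only [dvd_neg]

theorem ind_add (δ x y : ℤ) (h : 2 * δ ∣ y) : (ind δ (x + y) : F) = ind δ x := by
  rw [ind, ind]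
  simp only [dvd_add_left h]

/-- torus nodes are even -/
theorem lam_rr0_symm {p : ℕ} (hp : p ≠ 0) {b : ℤ} (hb : b ≠ 0) {P : ℕ} (hP : P ≠ 0) {δ : ℤ}
    (hδ : (P : ℤ) ^ 2 * (p * b) = δ) (n : ℤ) :
    lam (gw q δ n) (rr0 q p b P) = lam (gw q δ (-n)) (rr0 q p b P) := by
  rw [lam_rr0 q hp hb hP hδ, lam_rr0 q hp hb hP hδ]
  congr 1
  simp only [Finset.sum_sub_distrib]
  have key : ∀ e1 e2 : ℤ, ∑ t ∈ Finset.range P,
      (ind δ ((P : ℤ) * (b * (2 * p * t + e1) + e2 * p) - n) : F) = ∑ t ∈ Finset.range P,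
      ind δ ((P : ℤ) * (b * (2 * p * t + -e1) + -e2 * p) - -n) := by
    intro e1 e2
    rw [← sum_neg_periodic P (fun t : ℤ => (ind δ ((P : ℤ) * (b * (2 * p * t + -e1) + -e2 * p) - -n) : F))]
    · refine Finset.sum_congr rfl fun t _ => ?_
      rw [← ind_neg]
      congr 1
      ring
    · intro t
      have : (P : ℤ) * (b * (2 * p * (t + P) + -e1) + -e2 * p) - -n =
          ((P : ℤ) * (b * (2 * p * t + -e1) + -e2 * p) - -n) + 2 * δ := by
        rw [← hδ]; ring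
      rw [this, ind_add _ _ _ (dvd_refl _)]
  have k1 := key 1 1
  have k2 := key 1 (-1)
  have k3 := key (-1) 1
  have k4 := key (-1) (-1)
  simp only [neg_neg] at k2 k3 k4
  rw [k1, k2, k3, k4]
  ring

end

end Pool.Agent.H765.GK
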