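import Mathlib
import Pool.Agent.H765.GK.Rho

/-! Nonvanishing of the obstruction classes. -/

namespace Pool.Agent.H765.GK

open Polynomial

noncomputable section

variable {F : Type*} [Field F] (q : QF F)

theorem ind_of_dvd {δ x : ℤ} (h : 2 * δ ∣ x) : (ind δ x : F) = 1 := by rw [ind, if_pos h]

theorem ind_of_not {δ x : ℤ} (h : ¬ 2 * δ ∣ x) : (ind δ x : F) = 0 := by rw [ind, if_neg h]

theorem lam_rr0_self {p : ℕ} (hp : 2 ≤ p) {b : ℤ} (hb : (p : ℤ) < |b|) {P : ℕ} (hP : 1 ≤ P)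
    {δ : ℤ} (hδ : (P : ℤ) ^ 2 * (p * b) = δ) :
    lam (gw q δ (P * (p + |b|))) (rr0 q p b P) ≠ 0 := by
  have hb0 : b ≠ 0 := by rintro rfl; simp at hb; omega
  have hpz : (2 : ℤ) ≤ p := by exact_mod_cast hp
  have hPz : (1 : ℤ) ≤ P := by exact_mod_cast hP
  rw [lam_rr0 q (by omega) hb0 (by omega) hδ]
  refine mul_ne_zero (q.ne _) ?_
  have key : ∀ t ∈ Finset.range P, ∀ e1 e2 : ℤ, (e1 = 1 ∨ e1 = -1) → (e2 = 1 ∨ e2 = -1) →
      (ind δ ((P : ℤ) * (b * (2 * p * t + e1) + e2 * p) - P * (p + |b|)) : F) =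
        if (e2 = 1 ∧ e1 * b = |b| ∧ t = 0) then 1 else 0 := by
    intro t ht e1 e2 h1 h2
    rw [Finset.mem_range] at ht
    have := torus_self hpz hb hPz (t := t) (by positivity) (by exact_mod_cast ht) h1 h2
    rw [hδ] at this
    rw [ind]
    simp only [this, Nat.cast_eq_zero]
  have e : ∀ t ∈ Finset.range P,
      ((ind δ ((P : ℤ) * (b * (2 * p * t + 1) + 1 * p) - P * (p + |b|)) : F) -
        ind δ ((P : ℤ) * (b * (2 * p * t + 1) + -1 * p) - P * (p + |b|)) -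
        (ind δ ((P : ℤ) * (b * (2 * p * t + -1) + 1 * p) - P * (p + |b|)) -
        ind δ ((P : ℤ) * (b * (2 * p * t + -1) + -1 * p) - P * (p + |b|)))) =
      if t = 0 then (if 0 < b then 1 else -1) else 0 := by
    intro t ht
    rw [key t ht 1 1 (Or.inl rfl) (Or.inl rfl), key t ht 1 (-1) (Or.inl rfl) (Or.inr rfl),
      key t ht (-1) 1 (Or.inr rfl) (Or.inl rfl), key t ht (-1) (-1) (Or.inr rfl) (Or.inr rfl)]
    by_cases ht0 : t = 0
    · rcases lt_or_gt_of_ne hb0 with h | h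
      · have h1 : ¬ (b = |b|) := by rw [abs_of_neg h]; omega
        have h2 : (-1 * b = |b|) := by rw [abs_of_neg h]; ring
        have h3 : ¬ 0 < b := by omega
        rw [one_mul]
        simp [ht0, h1, h2, h3]
      · have h1 : (1 * b = |b|) := by rw [abs_of_pos h]; ring
        have h2 : ¬ (-1 * b = |b|) := by rw [abs_of_pos h]; omega
        simp only [ht0, h1, h2, h]
        simp
    · simp [ht0]
  rw [Finset.sum_congr rfl e, Finset.sum_ite_eq', if_pos (by rw [Finset.mem_range]; omega)]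
  split_ifs
  · exact one_ne_zero
  · exact neg_ne_zero.mpr one_ne_zero

theorem lam_rr0_other {p : ℕ} (hp : 2 ≤ p) {b : ℤ} (hb : (p : ℤ) < |b|)
    (hco : IsCoprime (p : ℤ) b) {P : ℕ} (hP : 1 ≤ P) {p' : ℕ} (hp' : 2 ≤ p') {b' : ℤ}
    (hb' : (p' : ℤ) < |b'|) (hco' : IsCoprime (p' : ℤ) b') {P' : ℕ} (hP' : 1 ≤ P')
    {δ : ℤ} (hδ : (P : ℤ) ^ 2 * (p * b) = δ) (hδ' : (P' : ℤ) ^ 2 * (p' * b') = δ)
    (hle : (p' : ℤ) + |b'| ≤ p + |b|) (hne : ¬ (P' = P ∧ p' = p ∧ b' = b)) :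
    lam (gw q δ (P * (p + |b|))) (rr0 q p' b' P') = 0 := by
  have hb0' : b' ≠ 0 := by rintro rfl; simp at hb'; omega
  have hpz : (2 : ℤ) ≤ p := by exact_mod_cast hp
  have hPz : (1 : ℤ) ≤ P := by exact_mod_cast hP
  have hpz' : (2 : ℤ) ≤ p' := by exact_mod_cast hp'
  have hPz' : (1 : ℤ) ≤ P' := by exact_mod_cast hP'
  rw [lam_rr0 q (by omega) hb0' (by omega) hδ']
  have key : ∀ (t : ℕ) (e1 e2 : ℤ), (e1 = 1 ∨ e1 = -1) → (e2 = 1 ∨ e2 = -1) →
      (ind δ ((P' : ℤ) * (b' * (2 * p' * t + e1) + e2 * p') - P * (p + |b|)) : F) = 0 := by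
    intro t e1 e2 h1 h2
    apply ind_of_not
    intro hdvd
    rw [← hδ] at hdvd
    obtain ⟨x1, x2, x3⟩ := torus_arith hpz hb hco hPz hpz' hb' hco' hPz' (by rw [hδ, hδ'])
      h1 h2 hle hdvd
    exact hne ⟨by exact_mod_cast x1, by exact_mod_cast x2, x3⟩
  rw [Finset.sum_eq_zero, mul_zero]
  intro t _
  rw [key t 1 1 (Or.inl rfl) (Or.inl rfl), key t 1 (-1) (Or.inl rfl) (Or.inr rfl),
      key t (-1) 1 (Or.inr rfl) (Or.inl rfl), key t (-1) (-1) (Or.inr rfl) (Or.inr rfl)]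
  ring

theorem lam_rr1_self [CharZero F] {p : ℕ} (hp : 2 ≤ p) {b : ℤ} (hb : b ≠ 0) {P : ℕ}
    (hP : 1 ≤ P) {δ : ℤ} (hδ : (P : ℤ) ^ 2 * (p * b) = δ) :
    lam (gw q δ (P * b)) (rr1 q p b P) - lam (gw q δ (-(P * b))) (rr1 q p b P) ≠ 0 := by
  have hpz : (2 : ℤ) ≤ p := by exact_mod_cast hp
  have hPz : (1 : ℤ) ≤ P := by exact_mod_cast hP
  rw [lam_rr1 q (by omega) hb (by omega) hδ, lam_rr1 q (by omega) hb (by omega) hδ]
  have hk : ∀ x : ℤ, (2 * δ ∣ (P : ℤ) * b * x ↔ 2 * ((P : ℤ) * p) ∣ x) := by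
    intro x
    rw [← hδ]
    exact one_self hpz hb hPz x
  have i0 : ∀ t ∈ Finset.range P, (ind δ ((P : ℤ) * b * (2 * p * t)) : F) =
      if t = 0 then 1 else 0 := by
    intro t ht
    rw [Finset.mem_range] at ht
    have := one_self_zero hpz hPz (t := t) (by positivity) (by exact_mod_cast ht)
    rw [ind]
    simp only [hk, this, Nat.cast_eq_zero]
  have i1 : ∀ (t : ℕ) (e : ℤ), (e = 1 ∨ e = -1) →
      (ind δ ((P : ℤ) * b * (2 * p * t + 2 * e)) : F) = 0 := by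
    intro t e he
    apply ind_of_not
    rw [hk]
    exact one_self_ne hpz t e he
  have s1 : ∑ t ∈ Finset.range P, ((ind δ ((P : ℤ) * b * (2 * p * t + 1) - P * b) : F) -
        ind δ ((P : ℤ) * b * (2 * p * t - 1) - P * b)) = 1 := by
    have : ∀ t ∈ Finset.range P, ((ind δ ((P : ℤ) * b * (2 * p * t + 1) - P * b) : F) -
        ind δ ((P : ℤ) * b * (2 * p * t - 1) - P * b)) = if t = 0 then 1 else 0 := by
      intro t ht
      have a1 : (P : ℤ) * b * (2 * p * t + 1) - P * b = (P : ℤ) * b * (2 * p * t) := by ring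
      have a2 : (P : ℤ) * b * (2 * p * t - 1) - P * b = (P : ℤ) * b * (2 * p * t + 2 * -1) := by
        ring
      rw [a1, a2, i0 t ht, i1 t (-1) (Or.inr rfl), sub_zero]
    rw [Finset.sum_congr rfl this, Finset.sum_ite_eq', if_pos (by rw [Finset.mem_range]; omega)]
  have s2 : ∑ t ∈ Finset.range P, ((ind δ ((P : ℤ) * b * (2 * p * t + 1) - -(P * b)) : F) -
        ind δ ((P : ℤ) * b * (2 * p * t - 1) - -(P * b))) = -1 := by
    have : ∀ t ∈ Finset.range P, ((ind δ ((P : ℤ) * b * (2 * p * t + 1) - -(P * b)) : F) -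
        ind δ ((P : ℤ) * b * (2 * p * t - 1) - -(P * b))) = if t = 0 then -1 else 0 := by
      intro t ht
      have a1 : (P : ℤ) * b * (2 * p * t + 1) - -(P * b) = (P : ℤ) * b * (2 * p * t + 2 * 1) := by
        ring
      have a2 : (P : ℤ) * b * (2 * p * t - 1) - -(P * b) = (P : ℤ) * b * (2 * p * t) := by ring
      rw [a1, a2, i0 t ht, i1 t 1 (Or.inl rfl)]
      split_ifs <;> ring
    rw [Finset.sum_congr rfl this, Finset.sum_ite_eq', if_pos (by rw [Finset.mem_range]; omega)]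
  rw [s1, s2]
  have : q.Q (-(b / (2 * p))) * 1 - q.Q (-(b / (2 * p))) * -1 = 2 * q.Q (-(b / (2 * p))) := by
    ring
  rw [this]
  exact mul_ne_zero two_ne_zero (q.ne _)

/-- numerator of `Sf` -/
def Wf (P' : ℕ) (r : ℤ) : F[X] :=
  C (q.Q (2 * r - 1)) * X ^ (2 * P') - C (q.Q (1 - 2 * r))

theorem Sf_eq (P' : ℕ) (r : ℤ) : Sf q P' r = algebraMap F[X] (RatFunc F) (Wf q P' r) /
    algebraMap F[X] (RatFunc F) (X ^ P') := by
  have hX : (RatFunc.X : RatFunc F) ≠ 0 := RatFunc.X_ne_zero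
  rw [Sf, Wf, map_sub, map_mul, map_pow, map_pow, RatFunc.algebraMap_C, RatFunc.algebraMap_C,
    RatFunc.algebraMap_X, zpow_neg, zpow_natCast]
  field_simp
  ring

theorem Wf_eval (P' : ℕ) (r : ℤ) (α : F) : (Wf q P' r).eval α =
    q.Q (2 * r - 1) * α ^ (2 * P') - q.Q (1 - 2 * r) := by
  simp [Wf]

theorem Wf_ne {P' : ℕ} (hP' : P' ≠ 0) (r : ℤ) : Wf q P' r ≠ 0 := by
  intro h
  have := congrArg (fun p => coeff p (2 * P')) h
  rw [Wf] at this
  simp only [coeff_sub, coeff_C_mul, coeff_X_pow, if_true, coeff_C, coeff_zero] at this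
  rw [if_neg (by omega), sub_zero, mul_one] at this
  exact q.ne _ this

theorem Sf_ne {P' : ℕ} (hP' : P' ≠ 0) (r : ℤ) : Sf q P' r ≠ 0 := by
  rw [Sf_eq]
  exact div_ne_zero (aM_ne (Wf_ne q hP' r)) (aM_ne (pow_ne_zero _ X_ne_zero))

theorem reg_Sf_inv {P' : ℕ} {r : ℤ} {α : F} (h : (Wf q P' r).eval α ≠ 0) :
    Reg 0 α (Sf q P' r)⁻¹ := by
  refine ⟨X ^ P', Wf q P' r, h, ?_⟩
  rw [Sf_eq, inv_div, pow_zero, map_one, mul_one]

/-- simple zeros -/
theorem Wf_fac [CharZero F] {P' : ℕ} (hP' : P' ≠ 0) (r : ℤ) {α : F} (hα : α ≠ 0)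
    (h : (Wf q P' r).eval α = 0) : ∃ V : F[X], Wf q P' r = (X - C α) * V ∧ V.eval α ≠ 0 := by
  obtain ⟨V, hV⟩ := dvd_iff_isRoot.mpr h
  refine ⟨V, hV, ?_⟩
  have h1 := congrArg (fun p => (derivative p).eval α) hV
  simp only [derivative_mul, eval_add, eval_mul, eval_sub, eval_X, eval_C, sub_self, zero_mul,
    add_zero, derivative_sub, derivative_X, derivative_C, sub_zero, eval_one, one_mul] at h1
  rw [← h1, Wf]
  simp only [derivative_sub, derivative_C_mul, derivative_X_pow, derivative_C, sub_zero, eval_mul,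
    eval_C, eval_pow, eval_X, eval_natCast]
  refine mul_ne_zero (q.ne _) (mul_ne_zero ?_ (pow_ne_zero _ hα))
  exact_mod_cast (by omega : 2 * P' ≠ 0)

theorem reg_Sf_inv_one [CharZero F] {P' : ℕ} (hP' : P' ≠ 0) (r : ℤ) {α : F} (hα : α ≠ 0) :
    Reg 1 α (Sf q P' r)⁻¹ := by
  by_cases h : (Wf q P' r).eval α = 0
  · obtain ⟨V, hV, hV0⟩ := Wf_fac q hP' r hα h
    refine ⟨X ^ P', V, hV0, ?_⟩
    have h1 := aM_ne (ne_of_eval hV0)
    have h2 : algebraMap F[X] (RatFunc F) (X - C α) ≠ 0 := aM_ne (X_sub_C_ne_zero α)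
    rw [Sf_eq, inv_div, pow_one, hV, map_mul]
    field_simp
  · exact (reg_Sf_inv q h).mono (by omega)

theorem not_reg_Sf [CharZero F] {P' : ℕ} (hP' : P' ≠ 0) (r : ℤ) {α : F} (hα : α ≠ 0)
    (h : (Wf q P' r).eval α = 0) (n : ℕ) : ¬ Reg n α ((Sf q P' r)⁻¹ ^ (n + 1)) := by
  rintro ⟨N, D, hD, h1⟩
  obtain ⟨V, hV, hV0⟩ := Wf_fac q hP' r hα h
  have h2 := aM_ne (ne_of_eval hV0)
  have h3 : algebraMap F[X] (RatFunc F) (X - C α) ≠ 0 := aM_ne (X_sub_C_ne_zero α)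
  have h4 := aM_ne (ne_of_eval hD)
  have h5 : X ^ (P' * (n + 1)) * D = N * ((X - C α) * V ^ (n + 1)) := by
    apply aM_inj
    rw [Sf_eq, inv_div, hV, div_pow, map_mul, mul_pow] at h1
    rw [map_mul, map_mul, map_mul, map_pow _ V, pow_mul, map_pow _ (X ^ P')]
    rw [map_pow _ (X - C α), div_mul_eq_mul_div, div_eq_div_iff (mul_ne_zero (pow_ne_zero _ h3)
      (pow_ne_zero _ h2)) h4] at h1
    apply mul_left_cancel₀ (pow_ne_zero n h3)
    rw [pow_succ (algebraMap F[X] (RatFunc F) (X - C α)) n] at h1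
    linear_combination h1
  have h6 := congrArg (eval α) h5
  simp only [eval_mul, eval_pow, eval_X, eval_sub, eval_C, sub_self, zero_mul, mul_zero] at h6
  exact (mul_ne_zero (pow_ne_zero _ hα) hD) h6

theorem zpow_one_sub {K : Type*} [Field K] (x : K) {s : ℕ} (hs : 1 ≤ s) :
    x ^ (1 - (s : ℤ)) = x⁻¹ ^ (s - 1) := by
  rw [← zpow_natCast, inv_zpow', Nat.cast_sub hs]
  congr 1
  push_cast
  ring

/-- general pole bound for `rho` -/
theorem reg_rho [CharZero F] {p P : ℕ} (hp : p ≠ 0) (hP : P ≠ 0) (bh : ℤ) (s : ℕ) {α : F}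
    (hα : α ≠ 0) : Reg (s - 1) α (rho q p bh P s) := by
  have hpP : p * P ≠ 0 := mul_ne_zero hp hP
  have e : ((p * P : ℕ) : ℤ) = (p : ℤ) * P := by push_cast; ring
  rcases Nat.eq_zero_or_pos s with hs | hs
  · subst hs
    rw [rho]
    apply Reg.sum
    intro t _
    rw [sub_eq_add_neg, ← e]
    have hS : ∀ r, Reg 0 α (Sf q ((p * P : ℕ) : ℤ) r ^ (1 - ((0 : ℕ) : ℤ))) := by
      intro r
      rw [Nat.cast_zero, sub_zero, zpow_one, Sf, sub_eq_add_neg]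
      have r1 := (reg_zpow hα ((p * P : ℕ) : ℤ)).C_mul (q.Q (2 * r - 1))
      have r2 := (reg_zpow hα (-((p * P : ℕ) : ℤ))).C_mul (q.Q (1 - 2 * r))
      exact r1.add r2.neg
    have x1 : ∀ (a : F) (m r : ℤ), Reg 0 α (RatFunc.C a * RatFunc.X ^ m *
        Sf q ((p * P : ℕ) : ℤ) r ^ (1 - ((0 : ℕ) : ℤ))) := by
      intro a m r
      rw [mul_assoc]
      exact ((hS r).zpow_mul hα m).C_mul a
    exact (x1 _ _ _).add (x1 _ _ _).neg
  · rw [rho]
    apply Reg.sum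
    intro t _
    rw [sub_eq_add_neg, ← e]
    have hS : ∀ r, Reg (s - 1) α (Sf q ((p * P : ℕ) : ℤ) r ^ (1 - (s : ℤ))) := by
      intro r
      rw [zpow_one_sub _ hs]
      have := (reg_Sf_inv_one q hpP r hα).pow (s - 1)
      rwa [mul_one] at this
    have x1 : ∀ (a : F) (m r : ℤ), Reg (s - 1) α (RatFunc.C a * RatFunc.X ^ m *
        Sf q ((p * P : ℕ) : ℤ) r ^ (1 - (s : ℤ))) := by
      intro a m r
      rw [mul_assoc]
      exact ((hS r).zpow_mul hα m).C_mul a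
    exact (x1 _ _ _).add (x1 _ _ _).neg

theorem Wf_orbit {P' : ℕ} (hP' : P' ≠ 0) (r j : ℤ) :
    (Wf q P' r).eval (q.Q 2 ^ j * q.Q (1 / P')) = 0 ↔ r = -(P' * j) := by
  have hP'' : (P' : ℚ) ≠ 0 := by exact_mod_cast hP'
  rw [Wf_eval, q.zpow, ← q.add, q.pow, ← q.add, sub_eq_zero, q.eq_iff]
  constructor
  · intro h
    have h1 : (r : ℚ) = -(P' * j) := by
      have e : ((2 * P' : ℕ) : ℚ) * (j * 2 + 1 / P') = 4 * P' * j + 2 := by
        push_cast
        field_simp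
        ring
      rw [e] at h
      linarith
    exact_mod_cast h1
  · intro h
    have h1 : (r : ℚ) = -(P' * j) := by exact_mod_cast h
    rw [h1]
    push_cast
    field_simp
    ring

theorem r_ne {p P : ℕ} (hp : 2 ≤ p) {t : ℕ} (ht : t < P) {j : ℤ} :
    (p : ℤ) * t + 1 ≠ -(((p * P : ℕ) : ℤ) * j) ∧
      ((p : ℤ) * t = -(((p * P : ℕ) : ℤ) * j) → t = 0 ∧ j = 0) := by
  have hpz : (2 : ℤ) ≤ p := by exact_mod_cast hp
  have hp0 : (p : ℤ) ≠ 0 := by omega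
  have htz : (t : ℤ) < P := by exact_mod_cast ht
  have ht0 : (0 : ℤ) ≤ t := by positivity
  push_cast
  constructor
  · intro h
    have h1 : (p : ℤ) ∣ 1 := ⟨-(P * j) - t, by linear_combination h⟩
    have := isUnit_of_dvd_one h1
    rw [Int.isUnit_iff] at this
    omega
  · intro h
    have h1 : (t : ℤ) = -(P * j) := mul_left_cancel₀ hp0 (by linear_combination h)
    have h2 : (P : ℤ) ∣ t := ⟨-j, by linear_combination h1⟩
    have h3 : (t : ℤ) = 0 := Int.eq_zero_of_dvd_of_nonneg_of_lt ht0 htz h2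
    refine ⟨by exact_mod_cast h3, ?_⟩
    rw [h3] at h1
    have h4 : (P : ℤ) * j = 0 := by linarith
    rcases mul_eq_zero.mp h4 with h5 | h5
    · omega
    · exact h5

theorem orbit_ne (P' : ℕ) (j : ℤ) : q.Q 2 ^ j * q.Q (1 / P') ≠ 0 :=
  mul_ne_zero (zpow_ne_zero _ (q.ne _)) (q.ne _)

theorem term_reg {p P : ℕ} (s : ℕ) (hs : 1 ≤ s) (bh : ℤ) {α : F} (hα : α ≠ 0) {r : ℤ}
    (h : (Wf q (p * P) r).eval α ≠ 0) (a : F) (m : ℤ) : Reg 0 α (RatFunc.C a * RatFunc.X ^ m *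
      Sf q (p * P) r ^ (1 - (s : ℤ))) := by
  have e : ((p * P : ℕ) : ℤ) = (p : ℤ) * P := by push_cast; ring
  rw [mul_assoc, zpow_one_sub _ hs, ← e]
  have := (reg_Sf_inv q h).pow (s - 1)
  rw [mul_zero] at this
  exact (this.zpow_mul hα m).C_mul a

theorem rho_reg_orbit {p P : ℕ} (hp : 2 ≤ p) (hP : 1 ≤ P) (bh : ℤ) {s : ℕ} (hs : 1 ≤ s)
    {j : ℤ} (hj : j ≠ 0) : Reg 0 (q.Q 2 ^ j * q.Q (1 / ((p * P : ℕ) : ℚ))) (rho q p bh P s) := by
  have hpP : p * P ≠ 0 := mul_ne_zero (by omega) (by omega)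
  have hα := orbit_ne q (p * P) j
  rw [rho]
  apply Reg.sum
  intro t ht
  rw [Finset.mem_range] at ht
  rw [sub_eq_add_neg]
  refine Reg.add ?_ (Reg.neg ?_)
  · apply term_reg q s hs bh hα
    rw [Ne, Wf_orbit q hpP]
    exact (r_ne hp ht).1
  · apply term_reg q s hs bh hα
    rw [Ne, Wf_orbit q hpP]
    intro h
    exact hj ((r_ne hp ht).2 h).2

theorem rho_not_reg [CharZero F] {p P : ℕ} (hp : 2 ≤ p) (hP : 1 ≤ P) (bh : ℤ) (s : ℕ) :
    ¬ Reg s (q.Q (1 / ((p * P : ℕ) : ℚ))) (rho q p bh P (s + 2)) := by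
  have hpP : p * P ≠ 0 := mul_ne_zero (by omega) (by omega)
  have hα := q.ne (1 / ((p * P : ℕ) : ℚ))
  have hα1 : q.Q (1 / ((p * P : ℕ) : ℚ)) = q.Q 2 ^ (0 : ℤ) * q.Q (1 / ((p * P : ℕ) : ℚ)) := by
    rw [zpow_zero, one_mul]
  intro h
  set α := q.Q (1 / ((p * P : ℕ) : ℚ)) with hαdef
  have ez : ((p * P : ℕ) : ℤ) = (p : ℤ) * P := by push_cast; ring
  -- terms
  have hT1 : ∀ t ∈ Finset.range P, Reg s α (RatFunc.C (q.Q (2 * bh * t * (p * t + 1))) *
      RatFunc.X ^ ((P : ℤ) * bh * (2 * p * t + 1)) *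
      Sf q (p * P) (p * t + 1) ^ (1 - ((s + 2 : ℕ) : ℤ))) := by
    intro t ht
    rw [Finset.mem_range] at ht
    refine Reg.mono (n := 0) ?_ (by omega)
    apply term_reg q (s + 2) (by omega) bh hα
    rw [hα1, Ne, Wf_orbit q hpP]
    exact (r_ne hp ht).1
  have hT2 : ∀ t ∈ Finset.range P, t ≠ 0 → Reg s α (RatFunc.C (q.Q (2 * bh * t * (p * t - 1))) *
      RatFunc.X ^ ((P : ℤ) * bh * (2 * p * t - 1)) *
      Sf q (p * P) (p * t) ^ (1 - ((s + 2 : ℕ) : ℤ))) := by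
    intro t ht ht0
    rw [Finset.mem_range] at ht
    refine Reg.mono (n := 0) ?_ (by omega)
    apply term_reg q (s + 2) (by omega) bh hα
    rw [hα1, Ne, Wf_orbit q hpP]
    intro h
    exact ht0 ((r_ne hp ht).2 h).1
  -- isolate
  have h0 : (0 : ℕ) ∈ Finset.range P := by rw [Finset.mem_range]; omega
  have hsum : Reg s α (∑ t ∈ Finset.range P, RatFunc.C (q.Q (2 * bh * t * (p * t - 1))) *
      RatFunc.X ^ ((P : ℤ) * bh * (2 * p * t - 1)) *
      Sf q (p * P) (p * t) ^ (1 - ((s + 2 : ℕ) : ℤ))) := by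
    have h1 := (Reg.sum _ _ hT1).add h.neg
    rw [rho, Finset.sum_sub_distrib] at h1
    convert h1 using 1
    ring
  rw [← Finset.add_sum_erase _ _ h0] at hsum
  have hrest := Reg.sum ((Finset.range P).erase 0) _ (fun t ht =>
    hT2 t (Finset.mem_of_mem_erase ht) (Finset.ne_of_mem_erase ht))
  have hmain := hsum.add hrest.neg
  rw [add_neg_cancel_right] at hmain
  have e0 : (2 * bh * ((0 : ℕ) : ℚ) * (p * ((0 : ℕ) : ℚ) - 1)) = 0 := by push_cast; ring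
  have e1 : (p : ℤ) * ((0 : ℕ) : ℤ) = 0 := by push_cast; ring
  rw [e0, q.zero, map_one, one_mul, e1, zpow_one_sub _ (by omega)] at hmain
  have h2 := hmain.zpow_mul hα (-((P : ℤ) * bh * (2 * p * ((0 : ℕ) : ℤ) - 1)))
  rw [← mul_assoc, ← zpow_add₀ RatFunc.X_ne_zero, neg_add_cancel, zpow_zero, one_mul, ← ez] at h2
  refine not_reg_Sf q hpP 0 hα ?_ s h2
  rw [hα1, Wf_orbit q hpP]
  ring

end

end Pool.Agent.H765.GK
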