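import Mathlib

/-! Algebraic independence of solutions of a triangular system of difference equations. -/

namespace Pool.Agent.H765.GK

open MvPolynomial
open Finsupp (weight single single_zero)

noncomputable section

/-- A triangular system of first order difference equations. -/
structure Sys (σ k : Type*) [Field k] where
  τ0 : k →+* k
  g : σ → k
  M : σ → (σ →₀ ℕ)
  β : σ → k
  B : σ → MvPolynomial σ k
  ω : σ → ℕ
  θ : σ → ℕ
  η : σ → ℕ
  g_ne : ∀ i, g i ≠ 0
  hω : ∀ i, ω i = 1 + weight ω (M i)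
  hθ : ∀ i, θ i = η i + weight θ (M i)
  hη : ∀ i, ∀ j ∈ (M i).support, η j < η i
  hB : ∀ i, ∀ m ∈ (B i).support, weight ω m < weight ω (M i)

namespace Sys

variable {σ k : Type*} [Field k] (S : Sys σ k)

/-- the difference operator on the polynomial ring -/
def T : MvPolynomial σ k →+* MvPolynomial σ k :=
  eval₂Hom (C.comp S.τ0) fun i => C (S.g i) * X i + (monomial (S.M i) (S.β i) + S.B i)

theorem T_C (a : k) : S.T (C a) = C (S.τ0 a) := by simp [T]

theorem T_X (i : σ) : S.T (X i) = C (S.g i) * X i + (monomial (S.M i) (S.β i) + S.B i) := by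
  simp [T]

/-- all monomials of `f` have weight at most `a - c` -/
def Drop (a c : ℕ) (f : MvPolynomial σ k) : Prop := ∀ n ∈ f.support, weight S.ω n + c ≤ a

variable {S}

theorem Drop.add {a c : ℕ} {f f' : MvPolynomial σ k} (h : S.Drop a c f) (h' : S.Drop a c f') :
    S.Drop a c (f + f') := by
  classical
  intro n hn
  rcases Finset.mem_union.mp (support_add hn) with h1 | h1
  · exact h n h1
  · exact h' n h1

theorem Drop.mul {a c a' c' : ℕ} {f f' : MvPolynomial σ k} (h : S.Drop a c f)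
    (h' : S.Drop a' c' f') : S.Drop (a + a') (c + c') (f * f') := by
  classical
  intro n hn
  obtain ⟨x, hx, y, hy, rfl⟩ := Finset.mem_add.mp (support_mul _ _ hn)
  have h1 := h x hx
  have h2 := h' y hy
  rw [map_add]
  omega

theorem Drop.mono {a c c' : ℕ} {f : MvPolynomial σ k} (h : S.Drop a c f) (hc : c' ≤ c) :
    S.Drop a c' f := fun n hn => by have := h n hn; omega

theorem Drop.mono' {a a' c : ℕ} {f : MvPolynomial σ k} (h : S.Drop a c f) (hc : a ≤ a') :
    S.Drop a' c f := fun n hn => by have := h n hn; omega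

theorem Drop.C_mul {a c : ℕ} {f : MvPolynomial σ k} (r : k) (h : S.Drop a c f) :
    S.Drop a c (C r * f) := by
  intro n hn
  apply h n
  rw [mem_support_iff] at hn ⊢
  rw [coeff_C_mul] at hn
  exact right_ne_zero_of_mul hn

theorem Drop.zero {a c : ℕ} : S.Drop a c 0 := by
  intro n hn
  simp at hn

theorem Drop.sum {ι : Type*} {a c : ℕ} (s : Finset ι) (f : ι → MvPolynomial σ k)
    (h : ∀ i ∈ s, S.Drop a c (f i)) : S.Drop a c (∑ i ∈ s, f i) := by
  classical
  induction s using Finset.induction_on with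
  | empty => simpa using Drop.zero
  | insert i s hi ih =>
    rw [Finset.sum_insert hi]
    exact (h i (by simp)).add (ih fun j hj => h j (by simp [hj]))

theorem Drop.coeff_eq_zero {a c : ℕ} {f : MvPolynomial σ k} (h : S.Drop a c f) {n : σ →₀ ℕ}
    (hn : a < weight S.ω n + c) : coeff n f = 0 := by
  by_contra h0
  have := h n (mem_support_iff.mpr h0)
  omega

theorem drop_monomial (m : σ →₀ ℕ) (r : k) : S.Drop (weight S.ω m) 0 (monomial m r) := by
  classical
  intro n hn
  have := support_monomial_subset hn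
  rw [Finset.mem_singleton] at this
  rw [this, Nat.add_zero]

theorem drop_C (r : k) : S.Drop 0 0 (C r : MvPolynomial σ k) := by
  have := drop_monomial (S := S) (0 : σ →₀ ℕ) r
  rwa [map_zero] at this

variable (S)

/-- the leading part of the non-diagonal part of `T` -/
def d : Derivation k (MvPolynomial σ k) (MvPolynomial σ k) :=
  mkDerivation k fun i => monomial (S.M i) ((S.g i)⁻¹ * S.β i)

theorem d_X (i : σ) : S.d (X i) = monomial (S.M i) ((S.g i)⁻¹ * S.β i) := mkDerivation_X _ _ _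

/-- the multiplier of a monomial -/
def gm (m : σ →₀ ℕ) : k := m.prod fun i e => S.g i ^ e

theorem gm_zero : S.gm 0 = 1 := by simp [gm]

theorem gm_add (m n : σ →₀ ℕ) : S.gm (m + n) = S.gm m * S.gm n :=
  Finsupp.prod_add_index' (fun _ => pow_zero _) fun _ _ _ => pow_add _ _ _

theorem gm_single (i : σ) : S.gm (single i 1) = S.g i := by
  simp [gm, Finsupp.prod_single_index]

theorem gm_ne (m : σ →₀ ℕ) : S.gm m ≠ 0 :=
  Finset.prod_ne_zero_iff.mpr fun i _ => pow_ne_zero _ (S.g_ne i)

/-- the expansion of `T` on monomials up to weight drop two -/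
def Exp2 (m : σ →₀ ℕ) : Prop := S.Drop (weight S.ω m) 1 (S.d (monomial m 1)) ∧
    ∃ L, S.Drop (weight S.ω m) 2 L ∧
      S.T (monomial m 1) = C (S.gm m) * (monomial m 1 + S.d (monomial m 1)) + L

theorem exp2_zero : S.Exp2 0 := by
  have h1 : (monomial (0 : σ →₀ ℕ) (1 : k)) = 1 := rfl
  rw [Exp2, h1, S.d.map_one_eq_zero]
  refine ⟨Drop.zero, 0, Drop.zero, ?_⟩
  simp [gm_zero]

theorem exp2_one (i : σ) : S.Exp2 (single i 1) := by
  have h1 : (monomial (single i 1) (1 : k)) = X i := rfl
  have hw : weight S.ω (single i 1) = S.ω i := by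
    rw [Finsupp.weight_single, one_smul]
  rw [Exp2, h1, d_X, hw]
  refine ⟨?_, S.B i, ?_, ?_⟩
  · have h2 := drop_monomial (S := S) (S.M i) ((S.g i)⁻¹ * S.β i)
    intro n hn
    have := h2 n hn
    have := S.hω i
    omega
  · intro n hn
    have := S.hB i n hn
    have := S.hω i
    omega
  · rw [T_X, gm_single, mul_add, C_mul_monomial, mul_inv_cancel_left₀ (S.g_ne i)]
    ring

theorem Exp2.add {m n : σ →₀ ℕ} (hm : S.Exp2 m) (hn : S.Exp2 n) : S.Exp2 (m + n) := by
  obtain ⟨hm1, L, hL, hmT⟩ := hm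
  obtain ⟨hn1, L', hL', hnT⟩ := hn
  have h1 : (monomial (m + n) (1 : k)) = monomial m 1 * monomial n 1 := by
    rw [monomial_mul, one_mul]
  have hd : S.d (monomial (m + n) 1) =
      monomial m 1 * S.d (monomial n 1) + monomial n 1 * S.d (monomial m 1) := by
    rw [h1, S.d.leibniz, smul_eq_mul, smul_eq_mul]
  have am := drop_monomial (S := S) m 1
  have an := drop_monomial (S := S) n 1
  have cz : ∀ r : k, S.Drop 0 0 (C r : MvPolynomial σ k) := drop_C
  rw [Exp2, hd, map_add]
  constructor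
  · refine Drop.add ?_ ?_
    · exact am.mul hn1
    · have := an.mul hm1
      rw [add_comm (weight S.ω n)] at this
      exact this
  · refine ⟨C (S.gm m * S.gm n) * (S.d (monomial m 1) * S.d (monomial n 1)) +
      (C (S.gm m) * ((monomial m 1 + S.d (monomial m 1)) * L') +
      (C (S.gm n) * (L * (monomial n 1 + S.d (monomial n 1))) + L * L')), ?_, ?_⟩
    · refine Drop.add (Drop.C_mul _ (hm1.mul hn1)) (Drop.add (Drop.C_mul _ ?_)
        (Drop.add (Drop.C_mul _ ?_) ?_))
      · exact (am.add (hm1.mono (by omega))).mul hL'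
      · exact hL.mul (an.add (hn1.mono (by omega)))
      · exact (hL.mul hL').mono (by omega)
    · rw [h1, map_mul, hmT, hnT, gm_add, map_mul]
      ring

theorem exp2 (m : σ →₀ ℕ) : S.Exp2 m := by
  induction m using Finsupp.induction_linear with
  | zero => exact S.exp2_zero
  | add m n hm hn => exact Exp2.add S hm hn
  | single i e =>
    induction e with
    | zero => rw [single_zero]; exact S.exp2_zero
    | succ e ih =>
      rw [Finsupp.single_add]
      exact Exp2.add S ih (S.exp2_one i)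

theorem T_eq_sum (Φ : MvPolynomial σ k) :
    S.T Φ = ∑ m ∈ Φ.support, C (S.τ0 (coeff m Φ)) * S.T (monomial m 1) := by
  conv_lhs => rw [Φ.as_sum]
  rw [map_sum]
  refine Finset.sum_congr rfl fun m _ => ?_
  have : (monomial m (coeff m Φ)) = C (coeff m Φ) * monomial m 1 := by
    rw [C_mul_monomial, mul_one]
  rw [this, map_mul, T_C]

theorem coeff_T (Φ : MvPolynomial σ k) (n : σ →₀ ℕ) :
    coeff n (S.T Φ) = ∑ m ∈ Φ.support, S.τ0 (coeff m Φ) * coeff n (S.T (monomial m 1)) := by
  rw [T_eq_sum, coeff_sum]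
  exact Finset.sum_congr rfl fun m _ => coeff_C_mul _ _ _

/-- weight bound -/
def Le (Ω : ℕ) (Φ : MvPolynomial σ k) : Prop := ∀ m ∈ Φ.support, weight S.ω m ≤ Ω

open Classical in
theorem coeff_T_mono {m n : σ →₀ ℕ} {Ω : ℕ} (hm : weight S.ω m ≤ Ω)
    (hn : Ω ≤ weight S.ω n + 1) :
    coeff n (S.T (monomial m 1)) = S.gm m * ((if m = n then 1 else 0) +
      coeff n (S.d (monomial m 1))) := by
  obtain ⟨h1, L, hL, hT⟩ := S.exp2 m
  rw [hT, coeff_add, coeff_C_mul, coeff_add, coeff_monomial, hL.coeff_eq_zero (by omega),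
    add_zero]

theorem coeff_T_top {Φ : MvPolynomial σ k} {Ω : ℕ} (h : S.Le Ω Φ) {n : σ →₀ ℕ}
    (hn : Ω ≤ weight S.ω n) : coeff n (S.T Φ) = S.τ0 (coeff n Φ) * S.gm n := by
  classical
  rw [coeff_T]
  have key : ∀ m ∈ Φ.support, S.τ0 (coeff m Φ) * coeff n (S.T (monomial m 1)) =
      if m = n then S.τ0 (coeff n Φ) * S.gm n else 0 := by
    intro m hm
    have hm' := h m hm
    rw [S.coeff_T_mono hm' (by omega), (S.exp2 m).1.coeff_eq_zero (by omega), add_zero]
    split_ifs with h1
    · rw [h1, mul_one]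
    · rw [mul_zero, mul_zero]
  rw [Finset.sum_congr rfl key, Finset.sum_ite_eq']
  split_ifs with h1
  · rfl
  · rw [notMem_support_iff.mp h1, map_zero, zero_mul]

theorem coeff_T_next {Φ : MvPolynomial σ k} {u : k} {n : σ →₀ ℕ}
    (h : S.Le (weight S.ω n + 1) Φ)
    (hu : ∀ m ∈ Φ.support, weight S.ω m = weight S.ω n + 1 →
      S.τ0 (coeff m Φ) * S.gm m = u * coeff m Φ) :
    coeff n (S.T Φ) = S.τ0 (coeff n Φ) * S.gm n + u * coeff n (S.d Φ) := by
  classical
  rw [coeff_T]
  have key : ∀ m ∈ Φ.support, S.τ0 (coeff m Φ) * coeff n (S.T (monomial m 1)) =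
      (if m = n then S.τ0 (coeff n Φ) * S.gm n else 0) +
        u * coeff n (S.d (monomial m (coeff m Φ))) := by
    intro m hm
    have hm' := h m hm
    have e1 : S.d (monomial m (coeff m Φ)) = C (coeff m Φ) * S.d (monomial m 1) := by
      have : (monomial m (coeff m Φ)) = (coeff m Φ) • (monomial m (1 : k)) := by
        rw [smul_monomial, smul_eq_mul, mul_one]
      rw [this, S.d.map_smul, smul_eq_C_mul]
    rw [S.coeff_T_mono hm' (by omega), e1, coeff_C_mul]
    by_cases h1 : m = n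
    · subst h1
      rw [(S.exp2 m).1.coeff_eq_zero (by omega), if_pos rfl, if_pos rfl]
      ring
    · rw [if_neg h1, if_neg h1, zero_add, zero_add]
      by_cases h2 : weight S.ω m = weight S.ω n + 1
      · rw [← mul_assoc, hu m hm h2]
        ring
      · rw [(S.exp2 m).1.coeff_eq_zero (by omega)]
        ring
  rw [Finset.sum_congr rfl key, Finset.sum_add_distrib, Finset.sum_ite_eq', ← Finset.mul_sum,
    ← coeff_sum, ← map_sum, ← Φ.as_sum]
  congr 1
  split_ifs with h1
  · rfl
  · rw [notMem_support_iff.mp h1, map_zero, zero_mul]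

theorem sum_apply_aux (s : Finset σ) (f : σ → MvPolynomial σ k) (x : MvPolynomial σ k) :
    (∑ i ∈ s, f i • (pderiv i : Derivation k (MvPolynomial σ k) (MvPolynomial σ k))) x =
      ∑ i ∈ s, f i * pderiv i x := by
  classical
  induction s using Finset.induction_on with
  | empty => simp
  | insert i s hi ih =>
    rw [Finset.sum_insert hi, Finset.sum_insert hi, Derivation.add_apply, ih,
      Derivation.smul_apply, smul_eq_mul]

theorem d_eq_sum (Φ : MvPolynomial σ k) :
    S.d Φ = ∑ i ∈ Φ.vars, monomial (S.M i) ((S.g i)⁻¹ * S.β i) * pderiv i Φ := by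
  classical
  have h : ∀ f : MvPolynomial σ k, f ∈ supported k (Φ.vars : Set σ) → S.d f =
      ∑ i ∈ Φ.vars, monomial (S.M i) ((S.g i)⁻¹ * S.β i) * pderiv i f := by
    intro f hf
    have := derivation_eqOn_supported (D₁ := S.d)
      (D₂ := ∑ i ∈ Φ.vars, (monomial (S.M i) ((S.g i)⁻¹ * S.β i) : MvPolynomial σ k) •
        (pderiv i : Derivation k (MvPolynomial σ k) (MvPolynomial σ k)))
      (s := (Φ.vars : Set σ)) (by
        intro j hj
        change S.d (X j) = _
        rw [Function.comp_apply, sum_apply_aux, d_X, Finset.sum_eq_single j]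
        · rw [pderiv_X_self, mul_one]
        · intro i _ hij
          rw [pderiv_X_of_ne hij.symm, mul_zero]
        · intro h; exact absurd hj h) hf
    rw [this, sum_apply_aux]
  apply h
  rw [mem_supported]

/-- the coefficient with which the variable `i` enters at the monomial `n` -/
def cf (Φ : MvPolynomial σ k) (n : σ →₀ ℕ) (i : σ) : k := by
  classical
  exact if S.M i ≤ n then coeff (n - S.M i + single i 1) Φ * ((n - S.M i) i + 1) else 0

theorem coeff_d (Φ : MvPolynomial σ k) (n : σ →₀ ℕ) :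
    coeff n (S.d Φ) = ∑ i ∈ Φ.vars, S.cf Φ n i * (S.g i)⁻¹ * S.β i := by
  classical
  rw [d_eq_sum, coeff_sum]
  refine Finset.sum_congr rfl fun i _ => ?_
  rw [coeff_monomial_mul', cf]
  split_ifs with h1
  · rw [coeff_pderiv]
    ring
  · ring

/-- The obstruction condition for the coefficients of the system. -/
def Obs : Prop := ∀ (v : σ) (s : Finset σ) (c : σ → k) (ψ u : k), v ∈ s → c v ≠ 0 → u ≠ 0 →
  (∀ i ∈ s, c i ≠ 0 → S.η i ≤ S.η v ∧ S.M i ≤ S.M v) →
  (∀ i ∈ s, S.τ0 (c i) * (S.g i * (S.gm (S.M i))⁻¹) = u * c i) →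
  S.τ0 ψ - u * ψ ≠ -(u * ∑ i ∈ s, c i * (S.g i)⁻¹ * S.β i)

variable {S}

theorem no_semiinv [CharZero k] (hO : S.Obs) {Φ : MvPolynomial σ k} {u : k} (hu : u ≠ 0)
    {Ω : ℕ} (hΩ : S.Le (Ω + 1) Φ) (hex : ∃ m ∈ Φ.support, weight S.ω m = Ω + 1)
    (hT : S.T Φ = C u * Φ) : False := by
  classical
  have htop : ∀ m, weight S.ω m = Ω + 1 → S.τ0 (coeff m Φ) * S.gm m = u * coeff m Φ := by
    intro m hm
    rw [← S.coeff_T_top hΩ (n := m) (by omega), hT, coeff_C_mul]
  -- choose the top monomial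
  obtain ⟨m, hm, hmax⟩ := Finset.exists_max_image
    (Φ.support.filter fun m => weight S.ω m = Ω + 1) (fun m => weight S.θ m)
    (by obtain ⟨m, h1, h2⟩ := hex; exact ⟨m, Finset.mem_filter.mpr ⟨h1, h2⟩⟩)
  rw [Finset.mem_filter] at hm
  obtain ⟨hmΦ, hmw⟩ := hm
  have hm0 : m ≠ 0 := by
    rintro rfl
    rw [map_zero] at hmw
    omega
  obtain ⟨v, hv, hvmin⟩ := Finset.exists_min_image m.support S.η
    (Finsupp.support_nonempty_iff.mpr hm0)
  have hv1 : single v 1 ≤ m := by
    rw [Finsupp.single_le_iff]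
    exact Nat.one_le_iff_ne_zero.mpr (Finsupp.mem_support_iff.mp hv)
  obtain ⟨m', hm'⟩ : ∃ m', m = m' + single v 1 := ⟨m - single v 1, (tsub_add_cancel_of_le hv1).symm⟩
  set n : σ →₀ ℕ := m' + S.M v with hn
  have wn : weight S.ω n + 1 = Ω + 1 := by
    rw [← hmw, hm', hn, map_add, map_add, Finsupp.weight_single, one_smul, S.hω v]
    ring
  have hc := congrArg (coeff n) hT
  rw [S.coeff_T_next (Φ := Φ) (u := u) (n := n) (by rw [wn]; exact hΩ)
    (fun m _ h => htop m (by omega)), coeff_C_mul, coeff_d] at hc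
  have gn := S.gm_ne n
  -- the main source
  have hcv : S.cf Φ n v ≠ 0 := by
    rw [cf, if_pos (by rw [hn]; exact le_add_self), hn, add_tsub_cancel_right, ← hm']
    refine mul_ne_zero (MvPolynomial.mem_support_iff.mp hmΦ) ?_
    exact Nat.cast_add_one_ne_zero _
  have hvv : v ∈ Φ.vars := by
    rw [mem_vars_iff_mem_support]
    exact ⟨m, hmΦ, hv⟩
  -- sources
  have hsrc : ∀ i, S.cf Φ n i ≠ 0 → S.M i ≤ n ∧ n - S.M i + single i 1 ∈ Φ.support := by
    intro i hi
    rw [cf] at hi
    split_ifs at hi with h1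
    · exact ⟨h1, MvPolynomial.mem_support_iff.mpr (left_ne_zero_of_mul hi)⟩
    · exact absurd rfl hi
  have hsw : ∀ i, S.M i ≤ n → weight S.ω (n - S.M i + single i 1) = Ω + 1 := by
    intro i hi
    have h1 : weight S.ω (n - S.M i) + weight S.ω (S.M i) = weight S.ω n := by
      rw [← map_add, tsub_add_cancel_of_le hi]
    rw [map_add, Finsupp.weight_single, one_smul, S.hω i]
    omega
  refine hO v Φ.vars (S.cf Φ n) (coeff n Φ) (u / S.gm n) hvv hcv (div_ne_zero hu gn) ?_ ?_ ?_
  · intro i _ hi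
    obtain ⟨h1, h2⟩ := hsrc i hi
    have h3 := hmax _ (Finset.mem_filter.mpr ⟨h2, hsw i h1⟩)
    have h4 : weight S.θ (n - S.M i) + weight S.θ (S.M i) = weight S.θ n := by
      rw [← map_add, tsub_add_cancel_of_le h1]
    have h5 : weight S.θ n = weight S.θ m' + weight S.θ (S.M v) := by rw [hn, map_add]
    have h6 : weight S.θ m = weight S.θ m' + S.θ v := by
      rw [hm', map_add, Finsupp.weight_single, one_smul]
    rw [map_add, Finsupp.weight_single, one_smul, S.hθ i] at h3
    have h7 := S.hθ v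
    have hle : S.η i ≤ S.η v := by omega
    refine ⟨hle, ?_⟩
    intro j
    by_cases hj : S.M i j = 0
    · rw [hj]; exact Nat.zero_le _
    · have h8 := S.hη i j (Finsupp.mem_support_iff.mpr hj)
      have h9 : m j = 0 := by
        by_contra h10
        have := hvmin j (Finsupp.mem_support_iff.mpr h10)
        omega
      have h11 : m' j = 0 := by
        have := congrArg (fun f => f j) hm'
        simp only [Finsupp.add_apply] at this
        omega
      have h12 := h1 j
      rw [hn, Finsupp.add_apply, h11, zero_add] at h12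
      exact h12
  · intro i _
    by_cases hi : S.cf Φ n i = 0
    · rw [hi, map_zero, zero_mul, mul_zero]
    · obtain ⟨h1, h2⟩ := hsrc i hi
      have h3 := htop _ (hsw i h1)
      have h4 : S.gm (n - S.M i) * S.gm (S.M i) = S.gm n := by
        rw [← gm_add, tsub_add_cancel_of_le h1]
      rw [gm_add, gm_single] at h3
      have g1 := S.gm_ne (S.M i)
      have h5 : S.gm (n - S.M i) = S.gm n * (S.gm (S.M i))⁻¹ := by
        rw [← h4, mul_inv_cancel_right₀ g1]
      rw [h5] at h3
      rw [cf, if_pos h1, map_mul, map_add, map_natCast, map_one, div_mul_eq_mul_div, eq_div_iff gn]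
      linear_combination (((n - S.M i) i : k) + 1) * h3
  · have e1 : S.τ0 (coeff n Φ) = (u * coeff n Φ - u * ∑ i ∈ Φ.vars, S.cf Φ n i * (S.g i)⁻¹ * S.β i) /
        S.gm n := by
      rw [eq_div_iff gn]
      linear_combination hc
    rw [e1]
    ring

theorem eq_zero_of_weight_zero {m : σ →₀ ℕ} (h : weight S.ω m = 0) : m = 0 := by
  by_contra h0
  obtain ⟨i, hi⟩ := Finsupp.support_nonempty_iff.mpr h0
  have h1 := Finsupp.le_weight_of_ne_zero' (w := S.ω) (Finsupp.mem_support_iff.mp hi)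
  have h2 := S.hω i
  omega

/-- Solutions of the system in a difference ring are algebraically independent. -/
theorem ev_injective [CharZero k] (hO : S.Obs) {A : Type*} [CommRing A] [Nontrivial A]
    (ev : MvPolynomial σ k →+* A) (sh : A →+* A) (h : ∀ Φ, sh (ev Φ) = ev (S.T Φ)) :
    Function.Injective ev := by
  classical
  rw [injective_iff_map_eq_zero]
  by_contra hcon
  push Not at hcon
  obtain ⟨Φ0, hΦ0, hΦ0'⟩ := hcon
  have ex1 : ∃ Ω, ∃ Φ, Φ ≠ 0 ∧ ev Φ = 0 ∧ S.Le Ω Φ :=
    ⟨Φ0.support.sup (weight S.ω), Φ0, hΦ0', hΦ0, fun m hm => Finset.le_sup hm⟩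
  obtain ⟨Ω, hΩ⟩ : ∃ Ω, Ω = Nat.find ex1 := ⟨_, rfl⟩
  have hmin : ∀ Φ, Φ ≠ 0 → ev Φ = 0 → S.Le Ω Φ → ∃ m ∈ Φ.support, weight S.ω m = Ω := by
    intro Φ h1 h2 h3
    by_contra h4
    push Not at h4
    rcases Nat.eq_zero_or_pos Ω with h5 | h5
    · obtain ⟨m, hm⟩ := MvPolynomial.support_nonempty.mpr h1
      have := h3 m hm
      exact h4 m hm (by omega)
    · have := Nat.find_min' ex1 (m := Ω - 1) ⟨Φ, h1, h2, fun m hm => by
        have := h3 m hm
        have := h4 m hm
        omega⟩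
      omega
  have ex2 : ∃ N, ∃ Φ, Φ ≠ 0 ∧ ev Φ = 0 ∧ S.Le Ω Φ ∧
      (Φ.support.filter fun m => weight S.ω m = Ω).card = N := by
    obtain ⟨Φ, h1, h2, h3⟩ := Nat.find_spec ex1
    exact ⟨_, Φ, h1, h2, by rw [hΩ]; exact h3, rfl⟩
  obtain ⟨Φ, h1, h2, h3, h4⟩ := Nat.find_spec ex2
  obtain ⟨m0, hm0, hw0⟩ := hmin Φ h1 h2 h3
  have hφ0 : coeff m0 Φ ≠ 0 := MvPolynomial.mem_support_iff.mp hm0
  obtain ⟨u, hu⟩ : ∃ u, u = S.τ0 (coeff m0 Φ) * S.gm m0 / coeff m0 Φ := ⟨_, rfl⟩
  have hu0 : u ≠ 0 := by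
    rw [hu]
    refine div_ne_zero (mul_ne_zero ?_ (S.gm_ne _)) hφ0
    rw [Ne, map_eq_zero]
    exact hφ0
  have hco : ∀ n, Ω ≤ weight S.ω n →
      coeff n (S.T Φ - C u * Φ) = S.τ0 (coeff n Φ) * S.gm n - u * coeff n Φ := by
    intro n hn
    rw [coeff_sub, coeff_C_mul, S.coeff_T_top h3 hn]
  have hsemi : S.T Φ - C u * Φ = 0 := by
    by_contra h5
    have h6 : S.Le Ω (S.T Φ - C u * Φ) := by
      intro n hn
      by_contra h7
      rw [MvPolynomial.mem_support_iff, hco n (by omega)] at hn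
      have h8 : coeff n Φ = 0 := by
        by_contra h9
        exact h7 (h3 n (MvPolynomial.mem_support_iff.mpr h9))
      rw [h8, map_zero, zero_mul, mul_zero, sub_zero] at hn
      exact hn rfl
    have h7 := Nat.find_min' ex2 ⟨_, h5, by rw [map_sub, ← h, map_mul, h2, map_zero, mul_zero,
      sub_zero], h6, rfl⟩
    have h8 : ((S.T Φ - C u * Φ).support.filter fun m => weight S.ω m = Ω) ⊂
        (Φ.support.filter fun m => weight S.ω m = Ω) := by
      rw [Finset.ssubset_iff_of_subset]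
      · refine ⟨m0, Finset.mem_filter.mpr ⟨hm0, hw0⟩, ?_⟩
        intro h9
        have h10 := MvPolynomial.mem_support_iff.mp (Finset.mem_filter.mp h9).1
        apply h10
        rw [hco m0 hw0.ge, hu, div_mul_cancel₀ _ hφ0, sub_self]
      · intro n hn
        rw [Finset.mem_filter] at hn ⊢
        refine ⟨?_, hn.2⟩
        rw [MvPolynomial.mem_support_iff]
        intro h9
        apply MvPolynomial.mem_support_iff.mp hn.1
        rw [hco n hn.2.ge, h9, map_zero, zero_mul, mul_zero, sub_zero]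
    have h9 := Finset.card_lt_card h8
    omega
  rcases Nat.eq_zero_or_pos Ω with h5 | h5
  · have h6 : Φ = C (coeff 0 Φ) := by
      ext n
      rw [coeff_C]
      split_ifs with h7
      · rw [← h7]
      · by_contra h8
        apply h7
        have := h3 n (MvPolynomial.mem_support_iff.mpr h8)
        exact (eq_zero_of_weight_zero (S := S) (by omega)).symm
    have h7 : coeff 0 Φ ≠ 0 := by
      intro h8
      rw [h8, C_0] at h6
      exact h1 h6
    have h8 : ev (C ((coeff 0 Φ)⁻¹) * Φ) = 1 := by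
      conv_lhs => rw [h6]
      rw [← C_mul, coeff_C, if_pos rfl, inv_mul_cancel₀ h7, C_1, map_one]
    rw [map_mul, h2, mul_zero] at h8
    exact zero_ne_one h8
  · obtain ⟨Ω', rfl⟩ : ∃ Ω', Ω = Ω' + 1 := ⟨Ω - 1, by omega⟩
    exact no_semiinv hO hu0 h3 ⟨m0, hm0, hw0⟩ (sub_eq_zero.mp hsemi)

end Sys

end

end Pool.Agent.H765.GK
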