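import Mathlib
import Pool.Agent.H765.GK.Obstr
import Pool.Agent.H765.GK.SemiInv

/-! The obstruction condition for systems with the parameters of cabling. -/

namespace Pool.Agent.H765.GK

open Polynomial

noncomputable section

variable {F : Type*} [Field F] (q : QF F)

/-- monomials -/
def mn (e : ℚ) (m : ℤ) : RatFunc F := RatFunc.C (q.Q e) * RatFunc.X ^ m

theorem mn_mul (e e' : ℚ) (m m' : ℤ) : mn q e m * mn q e' m' = mn q (e + e') (m + m') := by
  rw [mn, mn, mn, q.add, zpow_add₀ RatFunc.X_ne_zero, map_mul]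
  ring

theorem mn_zero : mn q 0 0 = 1 := by
  rw [mn, q.zero, map_one, one_mul, zpow_zero]

theorem mn_ne (e : ℚ) (m : ℤ) : mn q e m ≠ 0 := by
  refine mul_ne_zero ?_ (zpow_ne_zero _ RatFunc.X_ne_zero)
  rw [Ne, map_eq_zero]
  exact q.ne _

theorem mn_inv (e : ℚ) (m : ℤ) : (mn q e m)⁻¹ = mn q (-e) (-m) := by
  apply inv_eq_of_mul_eq_one_right
  rw [mn_mul, add_neg_cancel, add_neg_cancel, mn_zero]

theorem X_zpow_eq (m : ℤ) : (RatFunc.X ^ m : RatFunc F) = mn q 0 m := by
  rw [mn, q.zero, map_one, one_mul]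

theorem sc_mn (e : ℚ) (m : ℤ) : sc (q.Q 2) (q.ne 2) (mn q e m) = mn q (e + 2 * m) m := by
  rw [mn, map_mul, sc_C, sc_zpow, q.zpow, mn, q.add, map_mul, mul_comm (2 : ℚ)]
  ring

/-- cabling parameters of a system -/
structure Par {σ : Type*} (S : Sys σ (RatFunc F)) where
  p : σ → ℕ
  b : σ → ℤ
  P : σ → ℕ
  s : σ → ℕ
  A : σ → ℤ
  hτ : S.τ0 = sc (q.Q 2) (q.ne 2)
  hp : ∀ i, 2 ≤ p i
  hP : ∀ i, 1 ≤ P i
  hb : ∀ i, IsCoprime (p i : ℤ) (b i)
  hM : ∀ i, s i ≠ 0 → S.M i ≠ 0
  hA : ∀ i, s i = 0 → A i = 0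
  hM0 : ∀ i, s i = 0 → S.M i = 0
  htb : ∀ i, s i = 0 → (p i : ℤ) < |b i|
  hg : ∀ i, S.g i = mn q (-(2 * (p i * b i) * P i * (P i - 1))) (-(2 * (p i * b i * P i ^ 2)))
  hgm : ∀ i, S.gm (S.M i) = mn q (-(2 * A i * (p i * P i) * (p i * P i - 1)))
    (-(2 * (A i * (p i * P i) ^ 2)))
  hβ : ∀ i, S.β i = S.g i * RatFunc.X ^ ((P i : ℤ) * p i * (b i - A i)) *
    rho q (p i) (b i - A i * p i) (P i) (s i)
  hMM : ∀ i j, S.M i ≤ S.M j → s i ≠ 0 →
    (P i : ℤ) ^ 2 * (p i * (b i - A i * p i)) = (P j : ℤ) ^ 2 * (p j * (b j - A j * p j)) →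
    i = j ∨ s i < s j
  htor : ∀ i j, s i = 0 → s j = 0 → P i = P j → p i = p j → b i = b j → i = j
  hη : ∀ i, s i = 0 → S.η i = 1 + p i + (b i).natAbs

theorem toR_smul (a : F) (φ : ℤ →₀ F) : toR (a • φ) = RatFunc.C a * toR φ := by
  induction φ using Finsupp.induction_linear with
  | zero => simp
  | add f g hf hg => rw [smul_add, map_add, map_add, hf, hg]; ring
  | single m b =>
    rw [Finsupp.smul_single, toR_single, toR_single, smul_eq_mul, map_mul]
    ring

theorem lam_smul (w : ℤ → F) (a : F) (φ : ℤ →₀ F) : lam w (a • φ) = a * lam w φ := by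
  induction φ using Finsupp.induction_linear with
  | zero => simp
  | add f g hf hg => rw [smul_add, map_add, map_add, hf, hg]; ring
  | single m b =>
    rw [Finsupp.smul_single, lam_single, lam_single, smul_eq_mul]
    ring

variable {q}

theorem Par.obs [CharZero F] {σ : Type*} {S : Sys σ (RatFunc F)} (D : Par q S) : S.Obs := by
  classical
  intro v J c ψ u hv hcv hu hcond hhom heq
  -- notation
  obtain ⟨δ, hδ⟩ : ∃ δ : σ → ℤ, ∀ i, δ i = (D.P i : ℤ) ^ 2 * (D.p i * (D.b i - D.A i * D.p i)) :=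
    ⟨_, fun i => rfl⟩
  obtain ⟨ν, hν⟩ : ∃ ν : σ → ℤ, ∀ i, ν i = (D.P i : ℤ) * D.p i * (D.b i - D.A i) :=
    ⟨_, fun i => rfl⟩
  have hbh : ∀ i, D.b i - D.A i * D.p i ≠ 0 := by
    intro i h
    have h1 : D.b i = D.A i * D.p i := by linarith
    have h2 := D.hb i
    rw [h1, IsCoprime.mul_right_iff] at h2
    have h3 := isCoprime_self.mp h2.2
    rw [Int.isUnit_iff] at h3
    have := D.hp i
    omega
  have hδ0 : ∀ i, δ i ≠ 0 := by
    intro i
    rw [hδ]
    have h1 := D.hp i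
    have h2 := D.hP i
    exact mul_ne_zero (pow_ne_zero _ (by omega)) (mul_ne_zero (by omega) (hbh i))
  have hG : ∀ i, S.g i * (S.gm (S.M i))⁻¹ = mn q (-(2 * δ i) + 2 * ν i) (-(2 * δ i)) := by
    intro i
    rw [D.hg, D.hgm, mn_inv, mn_mul]
    congr 1
    · rw [hδ, hν]; push_cast; ring
    · rw [hδ]; ring
  -- step 1
  have step1 : ∀ i ∈ J, ∃ a : F, c i = c v * (RatFunc.C a * RatFunc.X ^ (ν v - ν i)) ∧
      (a ≠ 0 → δ i = δ v ∧ S.η i ≤ S.η v ∧ S.M i ≤ S.M v) := by
    intro i hi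
    by_cases hci : c i = 0
    · exact ⟨0, by rw [hci, map_zero, zero_mul, mul_zero], fun h => absurd rfl h⟩
    obtain ⟨hη, hMi⟩ := hcond i hi hci
    have h1 := hhom i hi
    have h2 := hhom v hv
    rw [hG, D.hτ] at h1 h2
    have hτv : sc (q.Q 2) (q.ne 2) (c v) ≠ 0 := by rwa [Ne, map_eq_zero]
    have m1 := mn_ne q (-(2 * δ i) + 2 * ν i) (-(2 * δ i))
    have m2 := mn_ne q (-(2 * δ v) + 2 * ν v) (-(2 * δ v))
    have h3 : sc (q.Q 2) (q.ne 2) (c i / c v) =
        mn q (-(2 * δ v) + 2 * ν v + -(-(2 * δ i) + 2 * ν i)) (-(2 * δ v) + -(-(2 * δ i))) *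
          (c i / c v) := by
      rw [map_div₀, ← mn_mul, ← mn_inv]
      have e1 : sc (q.Q 2) (q.ne 2) (c i) = u * c i * (mn q (-(2 * δ i) + 2 * ν i) (-(2 * δ i)))⁻¹ := by
        rw [← h1, mul_inv_cancel_right₀ m1]
      have e2 : sc (q.Q 2) (q.ne 2) (c v) = u * c v * (mn q (-(2 * δ v) + 2 * ν v) (-(2 * δ v)))⁻¹ := by
        rw [← h2, mul_inv_cancel_right₀ m2]
      rw [e1, e2]
      field_simp
    rw [mn] at h3
    obtain ⟨h4, a, j, h5, h6⟩ := hom_sol (q.ne 2) q.root (div_ne_zero hci hcv) (q.ne _) h3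
    rw [q.zpow, q.eq_iff] at h6
    have h7 : δ i = δ v := by omega
    have h8 : j = ν v - ν i := by
      have : (j : ℚ) = ν v - ν i := by rw [h7] at h6; linarith
      exact_mod_cast this
    refine ⟨a, ?_, fun _ => ⟨h7, hη, hMi⟩⟩
    rw [← h8, ← h5, mul_div_cancel₀ _ hcv]
  choose! a ha using step1
  have hav : a v = 1 := by
    have h1 := (ha v hv).1
    rw [sub_self, zpow_zero, mul_one] at h1
    have h2 : RatFunc.C (a v) = 1 := by
      apply mul_left_cancel₀ hcv
      rw [← h1, mul_one]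
    rw [← map_one RatFunc.C] at h2
    exact (RatFunc.C : F →+* RatFunc F).injective h2
  -- step 2: the reduced equation
  obtain ⟨χ, hχ⟩ : ∃ χ : RatFunc F, ψ = -(χ * (c v * mn q 0 (ν v))) :=
    ⟨-(ψ / (c v * mn q 0 (ν v))), by
      rw [neg_mul, neg_neg, div_mul_cancel₀ _ (mul_ne_zero hcv (mn_ne q _ _))]⟩
  have hred : RatFunc.C (q.Q (2 * δ v)) * RatFunc.X ^ (2 * δ v) * sc (q.Q 2) (q.ne 2) χ - χ =
      ∑ i ∈ J, RatFunc.C (a i) * rho q (D.p i) (D.b i - D.A i * D.p i) (D.P i) (D.s i) := by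
    have h2 := hhom v hv
    rw [hG, D.hτ] at h2
    have m2 := mn_ne q (-(2 * δ v) + 2 * ν v) (-(2 * δ v))
    have e2 : sc (q.Q 2) (q.ne 2) (c v) = u * c v * mn q (2 * δ v + -(2 * ν v)) (2 * δ v) := by
      have : mn q (2 * δ v + -(2 * ν v)) (2 * δ v) =
          (mn q (-(2 * δ v) + 2 * ν v) (-(2 * δ v)))⁻¹ := by
        rw [mn_inv]; congr 1 <;> ring
      rw [this, ← h2, mul_inv_cancel_right₀ m2]
    have e3 : ∑ i ∈ J, c i * (S.g i)⁻¹ * S.β i = c v * mn q 0 (ν v) *
        ∑ i ∈ J, RatFunc.C (a i) * rho q (D.p i) (D.b i - D.A i * D.p i) (D.P i) (D.s i) := by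
      rw [Finset.mul_sum]
      refine Finset.sum_congr rfl fun i hi => ?_
      rw [D.hβ, ← hν, (ha i hi).1, ← X_zpow_eq]
      have e4 : (RatFunc.X ^ ν v : RatFunc F) = RatFunc.X ^ (ν v - ν i) * RatFunc.X ^ ν i := by
        rw [← zpow_add₀ RatFunc.X_ne_zero, sub_add_cancel]
      rw [e4]
      have := S.g_ne i
      field_simp
    rw [e3, hχ, D.hτ, map_neg, map_mul, map_mul, e2, sc_mn] at heq
    have e5 : mn q (2 * δ v + -(2 * ν v)) (2 * δ v) * mn q (0 + 2 * ν v) (ν v) =
        mn q (2 * δ v) (2 * δ v) * mn q 0 (ν v) := by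
      rw [mn_mul, mn_mul]; congr 1; ring
    have hne : -(u * (c v * mn q 0 (ν v))) ≠ 0 :=
      neg_ne_zero.mpr (mul_ne_zero hu (mul_ne_zero hcv (mn_ne q _ _)))
    apply mul_left_cancel₀ hne
    rw [← mn]
    have e6 : -(u * (c v * mn q 0 (ν v))) *
        (mn q (2 * δ v) (2 * δ v) * sc (q.Q 2) (q.ne 2) χ - χ) =
        -(sc (q.Q 2) (q.ne 2) χ * (u * c v * mn q (2 * δ v + -(2 * ν v)) (2 * δ v) *
          mn q (0 + 2 * ν v) (ν v))) - u * -(χ * (c v * mn q 0 (ν v))) := by
      rw [mul_assoc (u * c v), e5]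
      ring
    rw [e6, heq]
    ring
  -- step 3
  have hs1 : ∀ i ∈ J, a i ≠ 0 → i ≠ v → D.s i = 0 ∨ D.s i < D.s v := by
    intro i hi hai hiv
    obtain ⟨h1, h2, h3⟩ := (ha i hi).2 hai
    rw [or_iff_not_imp_left]
    intro h4
    rcases D.hMM i v h3 h4 (by rw [← hδ, ← hδ, h1]) with h5 | h5
    · exact absurd h5 hiv
    · exact h5
  have hpv := D.hp v
  have hPv := D.hP v
  rcases Nat.lt_or_ge (D.s v) 2 with hsv | hsv
  · -- Laurent polynomial case
    have hrr : ∀ i ∈ J, RatFunc.C (a i) * rho q (D.p i) (D.b i - D.A i * D.p i) (D.P i) (D.s i) =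
        toR (a i • (if D.s i = 0 then rr0 q (D.p i) (D.b i) (D.P i) else
          rr1 q (D.p i) (D.b i - D.A i * D.p i) (D.P i))) := by
      intro i hi
      by_cases hai : a i = 0
      · rw [hai, map_zero, zero_mul, zero_smul, map_zero]
      rw [toR_smul]
      split_ifs with h0
      · rw [h0, D.hA i h0, zero_mul, sub_zero, rho_zero]
      · have h1 : D.s i = 1 := by
          by_cases hiv : i = v
          · subst hiv; omega
          · rcases hs1 i hi hai hiv with h | h <;> omega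
        rw [h1, rho_one]
    rw [Finset.sum_congr rfl hrr, ← map_sum] at hred
    rcases Nat.eq_zero_or_pos (D.s v) with hs0 | hs0
    · -- torus node
      have hlam := lam_eq_zero (q.ne 2) q.root (q.ne _) hred
        (gw q (δ v) (D.P v * (D.p v + |D.b v|))) (gw_rec q (hδ0 v) _)
      rw [map_sum, Finset.sum_eq_single v] at hlam
      · rw [lam_smul, hav, one_mul, if_pos hs0] at hlam
        refine lam_rr0_self q hpv (D.htb v hs0) hPv ?_ hlam
        rw [hδ, D.hA v hs0, zero_mul, sub_zero]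
      · intro i hi hiv
        rw [lam_smul]
        by_cases hai : a i = 0
        · rw [hai, zero_mul]
        obtain ⟨h1, h2, h3⟩ := (ha i hi).2 hai
        have hsi : D.s i = 0 := by
          rcases hs1 i hi hai hiv with h | h <;> omega
        rw [if_pos hsi, lam_rr0_other q hpv (D.htb v hs0) (D.hb v) hPv (D.hp i) (D.htb i hsi)
          (D.hb i) (D.hP i), mul_zero]
        · rw [hδ, D.hA v hs0, zero_mul, sub_zero]
        · rw [← h1, hδ, D.hA i hsi, zero_mul, sub_zero]
        · rw [D.hη i hsi, D.hη v hs0] at h2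
          have e1 : |D.b i| = ((D.b i).natAbs : ℤ) := Int.abs_eq_natAbs _
          have e2 : |D.b v| = ((D.b v).natAbs : ℤ) := Int.abs_eq_natAbs _
          rw [e1, e2]
          omega
        · rintro ⟨x1, x2, x3⟩
          exact hiv (D.htor i v hsi hs0 x1 x2 x3)
      · intro h
        exact absurd hv h
    · -- one inner node
      have hsv1 : D.s v = 1 := by omega
      have hw : ∀ m, q.Q (2 * δ v) * q.Q 2 ^ m *
          ((gw q (δ v) (D.P v * (D.b v - D.A v * D.p v)) (m + 2 * δ v) : F) -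
            gw q (δ v) (-(D.P v * (D.b v - D.A v * D.p v))) (m + 2 * δ v)) =
          gw q (δ v) (D.P v * (D.b v - D.A v * D.p v)) m -
            gw q (δ v) (-(D.P v * (D.b v - D.A v * D.p v))) m := by
        intro m
        rw [mul_sub, gw_rec q (hδ0 v), gw_rec q (hδ0 v)]
      have hlam := lam_eq_zero (q.ne 2) q.root (q.ne _) hred
        (fun m => gw q (δ v) (D.P v * (D.b v - D.A v * D.p v)) m -
            gw q (δ v) (-(D.P v * (D.b v - D.A v * D.p v))) m) hw
      have hsub : ∀ (w w' : ℤ → F) (φ : ℤ →₀ F),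
          lam (fun m => w m - w' m) φ = lam w φ - lam w' φ := by
        intro w w' φ
        induction φ using Finsupp.induction_linear with
        | zero => simp
        | add f g hf hg => rw [map_add, map_add, map_add, hf, hg]; ring
        | single m b => rw [lam_single, lam_single, lam_single]; ring
      rw [hsub, map_sum, map_sum, ← Finset.sum_sub_distrib, Finset.sum_eq_single v] at hlam
      · rw [lam_smul, lam_smul, hav, one_mul, one_mul, if_neg (by omega)] at hlam
        exact lam_rr1_self q hpv (hbh v) hPv (hδ v).symm hlam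
      · intro i hi hiv
        rw [lam_smul, lam_smul]
        by_cases hai : a i = 0
        · rw [hai, zero_mul, zero_mul, sub_zero]
        obtain ⟨h1, h2, h3⟩ := (ha i hi).2 hai
        have hsi : D.s i = 0 := by
          rcases hs1 i hi hai hiv with h | h <;> omega
        rw [if_pos hsi]
        have hbi : D.b i ≠ 0 := by
          have := hbh i
          rwa [D.hA i hsi, zero_mul, sub_zero] at this
        have hpi := D.hp i
        have hPi := D.hP i
        rw [← lam_rr0_symm q (by omega) hbi (by omega) (by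
          rw [← h1, hδ, D.hA i hsi, zero_mul, sub_zero]), sub_self]
      · intro h
        exact absurd hv h
  · -- poles
    obtain ⟨s, hs⟩ : ∃ s, D.s v = s + 2 := ⟨D.s v - 2, by omega⟩
    have hα := q.ne (1 / ((D.p v * D.P v : ℕ) : ℚ))
    have hothers : ∀ (α : F), α ≠ 0 → ∀ i ∈ J, i ≠ v →
        Reg s α (RatFunc.C (a i) * rho q (D.p i) (D.b i - D.A i * D.p i) (D.P i) (D.s i)) := by
      intro α hα i hi hiv
      by_cases hai : a i = 0
      · rw [hai, map_zero, zero_mul]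
        exact reg_zero _ _
      have hpi := D.hp i
      have hPi := D.hP i
      refine Reg.C_mul _ (Reg.mono (reg_rho q (by omega) (by omega) _ _ hα) ?_)
      rcases hs1 i hi hai hiv with h | h <;> omega
    have h1 := reg_of_orbit (n := s) (q.ne 2) q.root hα (q.ne _) hred (by
      intro j hj
      apply Reg.sum
      intro i hi
      by_cases hiv : i = v
      · subst hiv
        exact Reg.C_mul _ ((rho_reg_orbit q hpv hPv _ (by omega) hj).mono (Nat.zero_le _))
      · exact hothers _ (orbit_ne q _ j) i hi hiv)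
    rw [← Finset.add_sum_erase _ _ hv] at h1
    have h2 : Reg s (q.Q (1 / ((D.p v * D.P v : ℕ) : ℚ))) (∑ i ∈ J.erase v,
        RatFunc.C (a i) * rho q (D.p i) (D.b i - D.A i * D.p i) (D.P i) (D.s i)) := by
      apply Reg.sum
      intro i hi
      exact hothers _ hα i (Finset.mem_of_mem_erase hi) (Finset.ne_of_mem_erase hi)
    have h3 := h1.add h2.neg
    rw [add_neg_cancel_right, hav, map_one, one_mul, hs] at h3
    exact rho_not_reg q hpv hPv _ s h3

end

end Pool.Agent.H765.GK
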