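import Mathlib

/-! Trees describing graph knots, up to permutation of summands. -/

namespace Pool.Agent.H765.GK

/-- `cons p b C R` is the connected sum of the `(p, b)`-cable of `C` with `R` -/
inductive Tr : Type
  | nil : Tr
  | cons (p : ℕ) (b : ℤ) (C R : Tr) : Tr

namespace Tr

/-- admissible trees in normal form -/
def Val : Tr → Prop
  | nil => True
  | cons p b C R => 2 ≤ p ∧ IsCoprime (p : ℤ) b ∧ (C = nil → (p : ℤ) < |b|) ∧ Val C ∧ Val R

/-- the multiset of prime summands -/
def code : Tr → Multiset ℕ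
  | nil => 0
  | cons p b C R => Encodable.encode (p, b, code C) ::ₘ code R

/-- number of cablings -/
def wt : Tr → ℕ
  | nil => 0
  | cons _ _ C R => 1 + wt C + wt R

/-- size -/
def sz : Tr → ℕ
  | nil => 0
  | cons p b C R => (1 + p + b.natAbs + sz C) + sz R

/-- total size of subtrees -/
def th : Tr → ℕ
  | nil => 0
  | cons p b C R => ((1 + p + b.natAbs + sz C) + th C) + th R

/-- sum of slopes -/
def As : Tr → ℤ
  | nil => 0
  | cons p b _ R => p * b + As R

theorem code_eq_zero {K : Tr} : K.code = 0 ↔ K = nil := by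
  cases K with
  | nil => simp [code]
  | cons p b C R => simp [code]

/-- permutation of summands at all levels -/
inductive Perm : Tr → Tr → Prop
  | nil : Perm nil nil
  | cons (p : ℕ) (b : ℤ) {C C' R R' : Tr} : Perm C C' → Perm R R' →
      Perm (cons p b C R) (cons p b C' R')
  | swap (p : ℕ) (b : ℤ) (p' : ℕ) (b' : ℤ) (C C' R : Tr) :
      Perm (cons p b C (cons p' b' C' R)) (cons p' b' C' (cons p b C R))
  | trans {K L M : Tr} : Perm K L → Perm L M → Perm K M

theorem Perm.refl (K : Tr) : Perm K K := by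
  induction K with
  | nil => exact Perm.nil
  | cons p b C R hC hR => exact Perm.cons p b hC hR

theorem Perm.symm {K L : Tr} (h : Perm K L) : Perm L K := by
  induction h with
  | nil => exact Perm.nil
  | cons p b _ _ h1 h2 => exact Perm.cons p b h1 h2
  | swap p b p' b' C C' R => exact Perm.swap p' b' p b C' C R
  | trans _ _ h1 h2 => exact h2.trans h1

theorem exists_perm_of_mem {K : Tr} {c : ℕ} (h : c ∈ K.code) :
    ∃ p b C R, c = Encodable.encode (p, b, C.code) ∧ Perm K (cons p b C R) ∧
      K.code = c ::ₘ R.code := by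
  induction K with
  | nil => simp [code] at h
  | cons p b C R hC hR =>
    rw [code, Multiset.mem_cons] at h
    rcases h with h | h
    · exact ⟨p, b, C, R, h, Perm.refl _, by rw [code, h]⟩
    · obtain ⟨p', b', C', R', h1, h2, h3⟩ := hR h
      refine ⟨p', b', C', cons p b C R', h1, ?_, ?_⟩
      · exact (Perm.cons p b (Perm.refl C) h2).trans (Perm.swap _ _ _ _ _ _ _)
      · rw [code, code, h3, Multiset.cons_swap]

theorem enc_inj {p p' : ℕ} {b b' : ℤ} {m m' : Multiset ℕ}
    (h : Encodable.encode (p, b, m) = Encodable.encode (p', b', m')) :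
    p = p' ∧ b = b' ∧ m = m' := by
  have := Encodable.encode_injective h
  simp only [Prod.mk.injEq] at this
  exact this

theorem perm_of_code {K K' : Tr} (h : K.code = K'.code) : Perm K K' := by
  induction K generalizing K' with
  | nil =>
    rw [code, eq_comm, code_eq_zero] at h
    rw [h]
    exact Perm.nil
  | cons p b C R hC hR =>
    rw [code] at h
    have hm : Encodable.encode (p, b, C.code) ∈ K'.code := by
      rw [← h]; exact Multiset.mem_cons_self _ _
    obtain ⟨p', b', C', R', h1, h2, h3⟩ := exists_perm_of_mem hm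
    obtain ⟨rfl, rfl, h4⟩ := enc_inj h1
    rw [h3] at h
    have h5 := (Multiset.cons_inj_right _).mp h
    exact (Perm.cons p b (hC h4) (hR h5)).trans h2.symm

theorem Perm.val {K L : Tr} (h : Perm K L) : Val K → Val L := by
  have key : ∀ {K L : Tr}, Perm K L → (K = Tr.nil ↔ L = Tr.nil) := by
    intro K L h
    induction h with
    | nil => exact Iff.rfl
    | cons p b _ _ _ _ => simp
    | swap p b p' b' C C' R => simp
    | trans _ _ h1 h2 => exact h1.trans h2
  induction h with
  | nil => exact id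
  | cons p b h1 h2 h3 h4 =>
    rintro ⟨a1, a2, a3, a4, a5⟩
    exact ⟨a1, a2, fun h => a3 ((key h1).mpr h), h3 a4, h4 a5⟩
  | swap p b p' b' C C' R =>
    rintro ⟨a1, a2, a3, a4, c1, c2, c3, c4, c5⟩
    exact ⟨c1, c2, c3, c4, a1, a2, a3, a4, c5⟩
  | trans _ _ h1 h2 => exact fun h => h2 (h1 h)

theorem Perm.wt {K L : Tr} (h : Perm K L) : K.wt = L.wt := by
  induction h with
  | nil => rfl
  | cons p b _ _ h1 h2 => rw [Tr.wt, Tr.wt, h1, h2]
  | swap p b p' b' C C' R => simp only [Tr.wt]; ring
  | trans _ _ h1 h2 => exact h1.trans h2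

theorem Perm.sz {K L : Tr} (h : Perm K L) : K.sz = L.sz := by
  induction h with
  | nil => rfl
  | cons p b _ _ h1 h2 => rw [Tr.sz, Tr.sz, h1, h2]
  | swap p b p' b' C C' R => simp only [Tr.sz]; ring
  | trans _ _ h1 h2 => exact h1.trans h2

theorem Perm.th {K L : Tr} (h : Perm K L) : K.th = L.th := by
  induction h with
  | nil => rfl
  | cons p b h3 _ h1 h2 => rw [Tr.th, Tr.th, h1, h2, h3.sz]
  | swap p b p' b' C C' R => simp only [Tr.th]; ring
  | trans _ _ h1 h2 => exact h1.trans h2

theorem Perm.As {K L : Tr} (h : Perm K L) : K.As = L.As := by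
  induction h with
  | nil => rfl
  | cons p b _ _ h1 h2 => rw [Tr.As, Tr.As, h2]
  | swap p b p' b' C C' R => simp only [Tr.As]; ring
  | trans _ _ h1 h2 => exact h1.trans h2

theorem sz_mem {K : Tr} {p : ℕ} {b : ℤ} {C : Tr} (h : Encodable.encode (p, b, C.code) ∈ K.code) :
    1 + p + b.natAbs + C.sz ≤ K.sz := by
  obtain ⟨p', b', C', R', h1, h2, h3⟩ := exists_perm_of_mem h
  obtain ⟨rfl, rfl, h4⟩ := enc_inj h1
  rw [h2.sz, sz, (perm_of_code h4).sz]
  omega

theorem Val.nil_right {p : ℕ} {b : ℤ} {C R : Tr} (h : Val (cons p b C R)) :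
    Val (cons p b C nil) := ⟨h.1, h.2.1, h.2.2.1, h.2.2.2.1, trivial⟩

theorem Val.comp {p : ℕ} {b : ℤ} {C R : Tr} (h : Val (cons p b C R)) : Val C := h.2.2.2.1

theorem Val.tail {p : ℕ} {b : ℤ} {C R : Tr} (h : Val (cons p b C R)) : Val R := h.2.2.2.2

end Tr

end Pool.Agent.H765.GK
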