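import Mathlib
import Pool.Agent.H765.GK.Tree
import Pool.Agent.H765.GK.Par

/-! The system of difference equations of graph knots. -/

namespace Pool.Agent.H765.GK

open Tr MvPolynomial
open Finsupp (weight single)

noncomputable section

/-- nodes: codes of prime graph knots with a scaling factor -/
def Nd : Type := {w : ℕ × ℕ // ∃ (p : ℕ) (b : ℤ) (C : Tr), Val (cons p b C nil) ∧
  w.1 = Encodable.encode (p, b, C.code) ∧ 1 ≤ w.2}

namespace Nd

/-- the node of a tree -/
def of (p : ℕ) (b : ℤ) (C : Tr) (h : Val (cons p b C nil)) (P : ℕ) (hP : 1 ≤ P) : Nd :=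
  ⟨(Encodable.encode (p, b, C.code), P), p, b, C, h, rfl, hP⟩

def p (w : Nd) : ℕ := w.2.choose
def b (w : Nd) : ℤ := w.2.choose_spec.choose
def C (w : Nd) : Tr := w.2.choose_spec.choose_spec.choose
def P (w : Nd) : ℕ := w.1.2

theorem val (w : Nd) : Val (cons w.p w.b w.C nil) :=
  w.2.choose_spec.choose_spec.choose_spec.1

theorem enc (w : Nd) : w.1.1 = Encodable.encode (w.p, w.b, w.C.code) :=
  w.2.choose_spec.choose_spec.choose_spec.2.1

theorem hP (w : Nd) : 1 ≤ w.P := w.2.choose_spec.choose_spec.choose_spec.2.2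

theorem ext' {w w' : Nd} (h : w.1.1 = w'.1.1) (h' : w.P = w'.P) : w = w' :=
  Subtype.ext (Prod.ext h h')

theorem ext {w w' : Nd} (h1 : w.p = w'.p) (h2 : w.b = w'.b) (h3 : w.C.code = w'.C.code)
    (h4 : w.P = w'.P) : w = w' := by
  apply ext' _ h4
  rw [w.enc, w'.enc, h1, h2, h3]

theorem of_spec (p : ℕ) (b : ℤ) (C : Tr) (h : Val (cons p b C nil)) (P : ℕ) (hP : 1 ≤ P) :
    (of p b C h P hP).p = p ∧ (of p b C h P hP).b = b ∧ (of p b C h P hP).C.code = C.code := by
  have h1 := (of p b C h P hP).enc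
  obtain ⟨h2, h3, h4⟩ := enc_inj h1
  exact ⟨h2.symm, h3.symm, h4.symm⟩

end Nd

/-- the monomial of a tree -/
def nodes : (K : Tr) → Val K → (P : ℕ) → 1 ≤ P → (Nd →₀ ℕ)
  | nil, _, _, _ => 0
  | cons p b C R, h, P, hP => single (Nd.of p b C h.nil_right P hP) 1 + nodes R h.tail P hP

theorem nodes_apply (K : Tr) (h : Val K) (P : ℕ) (hP : 1 ≤ P) (w : Nd) :
    nodes K h P hP w = if w.P = P then K.code.count w.1.1 else 0 := by
  classical
  induction K with
  | nil => simp [nodes, code]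
  | cons p b C R hC hR =>
    rw [nodes, Finsupp.add_apply, hR h.tail, code, Multiset.count_cons, Finsupp.single_apply]
    by_cases hw : w.P = P
    · have : (Nd.of p b C h.nil_right P hP = w) ↔ w.1.1 = Encodable.encode (p, b, C.code) := by
        constructor
        · rintro rfl; rfl
        · intro h1
          exact Nd.ext' h1.symm hw.symm
      simp only [hw, if_true, this]
      ring
    · rw [if_neg hw, if_neg hw, if_neg]
      rintro rfl
      exact hw rfl

theorem exists_node {K : Tr} (h : Val K) {P : ℕ} (hP : 1 ≤ P) {c : ℕ} (hc : c ∈ K.code) :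
    ∃ w : Nd, w.1.1 = c ∧ w.P = P := by
  obtain ⟨p, b, C, R, h1, h2, h3⟩ := exists_perm_of_mem hc
  exact ⟨Nd.of p b C (h2.val h).nil_right P hP, h1.symm, rfl⟩

theorem nodes_le {K K' : Tr} {h : Val K} {h' : Val K'} {P P' : ℕ} {hP : 1 ≤ P} {hP' : 1 ≤ P'}
    (hne : K.code ≠ 0) (hle : nodes K h P hP ≤ nodes K' h' P' hP') :
    P = P' ∧ K.code ≤ K'.code := by
  classical
  obtain ⟨c, hc⟩ := Multiset.exists_mem_of_ne_zero hne
  have hPP : P = P' := by
    obtain ⟨w, hw1, hw2⟩ := exists_node h hP hc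
    have h1 := hle w
    rw [nodes_apply, nodes_apply, if_pos hw2] at h1
    by_contra h2
    rw [if_neg (by rw [hw2]; exact h2), hw1] at h1
    have := Multiset.count_pos.mpr hc
    omega
  refine ⟨hPP, ?_⟩
  rw [Multiset.le_iff_count]
  intro c
  by_cases hc : c ∈ K.code
  · obtain ⟨w, hw1, hw2⟩ := exists_node h hP hc
    have h1 := hle w
    rw [nodes_apply, nodes_apply, if_pos hw2, if_pos (by rw [hw2, hPP]), hw1] at h1
    exact h1
  · rw [Multiset.count_eq_zero_of_notMem hc]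
    exact Nat.zero_le _

theorem nodes_eq_of_code {K K' : Tr} {h : Val K} {h' : Val K'} {P : ℕ} {hP : 1 ≤ P}
    (hc : K.code = K'.code) : nodes K h P hP = nodes K' h' P hP := by
  ext w
  rw [nodes_apply, nodes_apply, hc]

theorem nodes_eq_zero {K : Tr} {h : Val K} {P : ℕ} {hP : 1 ≤ P} :
    nodes K h P hP = 0 ↔ K.code = 0 := by
  constructor
  · intro h0
    by_contra h1
    have h2 := nodes_le (h' := trivial) (K' := nil) (hP' := hP) h1 (h := h) (hP := hP) (by
      rw [h0]; exact zero_le)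
    have h3 := h2.2
    rw [code] at h3
    exact h1 (Multiset.le_zero.mp h3)
  · intro h0
    rw [code_eq_zero] at h0
    subst h0
    rfl

/-- weights of nodes -/
def wN (w : Nd) : ℕ := 1 + w.C.wt

/-- sizes of nodes -/
def eN (w : Nd) : ℕ := 1 + w.p + w.b.natAbs + w.C.sz

/-- total sizes of nodes -/
def tN (w : Nd) : ℕ := eN w + w.C.th

theorem wN_of (p : ℕ) (b : ℤ) (C : Tr) (h : Val (cons p b C nil)) (P : ℕ) (hP : 1 ≤ P) :
    wN (Nd.of p b C h P hP) = 1 + C.wt := by
  rw [wN, (perm_of_code (Nd.of_spec p b C h P hP).2.2).wt]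

theorem eN_of (p : ℕ) (b : ℤ) (C : Tr) (h : Val (cons p b C nil)) (P : ℕ) (hP : 1 ≤ P) :
    eN (Nd.of p b C h P hP) = 1 + p + b.natAbs + C.sz := by
  obtain ⟨h1, h2, h3⟩ := Nd.of_spec p b C h P hP
  rw [eN, h1, h2, (perm_of_code h3).sz]

theorem tN_of (p : ℕ) (b : ℤ) (C : Tr) (h : Val (cons p b C nil)) (P : ℕ) (hP : 1 ≤ P) :
    tN (Nd.of p b C h P hP) = 1 + p + b.natAbs + C.sz + C.th := by
  rw [tN, eN_of, (perm_of_code (Nd.of_spec p b C h P hP).2.2).th]

theorem weight_wN (K : Tr) (h : Val K) (P : ℕ) (hP : 1 ≤ P) :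
    weight wN (nodes K h P hP) = K.wt := by
  induction K with
  | nil => simp [nodes, wt]
  | cons p b C R hC hR =>
    rw [nodes, map_add, hR, Finsupp.weight_single, one_smul, wN_of, wt]

theorem weight_tN (K : Tr) (h : Val K) (P : ℕ) (hP : 1 ≤ P) :
    weight tN (nodes K h P hP) = K.th := by
  induction K with
  | nil => simp [nodes, th]
  | cons p b C R hC hR =>
    rw [nodes, map_add, hR, Finsupp.weight_single, one_smul, tN_of, th]

theorem hPP (w : Nd) : 1 ≤ w.p * w.P := by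
  have h1 := w.val.1
  have h2 := w.hP
  exact Nat.mul_pos (by omega) h2

/-- inner nodes -/
def MN (w : Nd) : Nd →₀ ℕ := nodes w.C w.val.comp (w.p * w.P) (hPP w)

theorem eN_lt (w : Nd) : ∀ j ∈ (MN w).support, eN j < eN w := by
  classical
  intro j hj
  rw [Finsupp.mem_support_iff, MN, nodes_apply] at hj
  split_ifs at hj with h1
  · have h2 : j.1.1 ∈ w.C.code := by
      rw [← Multiset.count_pos]; omega
    rw [j.enc] at h2
    have h3 := sz_mem h2
    rw [eN, eN]
    omega
  · exact absurd rfl hj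

variable {F : Type*} [Field F] (q : QF F)

/-- multipliers -/
def gN (w : Nd) : RatFunc F :=
  mn q (-(2 * (w.p * w.b) * w.P * (w.P - 1))) (-(2 * (w.p * w.b * w.P ^ 2)))

/-- leading coefficients -/
def bN (w : Nd) : RatFunc F :=
  gN q w * RatFunc.X ^ ((w.P : ℤ) * w.p * (w.b - w.C.As)) *
    rho q w.p (w.b - w.C.As * w.p) w.P (Multiset.card w.C.code)

theorem gN_of (p : ℕ) (b : ℤ) (C : Tr) (h : Val (cons p b C nil)) (P : ℕ) (hP : 1 ≤ P) :
    gN q (Nd.of p b C h P hP) =
      mn q (-(2 * (p * b) * P * (P - 1))) (-(2 * (p * b * P ^ 2))) := by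
  obtain ⟨h1, h2, h3⟩ := Nd.of_spec p b C h P hP
  rw [gN, h1, h2]
  rfl

theorem gm_nodes (K : Tr) (h : Val K) (P : ℕ) (hP : 1 ≤ P) :
    (nodes K h P hP).prod (fun i e => gN q i ^ e) =
      mn q (-(2 * K.As * P * (P - 1))) (-(2 * (K.As * P ^ 2))) := by
  induction K with
  | nil => simp [nodes, As, mn_zero]
  | cons p b C R hC hR =>
    rw [nodes]
    refine (Finsupp.prod_add_index' (h := fun i e => gN q i ^ e) (fun _ => pow_zero _)
      (fun _ _ _ => pow_add _ _ _)).trans ?_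
    rw [hR]
    refine (congrArg (· * _) (Finsupp.prod_single_index (h := fun i e => gN q i ^ e)
      (pow_zero _))).trans ?_
    rw [pow_one, gN_of, mn_mul, As]
    congr 1
    · push_cast; ring
    · ring

end

end Pool.Agent.H765.GK
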