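import Mathlib
import Pool.Agent.H765.GK.Node

/-! Formal coloured Jones functions of graph knots. -/

namespace Pool.Agent.H765.GK

open Tr MvPolynomial
open Finsupp (weight single)

noncomputable section

variable {F : Type*} [Field F] (q : QF F)

/-- one prime factor, given the formal functions of its companion -/
def zc (w : Nd) (p : ℕ) (b : ℤ) (P : ℕ) (z : ℕ → MvPolynomial Nd (RatFunc F)) :
    ℕ → MvPolynomial Nd (RatFunc F)
  | 0 => X w
  | t + 1 => C (mn q (-(4 * (p * b) * t)) (-(2 * (p * b) * P))) * zc w p b P z t +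
      (C (mn q (2 * (b - p * b) * t) ((b - p * b) * P)) * z (p * t + 1) -
       C (mn q (-(2 * (b + p * b) * t)) (-((b + p * b) * P))) * z (p * t))

/-- formal coloured Jones function of a tree at `P N + 2 t - 1` -/
def Z : (K : Tr) → Val K → (P : ℕ) → 1 ≤ P → ℕ → MvPolynomial Nd (RatFunc F)
  | nil, _, P, _ => fun t => C (Sf q P t)
  | cons p b Cc R, h, P, hP => fun t =>
      zc q (Nd.of p b Cc h.nil_right P hP) p b P
        (Z Cc h.comp (p * P) (Nat.mul_pos (by have := h.1; omega) hP)) t *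
      Z R h.tail P hP t * C (Sf q P t)⁻¹

/-- leading term of a polynomial -/
def Lead (f : MvPolynomial Nd (RatFunc F)) (m : Nd →₀ ℕ) (a : RatFunc F) : Prop :=
  ∃ L : MvPolynomial Nd (RatFunc F), f = monomial m a + L ∧
    ∀ n ∈ L.support, weight wN n < weight wN m

/-- low weight -/
def Low (a : ℕ) (f : MvPolynomial Nd (RatFunc F)) : Prop :=
  ∀ n ∈ f.support, weight wN n < a

theorem Low.add {a : ℕ} {f g : MvPolynomial Nd (RatFunc F)} (hf : Low a f) (hg : Low a g) :
    Low a (f + g) := by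
  classical
  intro n hn
  rcases Finset.mem_union.mp (MvPolynomial.support_add hn) with h1 | h1
  · exact hf n h1
  · exact hg n h1

theorem Low.C_mul {a : ℕ} {f : MvPolynomial Nd (RatFunc F)} (r : RatFunc F) (hf : Low a f) :
    Low a (C r * f) := by
  intro n hn
  apply hf n
  rw [MvPolynomial.mem_support_iff] at hn ⊢
  rw [coeff_C_mul] at hn
  exact right_ne_zero_of_mul hn

theorem Low.neg {a : ℕ} {f : MvPolynomial Nd (RatFunc F)} (hf : Low a f) : Low a (-f) := by
  have := hf.C_mul (-1)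
  rwa [map_neg, map_one, neg_one_mul] at this

theorem low_zero (a : ℕ) : Low a (0 : MvPolynomial Nd (RatFunc F)) := by
  intro n hn
  simp at hn

theorem Low.mul_mono {a : ℕ} {f : MvPolynomial Nd (RatFunc F)} (hf : Low a f) (m : Nd →₀ ℕ)
    (r : RatFunc F) : Low (a + weight wN m) (f * monomial m r) := by
  classical
  intro n hn
  obtain ⟨x, hx, y, hy, rfl⟩ := Finset.mem_add.mp (support_mul _ _ hn)
  have h1 := hf x hx
  have h2 := support_monomial_subset hy
  rw [Finset.mem_singleton] at h2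
  rw [map_add, h2]
  omega

theorem Low.mul {a b : ℕ} {f g : MvPolynomial Nd (RatFunc F)} (hf : Low a f) (hg : Low b g) :
    Low (a + b) (f * g) := by
  classical
  intro n hn
  obtain ⟨x, hx, y, hy, rfl⟩ := Finset.mem_add.mp (support_mul _ _ hn)
  have h1 := hf x hx
  have h2 := hg y hy
  rw [map_add]
  omega

theorem Lead.mul {f g : MvPolynomial Nd (RatFunc F)} {m n : Nd →₀ ℕ} {a b : RatFunc F}
    (hf : Lead f m a) (hg : Lead g n b) : Lead (f * g) (m + n) (a * b) := by
  obtain ⟨L, rfl, hL⟩ := hf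
  obtain ⟨L', rfl, hL'⟩ := hg
  refine ⟨L * monomial n b + (L' * monomial m a + L * L'), ?_, ?_⟩
  · rw [← monomial_mul]
    ring
  · rw [map_add]
    refine Low.add (Low.mul_mono hL n b) (Low.add ?_ (Low.mul hL hL'))
    have := Low.mul_mono hL' m a
    rwa [add_comm] at this

theorem Lead.C_mul {f : MvPolynomial Nd (RatFunc F)} {m : Nd →₀ ℕ} {a : RatFunc F}
    (r : RatFunc F) (hf : Lead f m a) : Lead (C r * f) m (r * a) := by
  obtain ⟨L, rfl, hL⟩ := hf
  exact ⟨C r * L, by rw [mul_add, C_mul_monomial], Low.C_mul r hL⟩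

theorem Lead.add {f g : MvPolynomial Nd (RatFunc F)} {m : Nd →₀ ℕ} {a b : RatFunc F}
    (hf : Lead f m a) (hg : Lead g m b) : Lead (f + g) m (a + b) := by
  obtain ⟨L, rfl, hL⟩ := hf
  obtain ⟨L', rfl, hL'⟩ := hg
  exact ⟨L + L', by rw [map_add]; ring, Low.add hL hL'⟩

theorem Lead.sub {f g : MvPolynomial Nd (RatFunc F)} {m : Nd →₀ ℕ} {a b : RatFunc F}
    (hf : Lead f m a) (hg : Lead g m b) : Lead (f - g) m (a - b) := by
  have := hf.add (hg.C_mul (-1))
  rwa [map_neg, map_one, neg_one_mul, neg_one_mul, ← sub_eq_add_neg, ← sub_eq_add_neg] at this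

/-- leading coefficients of formal coloured Jones functions -/
def gam (A : ℤ) (s : ℕ) (P : ℕ) (t : ℕ) : RatFunc F :=
  mn q (-(2 * A * t * (t - 1))) (-(2 * A * P * t)) * Sf q P t ^ (1 - (s : ℤ))

/-- partial sums of `rho` -/
def rhoP (p : ℕ) (bh : ℤ) (P s T : ℕ) : RatFunc F :=
  ∑ t ∈ Finset.range T,
    (RatFunc.C (q.Q (2 * bh * t * (p * t + 1))) * RatFunc.X ^ ((P : ℤ) * bh * (2 * p * t + 1)) *
      Sf q (p * P) (p * t + 1) ^ (1 - (s : ℤ)) -
     RatFunc.C (q.Q (2 * bh * t * (p * t - 1))) * RatFunc.X ^ ((P : ℤ) * bh * (2 * p * t - 1)) *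
      Sf q (p * P) (p * t) ^ (1 - (s : ℤ)))

/-- two-term expansion of one prime factor -/
theorem zc_lead (w : Nd) (p : ℕ) (b : ℤ) (P : ℕ) (z : ℕ → MvPolynomial Nd (RatFunc F))
    (M : Nd →₀ ℕ) (A : ℤ) (s : ℕ) (hz : ∀ t, Lead (z t) M (gam q A s (p * P) t)) (t : ℕ) :
    ∃ L, zc q w p b P z t = C (mn q (-(2 * (p * b) * t * (t - 1))) (-(2 * (p * b) * P * t))) *
      X w + (monomial M (mn q (-(2 * (p * b) * t * (t - 1))) (-(2 * (p * b) * P * t)) *
        RatFunc.X ^ ((P : ℤ) * p * (b - A)) * rhoP q p (b - A * p) P s t) + L) ∧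
      Low (weight wN M) L := by
  induction t with
  | zero =>
    refine ⟨0, ?_, low_zero _⟩
    rw [zc, rhoP, Finset.sum_range_zero, mul_zero, map_zero, add_zero, add_zero]
    simp only [Nat.cast_zero, mul_zero, zero_mul, neg_zero, mn_zero, map_one, one_mul]
  | succ t ih =>
    obtain ⟨L, h1, h2⟩ := ih
    have h3 := ((hz (p * t + 1)).C_mul (mn q (2 * (b - p * b) * t) ((b - p * b) * P))).sub
      ((hz (p * t)).C_mul (mn q (-(2 * (b + p * b) * t)) (-((b + p * b) * P))))
    obtain ⟨L', h4, h5⟩ := h3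
    refine ⟨C (mn q (-(4 * (p * b) * t)) (-(2 * (p * b) * P))) * L + L', ?_,
      (h2.C_mul _).add h5⟩
    rw [zc, h1, h4, mul_add, mul_add, ← mul_assoc, ← C_mul, C_mul_monomial]
    have e1 : mn q (-(4 * (p * b) * t)) (-(2 * (p * b) * P)) *
        mn q (-(2 * (p * b) * t * (t - 1))) (-(2 * (p * b) * P * t)) =
        mn q (-(2 * (p * b) * (t + 1 : ℕ) * ((t + 1 : ℕ) - 1)))
          (-(2 * (p * b) * P * (t + 1 : ℕ))) := by
      rw [mn_mul]
      congr 1
      · push_cast; ring
      · push_cast; ring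
    rw [← e1]
    have e2 : mn q (-(4 * (p * b) * t)) (-(2 * (p * b) * P)) *
        (mn q (-(2 * (p * b) * t * (t - 1))) (-(2 * (p * b) * P * t)) *
        RatFunc.X ^ ((P : ℤ) * p * (b - A)) * rhoP q p (b - A * p) P s t) +
        (mn q (2 * (b - p * b) * t) ((b - p * b) * P) * gam q A s (p * P) (p * t + 1) -
         mn q (-(2 * (b + p * b) * t)) (-((b + p * b) * P)) * gam q A s (p * P) (p * t)) =
        mn q (-(4 * (p * b) * t)) (-(2 * (p * b) * P)) *
        mn q (-(2 * (p * b) * t * (t - 1))) (-(2 * (p * b) * P * t)) *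
        RatFunc.X ^ ((P : ℤ) * p * (b - A)) * rhoP q p (b - A * p) P s (t + 1) := by
      have hrho : rhoP q p (b - A * p) P s (t + 1) = rhoP q p (b - A * p) P s t +
          (mn q (2 * ((b - A * p : ℤ) : ℚ) * t * (p * t + 1))
            ((P : ℤ) * (b - A * p) * (2 * p * t + 1)) *
            Sf q (p * P) (p * t + 1) ^ (1 - (s : ℤ)) -
           mn q (2 * ((b - A * p : ℤ) : ℚ) * t * (p * t - 1))
            ((P : ℤ) * (b - A * p) * (2 * p * t - 1)) *
            Sf q (p * P) (p * t) ^ (1 - (s : ℤ))) := by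
        rw [rhoP, Finset.sum_range_succ, ← rhoP]
        rfl
      have g1 : gam q A s (p * P) (p * t + 1) =
          mn q (-(2 * A * (p * t + 1) * (p * t + 1 - 1))) (-(2 * A * (p * P) * (p * t + 1))) *
            Sf q (p * P) (p * t + 1) ^ (1 - (s : ℤ)) := by
        simp only [gam, Nat.cast_mul, Nat.cast_add, Nat.cast_one]
      have g2 : gam q A s (p * P) (p * t) =
          mn q (-(2 * A * (p * t) * (p * t - 1))) (-(2 * A * (p * P) * (p * t))) *
            Sf q (p * P) (p * t) ^ (1 - (s : ℤ)) := by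
        simp only [gam, Nat.cast_mul]
      have k1 : mn q (2 * (b - p * b) * t) ((b - p * b) * P) *
          mn q (-(2 * A * (p * t + 1) * (p * t + 1 - 1))) (-(2 * A * (p * P) * (p * t + 1))) =
          mn q (-(4 * (p * b) * t)) (-(2 * (p * b) * P)) *
          mn q (-(2 * (p * b) * t * (t - 1))) (-(2 * (p * b) * P * t)) *
          mn q 0 ((P : ℤ) * p * (b - A)) *
          mn q (2 * ((b - A * p : ℤ) : ℚ) * t * (p * t + 1))
            ((P : ℤ) * (b - A * p) * (2 * p * t + 1)) := by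
        rw [mn_mul, mn_mul, mn_mul, mn_mul]
        congr 1
        · push_cast; ring
        · ring
      have k2 : mn q (-(2 * (b + p * b) * t)) (-((b + p * b) * P)) *
          mn q (-(2 * A * (p * t) * (p * t - 1))) (-(2 * A * (p * P) * (p * t))) =
          mn q (-(4 * (p * b) * t)) (-(2 * (p * b) * P)) *
          mn q (-(2 * (p * b) * t * (t - 1))) (-(2 * (p * b) * P * t)) *
          mn q 0 ((P : ℤ) * p * (b - A)) *
          mn q (2 * ((b - A * p : ℤ) : ℚ) * t * (p * t - 1))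
            ((P : ℤ) * (b - A * p) * (2 * p * t - 1)) := by
        rw [mn_mul, mn_mul, mn_mul, mn_mul]
        congr 1
        · push_cast; ring
        · ring
      rw [hrho, X_zpow_eq q, g1, g2]
      linear_combination (Sf q (p * P) (p * t + 1) ^ (1 - (s : ℤ))) * k1 -
        (Sf q (p * P) (p * t) ^ (1 - (s : ℤ))) * k2
    rw [← e2, map_add]
    ring

end

end Pool.Agent.H765.GK
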