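import Mathlib
import Pool.Agent.H765.GK.Zed

/-! The system of graph knots satisfies the obstruction condition. -/

namespace Pool.Agent.H765.GK

open Tr MvPolynomial
open Finsupp (weight single)

noncomputable section

variable {F : Type*} [Field F] (q : QF F)

theorem Sf_ne' {P : ℕ} (hP : 1 ≤ P) (t : ℤ) : Sf q P t ≠ 0 := Sf_ne q (by omega) t

theorem gam_nil (P t : ℕ) : gam q 0 0 P t = Sf q P t := by
  simp [gam, mn_zero]

theorem gam_cons (p : ℕ) (b : ℤ) (A : ℤ) (s P t : ℕ) (hP : 1 ≤ P) :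
    mn q (-(2 * (p * b) * t * (t - 1))) (-(2 * (p * b) * P * t)) * gam q A s P t *
      (Sf q P t)⁻¹ = gam q (p * b + A) (s + 1) P t := by
  have h1 := Sf_ne' q hP t
  have h2 : Sf q P t ^ (1 - ((s + 1 : ℕ) : ℤ)) = Sf q P t ^ (1 - (s : ℤ)) * (Sf q P t)⁻¹ := by
    rw [← zpow_sub_one₀ h1]
    congr 1
    push_cast
    ring
  have h3 : mn q (-(2 * ((p * b + A : ℤ) : ℚ) * t * (t - 1))) (-(2 * (p * b + A) * P * t)) =
      mn q (-(2 * (p * b) * t * (t - 1))) (-(2 * (p * b) * P * t)) *
      mn q (-(2 * A * t * (t - 1))) (-(2 * A * P * t)) := by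
    rw [mn_mul]
    congr 1
    · push_cast; ring
    · ring
  rw [gam, gam, h2, h3]
  ring

theorem Z_lead (K : Tr) (h : Val K) (P : ℕ) (hP : 1 ≤ P) (t : ℕ) :
    Lead (Z q K h P hP t) (nodes K h P hP) (gam q K.As (Multiset.card K.code) P t) := by
  induction K generalizing P t with
  | nil =>
    refine ⟨0, ?_, low_zero _⟩
    rw [Z, nodes, As, code, Multiset.card_zero, gam_nil, add_zero]
    rfl
  | cons p b Cc R hC hR =>
    have hpP : 1 ≤ p * P := Nat.mul_pos (by have := h.1; omega) hP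
    obtain ⟨L, h1, h2⟩ := zc_lead q (Nd.of p b Cc h.nil_right P hP) p b P
      (Z q Cc h.comp (p * P) hpP) (nodes Cc h.comp (p * P) hpP) Cc.As (Multiset.card Cc.code)
      (fun t => hC h.comp (p * P) hpP t) t
    have hw1 : weight wN (nodes Cc h.comp (p * P) hpP) = Cc.wt := weight_wN _ _ _ _
    have hw2 : weight wN (single (Nd.of p b Cc h.nil_right P hP) 1) = 1 + Cc.wt := by
      rw [Finsupp.weight_single, one_smul, wN_of]
    have l1 : Lead (zc q (Nd.of p b Cc h.nil_right P hP) p b P (Z q Cc h.comp (p * P) hpP) t)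
        (single (Nd.of p b Cc h.nil_right P hP) 1)
        (mn q (-(2 * (p * b) * t * (t - 1))) (-(2 * (p * b) * P * t))) := by
      refine ⟨_, by rw [h1, ← C_mul_X_eq_monomial], ?_⟩
      refine Low.add ?_ ?_
      · intro n hn
        have := support_monomial_subset hn
        rw [Finset.mem_singleton] at this
        rw [this, hw1, hw2]
        omega
      · intro n hn
        have := h2 n hn
        omega
    have l2 := (l1.mul (hR h.tail P hP t)).C_mul (Sf q P t)⁻¹
    have e1 : Z q (cons p b Cc R) h P hP t = C (Sf q P t)⁻¹ *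
        (zc q (Nd.of p b Cc h.nil_right P hP) p b P (Z q Cc h.comp (p * P) hpP) t *
          Z q R h.tail P hP t) := by
      rw [Z]
      ring
    have e2 : gam q (cons p b Cc R).As (Multiset.card (cons p b Cc R).code) P t =
        (Sf q P t)⁻¹ * (mn q (-(2 * (p * b) * t * (t - 1))) (-(2 * (p * b) * P * t)) *
          gam q R.As (Multiset.card R.code) P t) := by
      rw [As, code, Multiset.card_cons, ← gam_cons q p b R.As _ P t hP]
      ring
    rw [e1, e2, nodes]
    exact l2

/-- the value of the system on a variable -/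
def TX (w : Nd) : MvPolynomial Nd (RatFunc F) :=
  zc q w w.p w.b w.P (Z q w.C w.val.comp (w.p * w.P) (hPP w)) w.P

theorem TX_eq (w : Nd) : ∃ L, TX q w = C (gN q w) * X w + (monomial (MN w) (bN q w) + L) ∧
    Low (weight wN (MN w)) L := by
  obtain ⟨L, h1, h2⟩ := zc_lead q w w.p w.b w.P (Z q w.C w.val.comp (w.p * w.P) (hPP w))
    (MN w) w.C.As (Multiset.card w.C.code) (fun t => Z_lead q _ _ _ _ t) w.P
  refine ⟨L, ?_, h2⟩
  have e1 : mn q (-(2 * (w.p * w.b) * w.P * (w.P - 1))) (-(2 * (w.p * w.b) * w.P * w.P)) =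
      gN q w := by
    rw [gN]
    congr 1
    ring
  rw [TX, h1, e1]
  rfl

/-- the system of graph knots -/
def SN : Sys Nd (RatFunc F) where
  τ0 := sc (q.Q 2) (q.ne 2)
  g := gN q
  M := MN
  β := bN q
  B := fun w => TX q w - (C (gN q w) * X w + monomial (MN w) (bN q w))
  ω := wN
  θ := tN
  η := eN
  g_ne := fun w => mn_ne q _ _
  hω := fun w => by rw [MN, weight_wN, wN]
  hθ := fun w => by rw [MN, weight_tN, tN]
  hη := eN_lt
  hB := fun w => by
    obtain ⟨L, h1, h2⟩ := TX_eq q w
    have : TX q w - (C (gN q w) * X w + monomial (MN w) (bN q w)) = L := by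
      rw [h1]; ring
    rw [this]
    exact h2

theorem SN_T_X (w : Nd) : (SN q).T (X w) = TX q w := by
  rw [Sys.T_X]
  simp only [SN]
  ring

theorem P_dvd {p b P p' b' P' : ℤ} (h : IsCoprime p b) (h1 : P * p = P' * p')
    (h2 : P * b = P' * b') : P' ∣ P := by
  obtain ⟨x, y, hxy⟩ := h
  have : P = P' * (x * p' + y * b') := by
    linear_combination (-P) * hxy + x * h1 + y * h2
  exact Dvd.intro _ this.symm

/-- parameters -/
def PN : Par q (SN q) where
  p := Nd.p
  b := Nd.b
  P := Nd.P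
  s := fun w => Multiset.card w.C.code
  A := fun w => w.C.As
  hτ := rfl
  hp := fun w => w.val.1
  hP := Nd.hP
  hb := fun w => w.val.2.1
  hM := fun w h h' => h (by
    have h1 : nodes w.C w.val.comp (w.p * w.P) (hPP w) = 0 := h'
    rw [nodes_eq_zero] at h1
    rw [h1]; rfl)
  hA := fun w h => by
    rw [Multiset.card_eq_zero, code_eq_zero] at h
    rw [h]; rfl
  hM0 := fun w h => by
    rw [Multiset.card_eq_zero] at h
    change nodes w.C w.val.comp (w.p * w.P) (hPP w) = 0
    rw [nodes_eq_zero, h]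
  htb := fun w h => by
    rw [Multiset.card_eq_zero, code_eq_zero] at h
    exact w.val.2.2.1 h
  hg := fun w => rfl
  hgm := fun w => by
    have h1 := gm_nodes q w.C w.val.comp (w.p * w.P) (hPP w)
    change (nodes w.C w.val.comp (w.p * w.P) (hPP w)).prod (fun i e => gN q i ^ e) = _
    rw [h1]
    push_cast
    rfl
  hβ := fun w => rfl
  hMM := fun w w' h1 h2 h3 => by
    have hne : w.C.code ≠ 0 := fun h => h2 (by rw [h]; rfl)
    obtain ⟨h4, h5⟩ := nodes_le hne h1
    rcases lt_or_eq_of_le (Multiset.card_le_card h5) with h6 | h6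
    · exact Or.inr h6
    · left
      have h7 : w.C.code = w'.C.code := Multiset.eq_of_le_of_card_le h5 h6.ge
      have hA : w.C.As = w'.C.As := (perm_of_code h7).As
      have h4z : (w.P : ℤ) * w.p = w'.P * w'.p := by
        have : ((w.p * w.P : ℕ) : ℤ) = ((w'.p * w'.P : ℕ) : ℤ) := by rw [h4]
        push_cast at this
        linarith
      have hPp : (w.P : ℤ) * w.p ≠ 0 := by
        have h8 := w.val.1
        have h9 := w.hP
        have h10 : (0 : ℤ) < w.P := by exact_mod_cast h9
        have h11 : (0 : ℤ) < w.p := by exact_mod_cast (by omega : 0 < w.p)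
        positivity
      have hPb : (w.P : ℤ) * w.b = w'.P * w'.b := by
        have h12 : (w.P : ℤ) * w.p * ((w.P : ℤ) * w.b) = (w.P : ℤ) * w.p * (w'.P * w'.b) := by
          have e1 : (w.P : ℤ) * w.p * ((w.P : ℤ) * w.b) =
              (w.P : ℤ) ^ 2 * (w.p * (w.b - w.C.As * w.p)) + w.C.As * ((w.P : ℤ) * w.p) ^ 2 := by
            ring
          have e2 : (w.P : ℤ) * w.p * (w'.P * w'.b) =
              (w'.P : ℤ) ^ 2 * (w'.p * (w'.b - w'.C.As * w'.p)) +
                w'.C.As * ((w'.P : ℤ) * w'.p) ^ 2 := by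
            rw [h4z]; ring
          rw [e1, e2, h3, h4z, hA]
        exact mul_left_cancel₀ hPp h12
      have d1 : (w'.P : ℤ) ∣ w.P := P_dvd w.val.2.1 h4z hPb
      have d2 : (w.P : ℤ) ∣ w'.P := P_dvd w'.val.2.1 h4z.symm hPb.symm
      have hPP' : (w.P : ℤ) = w'.P := Int.dvd_antisymm (by positivity) (by positivity) d2 d1
      have hP0 : (w'.P : ℤ) ≠ 0 := by
        have := w'.hP
        exact_mod_cast (by omega : w'.P ≠ 0)
      rw [hPP'] at h4z hPb
      exact Nd.ext (by exact_mod_cast mul_left_cancel₀ hP0 h4z) (mul_left_cancel₀ hP0 hPb) h7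
        (by exact_mod_cast hPP')
  htor := fun w w' h1 h2 h3 h4 h5 => by
    rw [Multiset.card_eq_zero] at h1 h2
    exact Nd.ext h4 h5 (by rw [h1, h2]) h3
  hη := fun w h => by
    rw [Multiset.card_eq_zero, code_eq_zero] at h
    change 1 + w.p + w.b.natAbs + w.C.sz = _
    rw [h, sz]; ring

theorem SN_obs [CharZero F] : (SN q).Obs := (PN q).obs

end

end Pool.Agent.H765.GK
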