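import Mathlib
import Pool.Agent.H765.GK.NSys

/-! Evaluation of the formal functions at sequences. -/

namespace Pool.Agent.H765.GK

open Tr MvPolynomial
open Finsupp (weight single)

noncomputable section

variable {F : Type*} [Field F] (q : QF F)

/-- germs at infinity of sequences -/
abbrev Gm (F : Type*) : Type _ := Filter.Germ (Filter.atTop : Filter ℕ) F

/-- the germ of a sequence -/
def gr : (ℕ → F) →+* Gm F := Filter.Germ.coeRingHom _

theorem gr_eq_iff (f g : ℕ → F) : gr f = gr g ↔ ∀ᶠ N in Filter.atTop, f N = g N :=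
  Filter.Germ.coe_eq

/-- evaluation of polynomials at `Q N` -/
def evp : Polynomial F →+* Gm F :=
  gr.comp (RingHom.pi fun N : ℕ => Polynomial.evalRingHom (q.Q N))

theorem evp_apply (p : Polynomial F) : evp q p = gr fun N => p.eval (q.Q N) := rfl

theorem evp_ne {p : Polynomial F} (hp : p ≠ 0) :
    ∀ᶠ N : ℕ in Filter.atTop, p.eval (q.Q N) ≠ 0 := by
  classical
  have hinj : Function.Injective fun N : ℕ => q.Q N := by
    intro a b h
    have := (q.eq_iff _ _).mp h
    exact_mod_cast this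
  have h1 : {N : ℕ | p.eval (q.Q N) = 0}.Finite := by
    refine ((Finset.finite_toSet p.roots.toFinset).preimage hinj.injOn).subset ?_
    intro N hN
    rw [Set.mem_preimage, Finset.mem_coe, Multiset.mem_toFinset, Polynomial.mem_roots hp]
    exact hN
  rw [← Nat.cofinite_eq_atTop]
  exact h1.eventually_cofinite_notMem

theorem isUnit_gr {f : ℕ → F} (h : ∀ᶠ N in Filter.atTop, f N ≠ 0) : IsUnit (gr f) := by
  rw [isUnit_iff_exists_inv]
  refine ⟨gr fun N => (f N)⁻¹, ?_⟩
  rw [← map_mul, ← map_one gr, gr_eq_iff]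
  filter_upwards [h] with N hN
  simp [hN]

/-- evaluation of rational functions -/
def evk : RatFunc F →+* Gm F :=
  IsLocalization.lift (M := nonZeroDivisors (Polynomial F)) (g := evp q) fun p =>
    isUnit_gr (evp_ne q (nonZeroDivisors.ne_zero p.2))

theorem evk_algebraMap (p : Polynomial F) :
    evk q (algebraMap (Polynomial F) (RatFunc F) p) = gr fun N => p.eval (q.Q N) :=
  IsLocalization.lift_eq _ _

theorem evk_inv {f : RatFunc F} {φ : ℕ → F} (h : evk q f = gr φ)
    (hφ : ∀ᶠ N in Filter.atTop, φ N ≠ 0) (hf : f ≠ 0) :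
    evk q f⁻¹ = gr fun N => (φ N)⁻¹ := by
  have h1 : gr φ * evk q f⁻¹ = 1 := by
    rw [← h, ← map_mul, mul_inv_cancel₀ hf, map_one]
  have h2 : gr φ * gr (fun N => (φ N)⁻¹) = 1 := by
    rw [← map_mul, ← map_one gr, gr_eq_iff]
    filter_upwards [hφ] with N hN
    simp [hN]
  exact (isUnit_gr hφ).mul_left_cancel (h1.trans h2.symm)

theorem evk_C (a : F) : evk q (RatFunc.C a) = gr fun _ => a := by
  rw [← RatFunc.algebraMap_C, evk_algebraMap]
  simp

theorem evk_X : evk q RatFunc.X = gr fun N => q.Q N := by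
  rw [← RatFunc.algebraMap_X, evk_algebraMap]
  simp

theorem evk_X_zpow (m : ℤ) : evk q (RatFunc.X ^ m) = gr fun N => q.Q (m * N) := by
  have h1 : ∀ k : ℕ, evk q (RatFunc.X ^ k) = gr fun N => q.Q (k * N) := by
    intro k
    rw [map_pow, evk_X, ← map_pow]
    congr 1
    funext N
    rw [Pi.pow_apply, q.pow]
  obtain ⟨k, rfl | rfl⟩ := m.eq_nat_or_neg
  · rw [zpow_natCast, h1]
    simp
  · rw [zpow_neg, zpow_natCast, evk_inv q (h1 k) (Filter.Eventually.of_forall fun N => q.ne _)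
      (pow_ne_zero _ RatFunc.X_ne_zero)]
    congr 1
    funext N
    rw [← q.neg]
    congr 1
    push_cast
    ring

theorem evk_mn (e : ℚ) (m : ℤ) : evk q (mn q e m) = gr fun N => q.Q (e + m * N) := by
  rw [mn, map_mul, evk_C, evk_X_zpow, ← map_mul]
  congr 1
  funext N
  rw [Pi.mul_apply, q.add]

theorem evk_Sf (P t : ℕ) : evk q (Sf q P t) =
    gr fun N => q.Q ((P * N + 2 * t - 1 : ℤ)) - q.Q (-(P * N + 2 * t - 1 : ℤ)) := by
  have h1 : Sf q P t = mn q (2 * t - 1) P - mn q (1 - 2 * t) (-P) := rfl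
  rw [h1, map_sub, evk_mn, evk_mn, ← map_sub]
  congr 1
  funext N
  rw [Pi.sub_apply]
  congr 2
  · push_cast; ring
  · push_cast; ring

theorem unit_ne {P : ℕ} (hP : 1 ≤ P) (t : ℕ) : ∀ᶠ N : ℕ in Filter.atTop,
    q.Q ((P * N + 2 * t - 1 : ℤ)) - q.Q (-(P * N + 2 * t - 1 : ℤ)) ≠ 0 := by
  filter_upwards [Filter.eventually_ge_atTop 2] with N hN
  rw [Ne, sub_eq_zero, q.eq_iff]
  have h1 : (2 : ℤ) ≤ P * N := by
    have : 1 * 2 ≤ P * N := Nat.mul_le_mul hP hN
    exact_mod_cast this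
  intro h
  have h2 : ((P * N + 2 * t - 1 : ℤ) : ℚ) = 0 := by linarith
  have h3 : (P * N + 2 * t - 1 : ℤ) = 0 := by exact_mod_cast h2
  omega

/-- shift of germs -/
def sh : Gm F →+* Gm F where
  toFun f := f.compTendsto (fun N : ℕ => N + 2) (Filter.tendsto_add_atTop_nat 2)
  map_one' := rfl
  map_zero' := rfl
  map_mul' f g := by
    induction f using Filter.Germ.inductionOn
    induction g using Filter.Germ.inductionOn
    rfl
  map_add' f g := by
    induction f using Filter.Germ.inductionOn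
    induction g using Filter.Germ.inductionOn
    rfl

theorem sh_gr (f : ℕ → F) : sh (gr f) = gr fun N => f (N + 2) := rfl

theorem sh_evk (f : RatFunc F) : sh (evk q f) = evk q (sc (q.Q 2) (q.ne 2) f) := by
  have : (sh.comp (evk q)) = (evk q).comp (sc (q.Q 2) (q.ne 2)) := by
    apply IsLocalization.ringHom_ext (nonZeroDivisors (Polynomial F))
    apply RingHom.ext
    intro p
    simp only [RingHom.comp_apply, sc_algebraMap, evk_algebraMap, sh_gr, eval_scp]
    congr 1
    funext N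
    rw [← q.add]
    congr 2
    push_cast
    ring
  exact RingHom.congr_fun this f

/-- coloured Jones functions on trees -/
structure JFam where
  J : Tr → ℤ → F
  G : ℕ → ℤ → Tr → ℤ → F
  J_nil : ∀ n : ℤ, J Tr.nil n = q.Q n - q.Q (-n)
  J_cons : ∀ (p : ℕ) (b : ℤ) (Cc R : Tr) (n : ℤ), J (cons p b Cc R) n = G p b Cc n * J R n * (J Tr.nil n)⁻¹
  G_diff : ∀ (p : ℕ) (b : ℤ) (Cc : Tr) (m : ℤ), q.Q (p * b * m) * G p b Cc (m + 1) -
    q.Q (-(p * b * m)) * G p b Cc (m - 1) =
    q.Q (b * m) * J Cc (p * m + 1) - q.Q (-(b * m)) * J Cc (p * m - 1)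
  G_congr : ∀ (p : ℕ) (b : ℤ) (Cc Cc' : Tr), Cc.code = Cc'.code → G p b Cc = G p b Cc'

variable {q}

namespace JFam

variable (E : JFam q)

/-- evaluation -/
def ev : MvPolynomial Nd (RatFunc F) →+* Gm F :=
  eval₂Hom (evk q) fun w => gr fun N => E.G w.p w.b w.C (w.P * N - 1)

theorem ev_C (a : RatFunc F) : E.ev (C a) = evk q a := by simp [ev]

theorem ev_X (w : Nd) : E.ev (X w) = gr fun N => E.G w.p w.b w.C (w.P * N - 1) := by simp [ev]

theorem G_step (p : ℕ) (b : ℤ) (Cc : Tr) (m : ℤ) : E.G p b Cc (m + 1) =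
    q.Q (-(2 * (p * b) * m)) * E.G p b Cc (m - 1) +
      (q.Q ((b - p * b) * m) * E.J Cc (p * m + 1) -
        q.Q (-((b + p * b) * m)) * E.J Cc (p * m - 1)) := by
  have h := E.G_diff p b Cc m
  have h1 := q.ne (p * b * m)
  apply mul_left_cancel₀ h1
  have e1 : q.Q (p * b * m) * q.Q (-(2 * (p * b) * m)) = q.Q (-(p * b * m)) := by
    rw [← q.add]; congr 1; ring
  have e2 : q.Q (p * b * m) * q.Q ((b - p * b) * m) = q.Q (b * m) := by
    rw [← q.add]; congr 1; ring
  have e3 : q.Q (p * b * m) * q.Q (-((b + p * b) * m)) = q.Q (-(b * m)) := by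
    rw [← q.add]; congr 1; ring
  linear_combination h - E.G p b Cc (m - 1) * e1 - E.J Cc (p * m + 1) * e2 +
    E.J Cc (p * m - 1) * e3

theorem ev_zc (w : Nd) (p : ℕ) (b : ℤ) (P : ℕ) (Cc : Tr)
    (z : ℕ → MvPolynomial Nd (RatFunc F)) (h1 : w.p = p) (h2 : w.b = b)
    (h3 : w.C.code = Cc.code) (h4 : w.P = P)
    (hz : ∀ t : ℕ, E.ev (z t) = gr fun N => E.J Cc ((p * P : ℕ) * N + 2 * t - 1)) (t : ℕ) :
    E.ev (zc q w p b P z t) = gr fun N => E.G p b Cc (P * N + 2 * t - 1) := by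
  induction t with
  | zero =>
    rw [zc, ev_X, h1, h2, h4, E.G_congr _ _ _ _ h3]
    simp
  | succ t ih =>
    rw [zc, map_add, map_mul, map_sub, map_mul, map_mul, ev_C, ev_C, ev_C, ih, hz, hz, evk_mn,
      evk_mn, evk_mn, ← map_mul, ← map_mul, ← map_mul, ← map_sub, ← map_add]
    congr 1
    funext N
    have hs := E.G_step p b Cc (P * N + 2 * t)
    have e0 : (P : ℤ) * N + 2 * (t + 1 : ℕ) - 1 = P * N + 2 * t + 1 := by push_cast; ring
    rw [e0, hs]
    simp only [Pi.add_apply, Pi.mul_apply, Pi.sub_apply]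
    have e1 : ((p * P : ℕ) : ℤ) * N + 2 * ((p * t + 1 : ℕ) : ℤ) - 1 =
        p * (P * N + 2 * t) + 1 := by push_cast; ring
    have e2 : ((p * P : ℕ) : ℤ) * N + 2 * ((p * t : ℕ) : ℤ) - 1 =
        p * (P * N + 2 * t) - 1 := by push_cast; ring
    rw [e1, e2]
    congr 3
    · congr 1
      push_cast; ring
    · congr 1
      push_cast; ring
    · congr 1
      push_cast; ring

theorem ev_Z (K : Tr) (h : Val K) (P : ℕ) (hP : 1 ≤ P) (t : ℕ) :
    E.ev (Z q K h P hP t) = gr fun N => E.J K (P * N + 2 * t - 1) := by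
  induction K generalizing P t with
  | nil =>
    rw [Z, ev_C, evk_Sf]
    congr 1
    funext N
    rw [E.J_nil]
  | cons p b Cc R hC hR =>
    have hpP : 1 ≤ p * P := Nat.mul_pos (by have := h.1; omega) hP
    obtain ⟨s1, s2, s3⟩ := Nd.of_spec p b Cc h.nil_right P hP
    rw [Z]
    simp only
    rw [map_mul, map_mul, ev_C, hR, E.ev_zc _ p b P Cc _ s1 s2 s3 rfl
      (fun t => hC h.comp (p * P) hpP t) t, evk_inv q (evk_Sf q P t) (unit_ne q hP t)
      (Sf_ne' q hP t), ← map_mul, ← map_mul]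
    congr 1
    funext N
    simp only [Pi.mul_apply]
    rw [E.J_cons, E.J_nil]

theorem sh_ev (Φ : MvPolynomial Nd (RatFunc F)) : sh (E.ev Φ) = E.ev ((SN q).T Φ) := by
  have : sh.comp E.ev = E.ev.comp (SN q).T := by
    apply MvPolynomial.ringHom_ext
    · intro r
      rw [RingHom.comp_apply, RingHom.comp_apply, ev_C, Sys.T_C, ev_C, sh_evk]
      rfl
    · intro w
      rw [RingHom.comp_apply, RingHom.comp_apply, SN_T_X, TX, ev_X, sh_gr,
        E.ev_zc w w.p w.b w.P w.C _ rfl rfl rfl rfl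
          (fun t => E.ev_Z w.C w.val.comp (w.p * w.P) (hPP w) t) w.P]
      congr 1
      funext N
      congr 1
      push_cast
      ring
  exact RingHom.congr_fun this Φ

theorem ev_inj [CharZero F] : Function.Injective E.ev :=
  Sys.ev_injective (SN_obs q) E.ev sh E.sh_ev

theorem Z_zero (K : Tr) (h : Val K) (P : ℕ) (hP : 1 ≤ P) :
    Z q K h P hP 0 = monomial (nodes K h P hP) (Sf q P 0 ^ (1 - (Multiset.card K.code : ℤ))) := by
  induction K with
  | nil => simp [Z, nodes, code]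
  | cons p b Cc R hC hR =>
    rw [Z]
    simp only
    have h1 := Sf_ne' q hP 0
    have h2 : Sf q P 0 ^ (1 - ((Multiset.card R.code + 1 : ℕ) : ℤ)) =
        Sf q P 0 ^ (1 - (Multiset.card R.code : ℤ)) * (Sf q P 0)⁻¹ := by
      rw [← zpow_sub_one₀ h1]
      congr 1
      push_cast
      ring
    have h3 : ∀ a : RatFunc F, (C a : MvPolynomial Nd (RatFunc F)) = monomial 0 a := fun _ => rfl
    rw [zc, hR, nodes, code, Multiset.card_cons, h2, h3, X, monomial_mul, monomial_mul, one_mul,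
      add_zero]
    rfl

/-- the coloured Jones function determines the multiset of prime summands -/
theorem code_eq [CharZero F] {K K' : Tr} (h : Val K) (h' : Val K')
    (hJ : ∀ n : ℕ, E.J K n = E.J K' n) : K.code = K'.code := by
  have e1 : E.ev (Z q K h 1 le_rfl 0) = E.ev (Z q K' h' 1 le_rfl 0) := by
    rw [ev_Z, ev_Z, gr_eq_iff]
    filter_upwards [Filter.eventually_ge_atTop 1] with N hN
    have : ((1 : ℕ) : ℤ) * N + 2 * ((0 : ℕ) : ℤ) - 1 = ((N - 1 : ℕ) : ℤ) := by
      rw [Nat.cast_sub hN]; push_cast; ring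
    rw [this, hJ]
  have e2 := E.ev_inj e1
  rw [Z_zero, Z_zero] at e2
  have hne : ∀ s : ℤ, Sf q (1 : ℕ) 0 ^ s ≠ 0 := fun s => zpow_ne_zero _ (Sf_ne' q le_rfl 0)
  have e3 : nodes K h 1 le_rfl = nodes K' h' 1 le_rfl := by
    rcases (monomial_eq_monomial_iff _ _ _ _).mp e2 with h1 | h1
    · exact h1.1
    · exact absurd h1.1 (hne _)
  have k1 : ∀ {K K' : Tr} (h : Val K) (h' : Val K'), nodes K h 1 le_rfl = nodes K' h' 1 le_rfl →
      K.code ≤ K'.code := by
    intro K K' h h' he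
    by_cases h0 : K.code = 0
    · rw [h0]; exact Multiset.zero_le _
    · exact (nodes_le h0 he.le).2
  exact le_antisymm (k1 h h' e3) (k1 h' h e3.symm)

end JFam

end

end Pool.Agent.H765.GK
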