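import Mathlib
import Pool.Agent.H765.GK.Def
import Pool.Agent.H765.GK.Ev

/-! Coloured Jones functions of graph knots satisfy the system. -/

namespace Pool.Agent.H765.GK

open PowerSeries

noncomputable section

theorem hexp_add (a b : ℚ) : hexp (a + b) = hexp a * hexp b :=
  (PowerSeries.exp_mul_exp_eq_exp_add a b).symm

theorem hexp_zero : hexp 0 = 1 := by
  rw [hexp, PowerSeries.rescale_zero_apply]; simp

theorem coeff_hexp (b : ℚ) (n : ℕ) : coeff n (hexp b) = b ^ n * (1 / n.factorial) := by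
  rw [hexp, coeff_rescale, coeff_exp]
  simp

theorem symSum_zero {R : Type*} [AddCommMonoid R] (f : ℤ → R) : symSum f 0 = 0 := by
  simp [symSum]

theorem symSum_one {R : Type*} [AddCommMonoid R] (f : ℤ → R) : symSum f 1 = f 0 := by
  simp [symSum]

theorem symSum_add_two {R : Type*} [AddCommMonoid R] (f : ℤ → R) (n : ℕ) :
    symSum f (n + 2) = symSum f n + f (n + 1) + f (-(n + 1)) := by
  unfold symSum
  rw [Finset.sum_range_succ', Finset.sum_range_succ]
  congr 1
  · congr 1
    · apply Finset.sum_congr rfl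
      intro i _
      congr 1
      push_cast
      ring
    · congr 1
      push_cast
      ring
  · congr 1
    push_cast
    ring

theorem cableJ_neg (p : ℕ) (q : ℤ) (J : ℤ → ℚ⟦X⟧) (N : ℤ) :
    cableJ p q J (-N) = - cableJ p q J N := by
  unfold cableJ
  rw [Int.sign_neg, Int.natAbs_neg, neg_smul]
  congr 4
  push_cast
  ring

theorem cableJ_natCast (p : ℕ) (q : ℤ) (J : ℤ → ℚ⟦X⟧) (n : ℕ) :
    cableJ p q J n = hexp (-(p * q * ((n : ℚ) ^ 2 - 1)) / 2) *
      symSum (fun j => hexp (q * j * (p * j + 2) / 2) * J (p * j + 1)) n := by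
  unfold cableJ
  rcases Nat.eq_zero_or_pos n with h | h
  · subst h
    simp [symSum_zero]
  · rw [Int.sign_natCast_of_ne_zero h.ne', one_smul, Int.natAbs_natCast]
    push_cast
    rfl

theorem unknotJ_neg (N : ℤ) : unknotJ (-N) = - unknotJ N := by
  unfold unknotJ
  rw [Int.sign_neg, Int.natAbs_neg, neg_smul]

theorem unknotJ_natCast (n : ℕ) : unknotJ n = symSum (fun j => hexp j) n := by
  unfold unknotJ
  rcases Nat.eq_zero_or_pos n with h | h
  · subst h
    simp [symSum_zero]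
  · rw [Int.sign_natCast_of_ne_zero h.ne', one_smul, Int.natAbs_natCast]

theorem unknotJ_mul (N : ℤ) : (hexp 1 - hexp (-1)) * unknotJ N = hexp N - hexp (-N) := by
  have h : ∀ n : ℕ, (hexp 1 - hexp (-1)) * unknotJ n = hexp n - hexp (-n) := by
    intro n
    rw [unknotJ_natCast]
    induction n using Nat.strong_induction_on with
    | _ n ih =>
      match n, ih with
      | 0, _ => simp [symSum_zero]
      | 1, _ => simp [symSum_one, hexp_zero]
      | n + 2, ih =>
        rw [symSum_add_two, mul_add, mul_add, ih n (by omega), sub_mul, sub_mul, ← hexp_add,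
          ← hexp_add, ← hexp_add, ← hexp_add]
        push_cast
        rw [show (1 : ℚ) + (n + 1) = (n + 2) by ring,
          show (-1 : ℚ) + (n + 1) = n by ring,
          show (1 : ℚ) + (-(n + 1)) = -n by ring,
          show (-1 : ℚ) + (-(n + 1)) = -(n + 2) by ring]
        ring
  obtain ⟨n, rfl | rfl⟩ := N.eq_nat_or_neg
  · exact_mod_cast h n
  · rw [unknotJ_neg, mul_neg, h n]
    push_cast
    rw [neg_neg]
    ring

/-- the difference equation of a cable -/
theorem cableJ_diff {p : ℕ} {q : ℤ} {J : ℤ → ℚ⟦X⟧} (hJ : ∀ N, J (-N) = - J N) (m : ℤ) :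
    hexp (p * q * m) * cableJ p q J (m + 1) - hexp (-(p * q * m)) * cableJ p q J (m - 1) =
      hexp (q * m) * J (p * m + 1) - hexp (-(q * m)) * J (p * m - 1) := by
  have h : ∀ n : ℕ, hexp (p * q * n) * cableJ p q J (n + 1) -
      hexp (-(p * q * n)) * cableJ p q J (n - 1) =
      hexp (q * n) * J (p * n + 1) - hexp (-(q * n)) * J (p * n - 1) := by
    intro n
    rcases n with _ | n
    · have e1 : cableJ p q J (((0 : ℕ) : ℤ) + 1) = J 1 := by
        have := cableJ_natCast p q J 1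
        simpa [symSum_one, hexp_zero] using this
      have e2 : cableJ p q J (((0 : ℕ) : ℤ) - 1) = - J 1 := by
        have : (((0 : ℕ) : ℤ) - 1) = -(((0 : ℕ) : ℤ) + 1) := by simp
        rw [this, cableJ_neg, e1]
      rw [e1, e2]
      simp [hJ, hexp_zero]
    · have e1 : (((n + 1 : ℕ) : ℤ) + 1) = ((n + 2 : ℕ) : ℤ) := by push_cast; ring
      have e2 : (((n + 1 : ℕ) : ℤ) - 1) = ((n : ℕ) : ℤ) := by push_cast; ring
      have e3 : J (p * (-(((n : ℕ) : ℤ) + 1)) + 1) = - J (p * ((n + 1 : ℕ) : ℤ) - 1) := by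
        rw [← hJ]; congr 1; push_cast; ring
      rw [e1, e2, cableJ_natCast, cableJ_natCast, symSum_add_two, e3]
      set S := symSum (fun j => hexp (q * j * (p * j + 2) / 2) * J (p * j + 1)) n with hS
      have m1 : hexp (p * q * ((n + 1 : ℕ) : ℚ)) *
          hexp (-(p * q * (((n + 2 : ℕ) : ℚ) ^ 2 - 1)) / 2) =
          hexp (-(p * q * ((n : ℚ) + 1) ^ 2) / 2) := by
        rw [← hexp_add]; congr 1; push_cast; ring
      have m2 : hexp (-(p * q * ((n + 1 : ℕ) : ℚ))) *
          hexp (-(p * q * ((n : ℚ) ^ 2 - 1)) / 2) = hexp (-(p * q * ((n : ℚ) + 1) ^ 2) / 2) := by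
        rw [← hexp_add]; congr 1; push_cast; ring
      have m3 : hexp (-(p * q * ((n : ℚ) + 1) ^ 2) / 2) *
          hexp (q * (((n : ℤ) + 1 : ℤ) : ℚ) * (p * (((n : ℤ) + 1 : ℤ) : ℚ) + 2) / 2) =
            hexp (q * ((n + 1 : ℕ) : ℚ)) := by
        rw [← hexp_add]; congr 1; push_cast; ring
      have m4 : hexp (-(p * q * ((n : ℚ) + 1) ^ 2) / 2) *
          hexp (q * ((-((n : ℤ) + 1) : ℤ) : ℚ) * (p * ((-((n : ℤ) + 1) : ℤ) : ℚ) + 2) / 2) =
          hexp (-(q * ((n + 1 : ℕ) : ℚ))) := by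
        rw [← hexp_add]; congr 1; push_cast; ring
      have e4 : J (p * ((n : ℤ) + 1) + 1) = J (p * ((n + 1 : ℕ) : ℤ) + 1) := by
        congr 1
      rw [e4]
      linear_combination (S + hexp (q * (((n : ℤ) + 1 : ℤ) : ℚ) *
          (p * (((n : ℤ) + 1 : ℤ) : ℚ) + 2) / 2) * J (p * ((n + 1 : ℕ) : ℤ) + 1) +
          hexp (q * ((-((n : ℤ) + 1) : ℤ) : ℚ) * (p * ((-((n : ℤ) + 1) : ℤ) : ℚ) + 2) / 2) *
          (-J (p * ((n + 1 : ℕ) : ℤ) - 1))) * m1 - S * m2 + J (p * ((n + 1 : ℕ) : ℤ) + 1) * m3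
          - J (p * ((n + 1 : ℕ) : ℤ) - 1) * m4
  obtain ⟨n, rfl | rfl⟩ := m.eq_nat_or_neg
  · exact_mod_cast h n
  · have := h n
    have e1 : cableJ p q J (-(n : ℤ) + 1) = - cableJ p q J (n - 1) := by
      rw [← cableJ_neg]; congr 1; ring
    have e2 : cableJ p q J (-(n : ℤ) - 1) = - cableJ p q J (n + 1) := by
      rw [← cableJ_neg]; congr 1; ring
    have e3 : J (p * -(n : ℤ) + 1) = - J (p * n - 1) := by
      rw [← hJ]; congr 1; ring
    have e4 : J (p * -(n : ℤ) - 1) = - J (p * n + 1) := by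
      rw [← hJ]; congr 1; ring
    rw [e1, e2, e3, e4]
    push_cast
    simp only [mul_neg, neg_neg]
    linear_combination this

/-- two odd solutions of a difference equation agree -/
theorem odd_unique {A B : ℤ → ℚ⟦X⟧} {c : ℚ} (hA : ∀ m, A (-m) = -A m)
    (hB : ∀ m, B (-m) = -B m)
    (h : ∀ m : ℤ, hexp (c * m) * A (m + 1) - hexp (-(c * m)) * A (m - 1) =
      hexp (c * m) * B (m + 1) - hexp (-(c * m)) * B (m - 1)) : A = B := by
  have hz : ∀ {A : ℤ → ℚ⟦X⟧}, (∀ m, A (-m) = -A m) → A 0 = 0 := by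
    intro A hA
    have h1 := hA 0
    rw [neg_zero] at h1
    have h2 : (2 : ℚ) • A 0 = 0 := by
      rw [two_smul]
      nth_rewrite 1 [h1]
      exact neg_add_cancel _
    exact (smul_eq_zero.mp h2).resolve_left two_ne_zero
  have hu : ∀ b : ℚ, hexp b ≠ 0 := by
    intro b hb
    have := congrArg (coeff 0) hb
    rw [coeff_hexp] at this
    simp at this
  have hn : ∀ n : ℕ, A n = B n ∧ A (n + 1) = B (n + 1) := by
    intro n
    induction n with
    | zero =>
      refine ⟨by simp [hz hA, hz hB], ?_⟩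
      have h1 := h 0
      simp only [Int.cast_zero, mul_zero, neg_zero, hexp_zero, one_mul, zero_add, zero_sub, hA,
        hB, sub_neg_eq_add] at h1
      have h2 : (2 : ℚ) • A 1 = (2 : ℚ) • B 1 := by rw [two_smul, two_smul, h1]
      have h3 := smul_right_injective (ℚ⟦X⟧) (two_ne_zero' ℚ) h2
      simpa using h3
    | succ n ih =>
      obtain ⟨h1, h2⟩ := ih
      have h3 := h (n + 1)
      have e1 : ((n : ℤ) + 1 - 1) = n := by ring
      rw [e1, h1] at h3
      refine ⟨by push_cast; exact h2, ?_⟩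
      have h4 := sub_left_injective h3
      have h5 := mul_left_cancel₀ (hu _) h4
      push_cast
      exact h5
  funext m
  obtain ⟨n, rfl | rfl⟩ := m.eq_nat_or_neg
  · exact (hn n).1
  · rw [hA, hB, (hn n).1]

end

end Pool.Agent.H765.GK
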