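import Mathlib
import Pool.Agent.H765.GK.Jn

/-! Coloured Jones polynomials separate graph knots. -/

namespace Pool.Agent.H765.GK

open PowerSeries GraphKnot

noncomputable section

/-- Laurent series in `h` -/
abbrev LS : Type := LaurentSeries ℚ

/-- inclusion of power series -/
def io : ℚ⟦X⟧ →+* LS := HahnSeries.ofPowerSeries ℤ ℚ

theorem io_inj : Function.Injective io := HahnSeries.ofPowerSeries_injective

/-- exponentials in Laurent series -/
def qL : QF LS where
  Q := fun a => io (hexp a)
  zero := by rw [hexp_zero, map_one]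
  add := fun a b => by rw [hexp_add, map_mul]
  inj := fun a h => by
    have h1 : hexp a = 1 := io_inj (by rw [h, map_one])
    have h2 := congrArg (coeff 1) h1
    rw [coeff_hexp, coeff_one] at h2
    simpa using h2

theorem coeff_zero_unknotJ (n : ℤ) : constantCoeff (unknotJ n) = n := by
  have h : ∀ n : ℕ, constantCoeff (unknotJ n) = n := by
    intro n
    rw [unknotJ_natCast, symSum, map_sum]
    have : ∀ i ∈ Finset.range n, constantCoeff (hexp ((2 * i - (n - 1) : ℤ) : ℚ)) = 1 := by
      intro i _
      rw [← coeff_zero_eq_constantCoeff_apply, coeff_hexp]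
      simp
    rw [Finset.sum_congr rfl this]
    simp
  obtain ⟨k, rfl | rfl⟩ := n.eq_nat_or_neg
  · exact_mod_cast h k
  · rw [unknotJ_neg, map_neg, h]
    push_cast
    rfl

theorem unknotJ_zero : unknotJ 0 = 0 := by simp [unknotJ]

theorem io_inv (n : ℤ) : io (unknotJ n)⁻¹ = (io (unknotJ n))⁻¹ := by
  rcases eq_or_ne n 0 with h | h
  · rw [h, unknotJ_zero, PowerSeries.zero_inv, map_zero, inv_zero]
  · have h1 : constantCoeff (unknotJ n) ≠ 0 := by
      rw [coeff_zero_unknotJ]
      exact_mod_cast h
    apply eq_inv_of_mul_eq_one_left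
    rw [← map_mul, PowerSeries.inv_mul_cancel _ h1, map_one]

theorem mul_unknotJ_cancel {n : ℤ} (h : n ≠ 0) : unknotJ n * (unknotJ n)⁻¹ = 1 := by
  apply PowerSeries.mul_inv_cancel
  rw [coeff_zero_unknotJ]
  exact_mod_cast h

theorem inv_neg_unknotJ (n : ℤ) : (-unknotJ n)⁻¹ = -(unknotJ n)⁻¹ := by
  apply io_inj
  have := io_inv (-n)
  rw [unknotJ_neg] at this
  rw [this, map_neg, map_neg, io_inv]
  exact (neg_inv).symm

/-- coloured Jones functions of trees -/
def tj : Tr → ℤ → ℚ⟦X⟧
  | Tr.nil => unknotJ
  | Tr.cons p b C R => fun n => cableJ p b (tj C) n * tj R n * (unknotJ n)⁻¹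

theorem tj_odd (T : Tr) (n : ℤ) : tj T (-n) = - tj T n := by
  induction T with
  | nil => exact unknotJ_neg n
  | cons p b C R hC hR =>
    rw [tj]
    simp only
    rw [cableJ_neg, hR, unknotJ_neg, inv_neg_unknotJ]
    ring

theorem tj_perm {T T' : Tr} (h : Tr.Perm T T') : tj T = tj T' := by
  induction h with
  | nil => rfl
  | cons p b _ _ h1 h2 => rw [tj, tj, h1, h2]
  | swap p b p' b' C C' R =>
    funext n
    simp only [tj]
    ring
  | trans _ _ h1 h2 => exact h1.trans h2

/-- the family of coloured Jones functions -/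
def EL : JFam qL where
  J := fun T n => (io (hexp 1) - io (hexp (-1))) * io (tj T n)
  G := fun p b C n => (io (hexp 1) - io (hexp (-1))) * io (cableJ p b (tj C) n)
  J_nil := fun n => by
    rw [tj, ← map_sub, ← map_mul, unknotJ_mul, map_sub]
    rfl
  J_cons := fun p b C R n => by
    simp only [tj]
    rw [map_mul, map_mul, io_inv, mul_inv]
    have h : (io (hexp 1) - io (hexp (-1))) ≠ 0 := by
      rw [← map_sub, Ne, map_eq_zero_iff _ io_inj]
      intro h
      have := congrArg (coeff 1) h
      rw [map_sub, coeff_hexp, coeff_hexp] at this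
      norm_num at this
    field_simp
  G_diff := fun p b C m => by
    have h := congrArg io (cableJ_diff (p := p) (q := b) (tj_odd C) m)
    simp only [map_sub, map_mul] at h
    change io (hexp (p * b * m)) * _ - io (hexp (-(p * b * m))) * _ =
      io (hexp (b * m)) * _ - io (hexp (-(b * m))) * _
    linear_combination (io (hexp 1) - io (hexp (-1))) * h
  G_congr := fun p b C C' h => by
    rw [tj_perm (Tr.perm_of_code h)]

instance : CharZero LS :=
  charZero_of_injective_ringHom (f := io.comp (PowerSeries.C (R := ℚ)))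
    (io_inj.comp PowerSeries.C_injective)

theorem perm_of_tj {T T' : Tr} (h : T.Val) (h' : T'.Val) (hJ : ∀ n : ℕ, tj T n = tj T' n) :
    Tr.Perm T T' :=
  Tr.perm_of_code (EL.code_eq h h' fun n => by
    change (io (hexp 1) - io (hexp (-1))) * io (tj T n) = _
    rw [hJ]
    rfl)

theorem colouredJones_odd (K : GraphKnot) (n : ℤ) :
    colouredJones K (-n) = - colouredJones K n := by
  induction K with
  | unknot => exact unknotJ_neg n
  | cable p q hp hq K _ => exact cableJ_neg _ _ _ _
  | sum K L hK hL =>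
    rw [colouredJones]
    simp only
    rw [hK, hL, unknotJ_neg, inv_neg_unknotJ]
    ring

theorem colouredJones_zero (K : GraphKnot) : colouredJones K 0 = 0 := by
  have h1 := colouredJones_odd K 0
  rw [neg_zero] at h1
  have h2 : (2 : ℚ) • colouredJones K 0 = 0 := by
    rw [two_smul]
    nth_rewrite 1 [h1]
    exact neg_add_cancel _
  exact (smul_eq_zero.mp h2).resolve_left two_ne_zero

theorem D_ne : (hexp 1 - hexp (-1)) ≠ 0 := by
  intro h
  have := congrArg (coeff 1) h
  rw [map_sub, coeff_hexp, coeff_hexp] at this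
  norm_num at this

theorem cableJ_unknot_diff (p : ℕ) (q : ℤ) (m : ℤ) :
    (hexp 1 - hexp (-1)) * (hexp (p * q * m) * cableJ p q unknotJ (m + 1) -
      hexp (-(p * q * m)) * cableJ p q unknotJ (m - 1)) =
    hexp (q * m + p * m + 1) - hexp (q * m - p * m - 1) - hexp (-(q * m) + p * m - 1) +
      hexp (-(q * m) - p * m + 1) := by
  rw [cableJ_diff unknotJ_neg]
  have h1 := unknotJ_mul (p * m + 1)
  have h2 := unknotJ_mul (p * m - 1)
  have e1 : hexp (q * m + p * m + 1) = hexp (q * m) * hexp ((p * m + 1 : ℤ) : ℚ) := by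
    rw [← hexp_add]; congr 1; push_cast; ring
  have e2 : hexp (q * m - p * m - 1) = hexp (q * m) * hexp (-((p * m + 1 : ℤ) : ℚ)) := by
    rw [← hexp_add]; congr 1; push_cast; ring
  have e3 : hexp (-(q * m) + p * m - 1) = hexp (-(q * m)) * hexp ((p * m - 1 : ℤ) : ℚ) := by
    rw [← hexp_add]; congr 1; push_cast; ring
  have e4 : hexp (-(q * m) - p * m + 1) = hexp (-(q * m)) * hexp (-((p * m - 1 : ℤ) : ℚ)) := by
    rw [← hexp_add]; congr 1; push_cast; ring
  rw [e1, e2, e3, e4]
  linear_combination hexp (q * m) * h1 - hexp (-(q * m)) * h2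

theorem cableJ_swap (p r : ℕ) (ε : ℤ) (hε : ε = 1 ∨ ε = -1) :
    cableJ p (ε * r) unknotJ = cableJ r (ε * p) unknotJ := by
  apply odd_unique (c := p * (ε * r)) (cableJ_neg _ _ _) (cableJ_neg _ _ _)
  intro m
  apply mul_left_cancel₀ D_ne
  have h1 := cableJ_unknot_diff p (ε * r) m
  have h2 := cableJ_unknot_diff r (ε * p) m
  have e1 : ((p : ℚ) * ((ε * r : ℤ) : ℚ) * m) = p * (ε * r) * m := by push_cast; ring
  have e2 : ((r : ℚ) * ((ε * p : ℤ) : ℚ) * m) = p * (ε * r) * m := by push_cast; ring
  rw [e1] at h1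
  rw [e2] at h2
  rw [h1, h2]
  rcases hε with rfl | rfl
  · push_cast
    rw [show ((1 : ℚ) * r * m + p * m + 1) = 1 * p * m + r * m + 1 by ring,
      show ((1 : ℚ) * r * m - p * m - 1) = -(1 * p * m) + r * m - 1 by ring,
      show (-((1 : ℚ) * r * m) + p * m - 1) = 1 * p * m - r * m - 1 by ring,
      show (-((1 : ℚ) * r * m) - p * m + 1) = -(1 * p * m) - r * m + 1 by ring]
    ring
  · push_cast
    rw [show ((-1 : ℚ) * r * m + p * m + 1) = -(-1 * p * m) - r * m + 1 by ring,
      show ((-1 : ℚ) * r * m - p * m - 1) = -1 * p * m - r * m - 1 by ring,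
      show (-((-1 : ℚ) * r * m) + p * m - 1) = -(-1 * p * m) + r * m - 1 by ring,
      show (-((-1 : ℚ) * r * m) - p * m + 1) = -1 * p * m + r * m + 1 by ring]
    ring

theorem cableJ_one (p : ℕ) (ε : ℤ) (hε : ε = 1 ∨ ε = -1) :
    cableJ p ε unknotJ = unknotJ := by
  apply odd_unique (c := p * ε) (cableJ_neg _ _ _) unknotJ_neg
  intro m
  apply mul_left_cancel₀ D_ne
  rw [cableJ_unknot_diff p ε m]
  have h1 := unknotJ_mul (m + 1)
  have h2 := unknotJ_mul (m - 1)
  have e : (hexp 1 - hexp (-1)) * (hexp (p * ε * m) * unknotJ (m + 1) -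
      hexp (-(p * ε * m)) * unknotJ (m - 1)) =
      hexp (p * ε * m) * (hexp ((m + 1 : ℤ) : ℚ) - hexp (-((m + 1 : ℤ) : ℚ))) -
      hexp (-(p * ε * m)) * (hexp ((m - 1 : ℤ) : ℚ) - hexp (-((m - 1 : ℤ) : ℚ))) := by
    rw [← h1, ← h2]; ring
  rw [e, mul_sub, mul_sub, ← hexp_add, ← hexp_add, ← hexp_add, ← hexp_add]
  rcases hε with rfl | rfl
  · push_cast
    rw [show ((1 : ℚ) * m + p * m + 1) = p * 1 * m + (m + 1) by ring,
      show ((1 : ℚ) * m - p * m - 1) = -(p * 1 * m) + (m - 1) by ring,
      show (-((1 : ℚ) * m) + p * m - 1) = p * 1 * m + -(m + 1) by ring,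
      show (-((1 : ℚ) * m) - p * m + 1) = -(p * 1 * m) + -(m - 1) by ring]
    ring
  · push_cast
    rw [show ((-1 : ℚ) * m + p * m + 1) = -(p * -1 * m) + -(m - 1) by ring,
      show ((-1 : ℚ) * m - p * m - 1) = p * -1 * m + -(m + 1) by ring,
      show (-((-1 : ℚ) * m) + p * m - 1) = -(p * -1 * m) + (m - 1) by ring,
      show (-((-1 : ℚ) * m) - p * m + 1) = p * -1 * m + (m + 1) by ring]
    ring

/-- coloured Jones polynomials are invariant under the listed isotopies -/
theorem Isotopic.colouredJones_eq {K L : GraphKnot} (h : Isotopic K L) :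
    colouredJones K = colouredJones L := by
  induction h with
  | refl K => rfl
  | symm _ h => exact h.symm
  | trans _ _ h1 h2 => exact h1.trans h2
  | cable_congr p q hp hq _ h => rw [colouredJones, colouredJones, h]
  | sum_congr _ _ h1 h2 => rw [colouredJones, colouredJones, h1, h2]
  | sum_comm K L => funext n; simp only [colouredJones]; ring
  | sum_assoc K L M => funext n; simp only [colouredJones]; ring
  | sum_unknot K =>
    funext n
    simp only [colouredJones]
    rcases eq_or_ne n 0 with h | h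
    · rw [h, colouredJones_zero, zero_mul, zero_mul]
    · rw [mul_assoc, mul_unknotJ_cancel h, mul_one]
  | torus_swap p r ε hε hp hr hpr hrp => exact cableJ_swap p r ε hε
  | torus_one p ε hε hp hpε => exact cableJ_one p ε hε

/-- the graph knot of a tree -/
def toGK : (T : Tr) → T.Val → GraphKnot
  | Tr.nil, _ => unknot
  | Tr.cons p b C R, h => sum (cable p b h.1 h.2.1 (toGK C h.comp)) (toGK R h.tail)

theorem colouredJones_toGK (T : Tr) (h : T.Val) : colouredJones (toGK T h) = tj T := by
  induction T with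
  | nil => rfl
  | cons p b C R hC hR => rw [toGK, colouredJones, colouredJones, hC, hR, tj]

theorem isotopic_of_perm {T T' : Tr} (hp : Tr.Perm T T') (h : T.Val) (h' : T'.Val) :
    Isotopic (toGK T h) (toGK T' h') := by
  induction hp with
  | nil => exact Isotopic.refl _
  | cons p b h1 h2 h3 h4 =>
    exact Isotopic.sum_congr (Isotopic.cable_congr _ _ _ _ (h3 h.comp h'.comp))
      (h4 h.tail h'.tail)
  | swap p b p' b' C C' R =>
    simp only [toGK]
    exact (Isotopic.sum_assoc _ _ _).symm.trans
      ((Isotopic.sum_congr (Isotopic.sum_comm _ _) (Isotopic.refl _)).trans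
        (Isotopic.sum_assoc _ _ _))
  | trans h1 h2 h3 h4 => exact (h3 h (h1.val h)).trans (h4 (h1.val h) h')

/-- concatenation -/
def app : Tr → Tr → Tr
  | Tr.nil, T => T
  | Tr.cons p b C R, T => Tr.cons p b C (app R T)

theorem app_val {T T' : Tr} (h : T.Val) (h' : T'.Val) : (app T T').Val := by
  induction T with
  | nil => exact h'
  | cons p b C R _ hR => exact ⟨h.1, h.2.1, h.2.2.1, h.comp, hR h.tail⟩

theorem isotopic_app {T T' : Tr} (h : T.Val) (h' : T'.Val) :
    Isotopic (sum (toGK T h) (toGK T' h')) (toGK (app T T') (app_val h h')) := by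
  induction T with
  | nil => exact (Isotopic.sum_comm _ _).trans (Isotopic.sum_unknot _)
  | cons p b C R _ hR =>
    exact (Isotopic.sum_assoc _ _ _).trans
      (Isotopic.sum_congr (Isotopic.refl _) (hR h.tail))

theorem isotopic_one {p : ℕ} {b : ℤ} {C : Tr} (h : (Tr.cons p b C Tr.nil).Val) :
    Isotopic (cable p b h.1 h.2.1 (toGK C h.comp)) (toGK _ h) :=
  (Isotopic.sum_unknot _).symm

theorem exists_tree (K : GraphKnot) : ∃ (T : Tr) (h : T.Val), Isotopic K (toGK T h) := by
  induction K with
  | unknot => exact ⟨Tr.nil, trivial, Isotopic.refl _⟩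
  | sum K L hK hL =>
    obtain ⟨T, h, h1⟩ := hK
    obtain ⟨T', h', h2⟩ := hL
    exact ⟨app T T', app_val h h', (Isotopic.sum_congr h1 h2).trans (isotopic_app h h')⟩
  | cable p q hp hq K hK =>
    obtain ⟨T, h, h1⟩ := hK
    have h2 : Isotopic (cable p q hp hq K) (cable p q hp hq (toGK T h)) :=
      Isotopic.cable_congr _ _ _ _ h1
    cases T with
    | cons p' b' C' R' =>
      have hv : (Tr.cons p q (Tr.cons p' b' C' R') Tr.nil).Val :=
        ⟨hp, hq, fun h0 => by simp at h0, h, trivial⟩
      exact ⟨_, hv, h2.trans (isotopic_one hv)⟩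
    | nil =>
      have h3 : Isotopic (cable p q hp hq K) (cable p q hp hq unknot) := h2
      obtain ⟨ε, r, hε, hq'⟩ : ∃ (ε : ℤ) (r : ℕ), (ε = 1 ∨ ε = -1) ∧ q = ε * r := by
        obtain ⟨k, hk | hk⟩ := q.eq_nat_or_neg
        · exact ⟨1, k, Or.inl rfl, by rw [hk, one_mul]⟩
        · exact ⟨-1, k, Or.inr rfl, by rw [hk, neg_one_mul]⟩
      have hε2 : ε * ε = 1 := by rcases hε with rfl | rfl <;> norm_num
      have huε : IsUnit ε := IsUnit.of_mul_eq_one ε hε2
      have habs : ∀ x : ℕ, |ε * (x : ℤ)| = x := by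
        intro x
        rcases hε with rfl | rfl <;> simp
      subst hq'
      have hcop : IsCoprime (p : ℤ) r := (isCoprime_mul_unit_left_right huε _ _).mp hq
      rcases Nat.lt_or_ge p r with h4 | h4
      · have hv : (Tr.cons p (ε * r) Tr.nil Tr.nil).Val :=
          ⟨hp, hq, fun _ => by rw [habs]; exact_mod_cast h4, trivial, trivial⟩
        exact ⟨_, hv, h3.trans (isotopic_one hv)⟩
      · rcases Nat.lt_or_ge r 2 with h5 | h5
        · have hr1 : r = 1 := by
            rcases Nat.eq_zero_or_pos r with h6 | h6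
            · exfalso
              rw [h6, Nat.cast_zero, isCoprime_zero_right, Int.isUnit_iff] at hcop
              omega
            · omega
          subst hr1
          refine ⟨Tr.nil, trivial, h3.trans ?_⟩
          have e : ε * ((1 : ℕ) : ℤ) = ε := by rw [Nat.cast_one, mul_one]
          have key : ∀ (x : ℤ) (hx : x = ε) (hc : IsCoprime (p : ℤ) x),
              Isotopic (cable p x hp hc unknot) unknot := by
            rintro x rfl hc
            exact Isotopic.torus_one p x hε hp hc
          exact key _ e _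
        · have hrp : IsCoprime (r : ℤ) (ε * p) :=
            (isCoprime_mul_unit_left_right huε _ _).mpr hcop.symm
          have h6 : r < p := by
            rcases Nat.lt_or_ge r p with h7 | h7
            · exact h7
            · exfalso
              have h8 : r = p := le_antisymm h4 h7
              rw [h8, isCoprime_self, Int.isUnit_iff] at hcop
              omega
          have hv : (Tr.cons r (ε * p) Tr.nil Tr.nil).Val :=
            ⟨h5, hrp, fun _ => by rw [habs]; exact_mod_cast h6, trivial, trivial⟩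
          exact ⟨_, hv, h3.trans ((Isotopic.torus_swap p r ε hε hp h5 hq hrp).trans
            (isotopic_one hv))⟩

/-- Graph knots with equal coloured Jones polynomials are isotopic. -/
theorem graph_main (K L : GraphKnot) :
    (∀ N n : ℕ, coeff n (colouredJones K N) = coeff n (colouredJones L N)) ↔ Isotopic K L := by
  constructor
  · intro h
    obtain ⟨T, hT, h1⟩ := exists_tree K
    obtain ⟨T', hT', h2⟩ := exists_tree L
    have hJ : ∀ n : ℕ, tj T n = tj T' n := by
      intro n
      rw [← colouredJones_toGK T hT, ← colouredJones_toGK T' hT', ← h1.colouredJones_eq,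
        ← h2.colouredJones_eq]
      exact PowerSeries.ext fun k => h n k
    exact h1.trans ((isotopic_of_perm (perm_of_tj hT hT' hJ) hT hT').trans h2.symm)
  · intro h N n
    rw [h.colouredJones_eq]

end

end Pool.Agent.H765.GK
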